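import Pool.Agent.P.MP_7d68c1_gt.Defs

open scoped LinearAlgebra.Projectivization MatrixGroups Topology
open Matrix Filter Set

namespace Pool.Agent.P.MP_7d68c1_gt

abbrev V4 := Fin 4 → ℝ
abbrev P4 := ℙ ℝ (Fin 4 → ℝ)

open Classical in
/-- the projection, extended by a junk value at 0 -/
noncomputable def pr (v : V4) : P4 :=
  if h : v ≠ 0 then Projectivization.mk ℝ v h else Classical.arbitrary _

theorem pr_eq {v : V4} (h : v ≠ 0) : pr v = Projectivization.mk ℝ v h := by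
  simp [pr, h]

theorem pr_rep (x : P4) : pr x.rep = x := by
  rw [pr_eq x.rep_nonzero, Projectivization.mk_rep]

theorem pr_eq_iff {v w : V4} (hv : v ≠ 0) (hw : w ≠ 0) : pr v = pr w ↔ ∃ a : ℝ, a • w = v := by
  rw [pr_eq hv, pr_eq hw, Projectivization.mk_eq_mk_iff']

theorem pr_smul {v : V4} (hv : v ≠ 0) {t : ℝ} (ht : t ≠ 0) : pr (t • v) = pr v :=
  (pr_eq_iff (smul_ne_zero ht hv) hv).2 ⟨t, rfl⟩

theorem exists_rep_pr {v : V4} (hv : v ≠ 0) : ∃ t : ℝ, t ≠ 0 ∧ (pr v).rep = t • v := by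
  obtain ⟨a, ha⟩ := (pr_eq_iff (pr v).rep_nonzero hv).1 (pr_rep _)
  refine ⟨a, ?_, ha.symm⟩
  rintro rfl
  exact (pr v).rep_nonzero (by rw [← ha, zero_smul])

theorem continuous_mk' : Continuous (Projectivization.mk' ℝ : {v : V4 // v ≠ 0} → P4) :=
  continuous_coinduced_rng

theorem isOpen_P {S : Set P4} :
    IsOpen S ↔ IsOpen ((Projectivization.mk' ℝ : {v : V4 // v ≠ 0} → P4) ⁻¹' S) :=
  isOpen_coinduced

theorem continuousOn_pr : ContinuousOn pr {v | v ≠ 0} := by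
  rw [continuousOn_iff_continuous_domRestrict]
  have : ({v : V4 | v ≠ 0}.domRestrict pr) = (Projectivization.mk' ℝ : {v : V4 // v ≠ 0} → P4) := by
    funext v
    exact pr_eq v.2
  rw [this]
  exact continuous_mk'

theorem continuousAt_pr {v : V4} (hv : v ≠ 0) : ContinuousAt pr v :=
  continuousOn_pr.continuousAt (isOpen_ne.mem_nhds hv)

/-- a scale invariant open condition defines an open set -/
theorem isOpen_rep {A : Set V4} (hA : IsOpen A) (hs : ∀ v ∈ A, ∀ t : ℝ, t ≠ 0 → t • v ∈ A) :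
    IsOpen {x : P4 | x.rep ∈ A} := by
  rw [isOpen_P]
  have : (Projectivization.mk' ℝ : {v : V4 // v ≠ 0} → P4) ⁻¹' {x : P4 | x.rep ∈ A} =
      Subtype.val ⁻¹' A := by
    ext ⟨v, hv⟩
    obtain ⟨t, ht, h⟩ := exists_rep_pr hv
    simp only [mem_preimage, mem_ofPred_eq, Projectivization.mk'_eq_mk, ← pr_eq hv, h]
    constructor
    · intro h1
      have := hs _ h1 t⁻¹ (inv_ne_zero ht)
      rwa [smul_smul, inv_mul_cancel₀ ht, one_smul] at this
    · intro h1
      exact hs _ h1 t ht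
  rw [this]
  exact hA.preimage continuous_subtype_val

theorem isClosed_rep {A : Set V4} (hA : IsClosed A) (hs : ∀ v ∈ A, ∀ t : ℝ, t ≠ 0 → t • v ∈ A) :
    IsClosed {x : P4 | x.rep ∈ A} := by
  rw [← isOpen_compl_iff]
  have := isOpen_rep hA.isOpen_compl (fun v hv t ht h => hv (by
    have := hs _ h t⁻¹ (inv_ne_zero ht)
    rwa [smul_smul, inv_mul_cancel₀ ht, one_smul] at this))
  exact this

theorem rep_pr_mem {A : Set V4} (hs : ∀ v ∈ A, ∀ t : ℝ, t ≠ 0 → t • v ∈ A) {v : V4} (hv : v ≠ 0) :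
    (pr v).rep ∈ A ↔ v ∈ A := by
  obtain ⟨t, ht, h⟩ := exists_rep_pr hv
  rw [h]
  constructor
  · intro h1
    have := hs _ h1 t⁻¹ (inv_ne_zero ht)
    rwa [smul_smul, inv_mul_cancel₀ ht, one_smul] at this
  · intro h1
    exact hs _ h1 t ht

theorem isOpen_image_pr {W : Set V4} (hW : IsOpen W) (h0 : ∀ v ∈ W, v ≠ 0) : IsOpen (pr '' W) := by
  have h1 : IsOpen (⋃ t : ℝ, {v : V4 | t • v ∈ W}) :=
    isOpen_iUnion fun t => hW.preimage (continuous_const_smul t)
  have h2 := isOpen_rep h1 (by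
    intro v hv t ht
    simp only [mem_iUnion, mem_ofPred_eq] at hv ⊢
    obtain ⟨u, hu⟩ := hv
    exact ⟨u * t⁻¹, by rwa [smul_smul, mul_assoc, inv_mul_cancel₀ ht, mul_one]⟩)
  convert h2 using 1
  ext x
  simp only [mem_image, mem_iUnion, mem_ofPred_eq]
  constructor
  · rintro ⟨v, hv, rfl⟩
    obtain ⟨t, ht, h⟩ := exists_rep_pr (h0 v hv)
    exact ⟨t⁻¹, by rwa [h, smul_smul, inv_mul_cancel₀ ht, one_smul]⟩
  · rintro ⟨t, ht⟩
    refine ⟨_, ht, ?_⟩
    have : t ≠ 0 := by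
      rintro rfl
      exact h0 _ ht (zero_smul _ _)
    rw [pr_smul x.rep_nonzero this, pr_rep]

/-- a scale invariant function continuous on an open scale invariant set -/
theorem continuousOn_rep {A : Set V4} (hA : IsOpen A) (hs : ∀ v ∈ A, ∀ t : ℝ, t ≠ 0 → t • v ∈ A)
    {f : V4 → ℝ} (hf : ContinuousOn f A) (hfs : ∀ v ∈ A, ∀ t : ℝ, t ≠ 0 → f (t • v) = f v) :
    ContinuousOn (fun x : P4 => f x.rep) {x : P4 | x.rep ∈ A} := by
  rw [continuousOn_open_iff (isOpen_rep hA hs)]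
  intro U hU
  have h1 : IsOpen (A ∩ f ⁻¹' U) := (continuousOn_open_iff hA).1 hf U hU
  exact isOpen_rep h1 (fun v hv t ht => ⟨hs v hv.1 t ht, by
    simp only [mem_preimage]
    rw [hfs v hv.1 t ht]
    exact hv.2⟩)

instance : T2Space P4 := by
  let F : P4 → (Fin 4 → Fin 4 → ℝ) := fun x i j => x.rep i * x.rep j / (∑ k, x.rep k * x.rep k)
  have hpos : ∀ v : V4, v ≠ 0 → 0 < ∑ k, v k * v k := by
    intro v hv
    obtain ⟨i, hi⟩ := Function.ne_iff.1 hv
    exact Finset.sum_pos' (fun k _ => mul_self_nonneg _) ⟨i, Finset.mem_univ _, mul_self_pos.2 hi⟩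
  have hc : Continuous F := by
    refine continuous_pi fun i => continuous_pi fun j => ?_
    have := continuousOn_rep (A := {v | v ≠ 0}) isOpen_ne (fun v hv t ht => smul_ne_zero ht hv)
      (f := fun v => v i * v j / (∑ k, v k * v k))
      (ContinuousOn.div (by fun_prop) (by fun_prop) (fun v hv => (hpos v hv).ne'))
      (fun v hv t ht => by
        have h1 := (hpos v hv).ne'
        have h2 : ∑ k, (t • v) k * (t • v) k = t * t * ∑ k, v k * v k := by
          rw [Finset.mul_sum]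
          exact Finset.sum_congr rfl fun k _ => by simp only [Pi.smul_apply, smul_eq_mul]; ring
        show (t • v) i * (t • v) j / (∑ k, (t • v) k * (t • v) k) = v i * v j / (∑ k, v k * v k)
        rw [h2]
        generalize ∑ k, v k * v k = N at h1
        simp only [Pi.smul_apply, smul_eq_mul]
        field_simp)
    have h3 : {x : P4 | x.rep ∈ {v : V4 | v ≠ 0}} = univ :=
      eq_univ_of_forall fun x => x.rep_nonzero
    rw [h3] at this
    exact continuousOn_univ.1 this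
  refine T2Space.of_injective_continuous (f := F) ?_ hc
  intro x y hxy
  obtain ⟨i, hi⟩ := Function.ne_iff.1 x.rep_nonzero
  have hx := hpos _ x.rep_nonzero
  have hy := hpos _ y.rep_nonzero
  have h : ∀ j, x.rep i * x.rep j / (∑ k, x.rep k * x.rep k) =
      y.rep i * y.rep j / (∑ k, y.rep k * y.rep k) := fun j => congrFun (congrFun hxy i) j
  rw [← pr_rep x, ← pr_rep y, pr_eq_iff x.rep_nonzero y.rep_nonzero]
  refine ⟨(∑ k, x.rep k * x.rep k) * y.rep i / (x.rep i * ∑ k, y.rep k * y.rep k), ?_⟩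
  funext j
  have h1 := h j
  have hi' : x.rep i ≠ 0 := hi
  simp only [Pi.smul_apply, smul_eq_mul]
  generalize ∑ k, x.rep k * x.rep k = N at h1 hx
  generalize ∑ k, y.rep k * y.rep k = M at h1 hy
  field_simp at h1 ⊢
  linarith

theorem mulVec_ne_zero (g : GL (Fin 4) ℝ) {v : V4} (hv : v ≠ 0) :
    (g : Matrix (Fin 4) (Fin 4) ℝ) *ᵥ v ≠ 0 :=
  (smul_ne_zero_iff_ne g).2 hv

theorem mk_smul_pr (g : GL (Fin 4) ℝ) {v : V4} (hv : v ≠ 0) :
    (ProjGenLinGroup.mk g : PGL(4, ℝ)) • pr v = pr ((g : Matrix (Fin 4) (Fin 4) ℝ) *ᵥ v) := by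
  rw [pr_eq hv, pr_eq (mulVec_ne_zero g hv)]
  rfl

theorem continuous_orbit {v : V4} (hv : v ≠ 0) : Continuous fun h : PGL(4, ℝ) => h • pr v := by
  rw [continuous_coinduced_dom]
  have : ((fun h : PGL(4, ℝ) => h • pr v) ∘ ProjGenLinGroup.mk) =
      fun g : GL (Fin 4) ℝ => pr ((g : Matrix (Fin 4) (Fin 4) ℝ) *ᵥ v) := by
    funext g
    exact mk_smul_pr g hv
  rw [this]
  refine continuousOn_pr.comp_continuous ?_ (fun g => mulVec_ne_zero g hv)
  exact Continuous.matrix_mulVec Units.continuous_val continuous_const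

instance : IsTopologicalGroup PGL(4, ℝ) :=
  QuotientGroup.instIsTopologicalGroup (Subgroup.center (GL (Fin 4) ℝ))

theorem isOpenMap_mk : IsOpenMap (ProjGenLinGroup.mk : GL (Fin 4) ℝ → PGL(4, ℝ)) :=
  QuotientGroup.isOpenMap_coe (N := Subgroup.center (GL (Fin 4) ℝ))

theorem mem_chart {φ : V4 →ₗ[ℝ] ℝ} {S : Set P4} {v : V4} : v ∈ chart φ S ↔ φ v = 1 ∧ pr v ∈ S := by
  unfold chart
  simp only [mem_ofPred_eq]
  constructor
  · rintro ⟨h1, hv, h2⟩
    exact ⟨h1, by rwa [pr_eq hv]⟩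
  · rintro ⟨h1, h2⟩
    have hv : v ≠ 0 := by
      rintro rfl
      simp at h1
    exact ⟨h1, hv, by rwa [pr_eq hv] at h2⟩

theorem chart_image {φ : V4 →ₗ[ℝ] ℝ} {W : Set V4} (hφ : ∀ v ∈ W, 0 < φ v)
    (hs : ∀ v ∈ W, ∀ t : ℝ, 0 < t → t • v ∈ W) : chart φ (pr '' W) = {v | φ v = 1} ∩ W := by
  ext v
  rw [mem_chart]
  simp only [mem_image, mem_inter_iff, mem_ofPred_eq]
  constructor
  · rintro ⟨h1, w, hw, h2⟩
    refine ⟨h1, ?_⟩
    have hv : v ≠ 0 := by
      rintro rfl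
      simp at h1
    have hw0 : w ≠ 0 := by
      rintro rfl
      simpa using hφ _ hw
    obtain ⟨a, ha⟩ := (pr_eq_iff hv hw0).1 h2.symm
    have h3 : a * φ w = 1 := by rw [← h1, ← ha, map_smul, smul_eq_mul]
    have h4 : 0 < a := by
      have := hφ w hw
      by_contra h
      push Not at h
      nlinarith
    rw [← ha]
    exact hs w hw a h4
  · rintro ⟨h1, h2⟩
    exact ⟨h1, v, h2, rfl⟩

theorem convex_chart_image {φ : V4 →ₗ[ℝ] ℝ} {W : Set V4} (hφ : ∀ v ∈ W, 0 < φ v)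
    (hs : ∀ v ∈ W, ∀ t : ℝ, 0 < t → t • v ∈ W) (hc : Convex ℝ W) :
    Convex ℝ (chart φ (pr '' W)) := by
  rw [chart_image hφ hs]
  exact (convex_hyperplane φ.isLinear 1).inter hc

theorem compactQuotient_of {Γ : Subgroup PGL(4, ℝ)} {C K : Set P4} (hK : IsCompact K) (hKC : K ⊆ C)
    (h : ∀ x ∈ C, ∃ g ∈ Γ, g • x ∈ K) : CompactQuotient Γ C := by
  constructor
  have h1 : IsCompact ((Subtype.val : C → P4) ⁻¹' K) := by
    rw [Topology.IsEmbedding.subtypeVal.isCompact_iff, Subtype.image_preimage_coe,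
      inter_eq_right.2 hKC]
    exact hK
  have h2 := h1.image (continuous_quotient_mk' (s :=
    (MulAction.orbitRel Γ P4).comap (Subtype.val : C → _)))
  convert h2 using 1
  symm
  apply eq_univ_of_forall
  intro q
  induction q using Quotient.ind with
  | _ x =>
    obtain ⟨g, hg, hgx⟩ := h x.1 x.2
    refine ⟨⟨g • x.1, hKC hgx⟩, hgx, ?_⟩
    apply Quotient.sound
    exact ⟨⟨g, hg⟩, rfl⟩

theorem exists_max_of_compactQuotient {Γ : Subgroup PGL(4, ℝ)} {C : Set P4}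
    (h : CompactQuotient Γ C) (hne : C.Nonempty) {f : P4 → ℝ} (hf : ContinuousOn f C)
    (hinv : ∀ g ∈ Γ, ∀ x ∈ C, f (g • x) = f x) : ∃ x ∈ C, ∀ y ∈ C, f y ≤ f x := by
  unfold CompactQuotient at h
  let F : Quotient ((MulAction.orbitRel Γ P4).comap (Subtype.val : C → _)) → ℝ :=
    Quotient.lift (fun x : C => f x.1) (by
      rintro x y ⟨⟨g, hg⟩, hxy⟩
      have : g • y.1 = x.1 := hxy
      show f x.1 = f y.1
      rw [← this, hinv g hg _ y.2])
  have hF : Continuous F := (continuousOn_iff_continuous_domRestrict.1 hf).quotient_lift _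
  obtain ⟨x0, hx0⟩ := hne
  obtain ⟨q, -, hq⟩ := isCompact_univ.exists_isMaxOn ⟨Quotient.mk _ ⟨x0, hx0⟩, mem_univ _⟩
    hF.continuousOn
  induction q using Quotient.ind with
  | _ x =>
    refine ⟨x.1, x.2, fun y hy => ?_⟩
    have h1 : F (Quotient.mk _ ⟨y, hy⟩) ≤ F (Quotient.mk _ x) := hq (mem_univ _)
    exact h1

end Pool.Agent.P.MP_7d68c1_gt
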