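import Pool.Agent.P.MP_7d68c1_gt.Model

open scoped LinearAlgebra.Projectivization MatrixGroups Topology
open Matrix Filter Set DihedralGroup

namespace Pool.Agent.P.MP_7d68c1_gt

theorem accPt_of_seq {X : Type} [TopologicalSpace X] {S : Set X} {y : X} {u : ℕ → X}
    (h1 : ∀ n, u n ∈ S) (h2 : ∀ n, u n ≠ y) (h3 : Tendsto u atTop (𝓝 y)) : AccPt y (𝓟 S) := by
  rw [accPt_iff_frequently]
  exact h3.frequently (Frequently.of_forall fun n => ⟨h2 n, h1 n⟩)

theorem eq_of_accPt_range {X : Type} [TopologicalSpace X] [T2Space X] {y e : X} {u : ℕ → X}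
    (h3 : Tendsto u atTop (𝓝 e)) (h : AccPt y (𝓟 (range u))) : y = e := by
  by_contra hne
  obtain ⟨U, U', hU, hU', hy, he, hd⟩ := t2_separation hne
  have h4 := (h.nhds_inter (hU.mem_nhds hy))
  apply Set.Infinite.of_accPt h4
  have h5 : ∀ᶠ n in cofinite, u n ∈ U' := by
    rw [Nat.cofinite_eq_atTop]
    exact h3.eventually (hU'.mem_nhds he)
  refine ((eventually_cofinite.1 h5).image u).subset ?_
  rintro _ ⟨hx, n, rfl⟩
  exact ⟨n, fun h6 => Set.disjoint_left.1 hd hx h6, rfl⟩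

theorem dg_neg (a c : ℝ) (i : ℤ) (y : V4) : dg a c (-i) y = sw (dg a c i (sw y)) := by
  apply ext4 <;> simp

theorem sw_smul (t : ℝ) (y : V4) : sw (t • y) = t • sw y := by
  apply ext4 <;> simp

theorem tendsto_dg {a c : ℝ} (hc : 1 ≤ c) (hca : c < a) (w : V4) :
    Tendsto (fun n : ℕ => (a ^ n)⁻¹ • dg a c n w) atTop (𝓝 ![w 0, 0, 0, 0]) := by
  have ha : 1 < a := by linarith
  have ha0 : 0 < a := by linarith
  have hc0 : 0 < c := by linarith
  have key : ∀ μ u : ℝ, |μ| < 1 → Tendsto (fun n : ℕ => μ ^ n * u) atTop (𝓝 0) := by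
    intro μ u h
    simpa using (tendsto_pow_atTop_nhds_zero_of_abs_lt_one h).mul_const u
  rw [tendsto_pi_nhds]
  intro k
  fin_cases k
  · refine tendsto_const_nhds.congr fun n => ?_
    have : a ^ n ≠ 0 := by positivity
    simp only [Fin.zero_eta, cons_val_zero, Pi.smul_apply, dg0, zpow_natCast, smul_eq_mul]
    field_simp
  · refine (key (a⁻¹ * a⁻¹) (w 1) ?_).congr fun n => ?_
    · rw [abs_of_pos (by positivity), ← mul_inv]
      exact inv_lt_one_of_one_lt₀ (by nlinarith)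
    · simp [mul_pow, mul_assoc]
  · refine (key (a⁻¹ * (-c)) (w 2) ?_).congr fun n => ?_
    · rw [abs_mul, abs_neg, abs_of_pos hc0, abs_of_pos (by positivity), inv_mul_lt_iff₀ ha0]
      linarith
    · simp only [mul_pow, mul_assoc, inv_pow]
      rfl
  · refine (key (a⁻¹ * (-c)⁻¹) (w 3) ?_).congr fun n => ?_
    · rw [← mul_inv, abs_inv, abs_mul, abs_neg, abs_of_pos hc0, abs_of_pos ha0]
      exact inv_lt_one_of_one_lt₀ (by nlinarith)
    · simp only [mul_pow, mul_assoc, inv_pow]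
      show _ = (a ^ n)⁻¹ * ((-c) ^ (-(n : ℤ)) * w 3)
      rw [_root_.zpow_neg, zpow_natCast]

variable {L : V4 ≃ₗ[ℝ] V4} {a c : ℝ} {ψ : DihedralGroup 0 →* PGL(4, ℝ)}

theorem e0_ne : (![1, 0, 0, 0] : V4) ≠ 0 := fun h => by simpa using congrFun h 0
theorem e1_ne : (![0, 1, 0, 0] : V4) ≠ 0 := fun h => by simpa using congrFun h 1

theorem tendsto_pr_dg (L : V4 ≃ₗ[ℝ] V4) (hc : 1 ≤ c) (hca : c < a) {w : V4} (hw : w 0 ≠ 0) :
    Tendsto (fun n : ℕ => pr (L (dg a c n w))) atTop (𝓝 (pr (L ![1, 0, 0, 0]))) ∧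
    Tendsto (fun n : ℕ => pr (L (sw (dg a c n w)))) atTop (𝓝 (pr (L ![0, 1, 0, 0]))) := by
  have ha0 : a ≠ 0 := by linarith
  have hc0 : c ≠ 0 := by linarith
  have hw' : w ≠ 0 := fun h => hw (by rw [h]; rfl)
  have h := tendsto_dg hc hca w
  have e0 : (![w 0, 0, 0, 0] : V4) = w 0 • ![1, 0, 0, 0] := by apply ext4 <;> simp
  have e1 : sw ![w 0, 0, 0, 0] = w 0 • ![0, 1, 0, 0] := by apply ext4 <;> simp
  constructor
  · have h1 := ((continuous_L L).tendsto _).comp h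
    rw [e0, map_smul] at h1
    have h2 := (continuousAt_pr (smul_ne_zero hw (L_ne_zero L e0_ne))).tendsto.comp h1
    rw [pr_smul (L_ne_zero L e0_ne) hw] at h2
    refine h2.congr fun n => ?_
    simp only [Function.comp_apply, map_smul]
    exact pr_smul (L_ne_zero L (dg_ne_zero ha0 hc0 _ hw')) (inv_ne_zero (pow_ne_zero _ ha0))
  · have h1 := ((continuous_L L).tendsto _).comp ((continuous_sw.tendsto _).comp h)
    rw [e1, map_smul] at h1
    have h2 := (continuousAt_pr (smul_ne_zero hw (L_ne_zero L e1_ne))).tendsto.comp h1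
    rw [pr_smul (L_ne_zero L e1_ne) hw] at h2
    refine h2.congr fun n => ?_
    simp only [Function.comp_apply, map_smul, sw_smul]
    exact pr_smul (L_ne_zero L (sw_ne_zero (dg_ne_zero ha0 hc0 _ hw')))
      (inv_ne_zero (pow_ne_zero _ ha0))

theorem mem_orbit_range {x y : P4} : y ∈ MulAction.orbit ψ.range x ↔ ∃ d, ψ d • x = y := by
  constructor
  · rintro ⟨⟨_, d, rfl⟩, h⟩
    exact ⟨d, h⟩
  · rintro ⟨d, h⟩
    exact ⟨⟨_, d, rfl⟩, h⟩

theorem pr_L_eq {y z : V4} (hy : y ≠ 0) (hz : z ≠ 0) (h : pr (L y) = pr (L z)) :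
    ∃ t : ℝ, t • z = y := by
  obtain ⟨t, ht⟩ := (pr_eq_iff (L_ne_zero L hy) (L_ne_zero L hz)).1 h
  exact ⟨t, L.injective (by rw [map_smul, ht])⟩

theorem Std.limitSet (h : Std L a c ψ) (hca : c < a) :
    orbitalLimitSet ψ.range (Om L a c) = {pr (L ![1, 0, 0, 0]), pr (L ![0, 1, 0, 0])} := by
  have ha0 : 0 < a := by linarith [h.ha]
  have hc0 : c ≠ 0 := by linarith [h.hc]
  ext x
  constructor
  · rintro ⟨_, ⟨_, ⟨z, hz, rfl⟩, rfl⟩, hx⟩
    obtain ⟨z0, z1, -⟩ := interior_subset hz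
    have hz0 := ne_zero_of_pos z0
    have t1 := tendsto_pr_dg L h.hc hca (w := z) z0.ne'
    have t2 := tendsto_pr_dg L h.hc hca (w := sw z) z1.ne'
    have hsub : MulAction.orbit ψ.range (pr (L z)) ⊆
        (range (fun n : ℕ => pr (L (dg a c n z))) ∪ range (fun n : ℕ => pr (L (dg a c n (sw z))))) ∪
        (range (fun n : ℕ => pr (L (sw (dg a c n z)))) ∪
          range (fun n : ℕ => pr (L (sw (dg a c n (sw z)))))) := by
      intro y hy
      obtain ⟨d, rfl⟩ := mem_orbit_range.1 hy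
      rw [h.hact d z hz0]
      obtain ⟨i, rfl | rfl⟩ := dcases d <;> obtain ⟨n, rfl | rfl⟩ := i.eq_nat_or_neg
      · exact Or.inl (Or.inl ⟨n, rfl⟩)
      · exact Or.inr (Or.inr ⟨n, by rw [act_rr, dg_neg]⟩)
      · exact Or.inr (Or.inl ⟨n, rfl⟩)
      · exact Or.inl (Or.inr ⟨n, by rw [act_ss, dg_neg, sw_sw]⟩)
    have h1 := hx.mono (principal_mono.2 hsub)
    simp only [← sup_principal, accPt_sup] at h1
    rcases h1 with (h1 | h1) | (h1 | h1)
    · exact Or.inl (eq_of_accPt_range t1.1 h1)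
    · exact Or.inl (eq_of_accPt_range t2.1 h1)
    · exact Or.inr (eq_of_accPt_range t1.2 h1)
    · exact Or.inr (eq_of_accPt_range t2.2 h1)
  · have hz : (![1, 1, 0, 0] : V4) ∈ Seg := ⟨by simp, by simp, by simp, by simp⟩
    have hz0 := ne_zero_of_pos hz.1
    have t1 := tendsto_pr_dg L h.hc hca (w := ![1, 1, 0, 0]) hz.1.ne'
    rintro (rfl | rfl)
    · refine ⟨_, h.cs_subset ⟨_, ⟨_, hz, rfl⟩, rfl⟩, accPt_of_seq (fun n => ?_) (fun n e => ?_) t1.1⟩
      · exact mem_orbit_range.2 ⟨rr n, h.hact _ _ hz0⟩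
      · obtain ⟨t, ht⟩ := pr_L_eq (dg_ne_zero ha0.ne' hc0 _ hz0) e0_ne e
        have := congrFun ht 1
        simp at this
        exact (pow_pos ha0 n).ne this
    · refine ⟨_, h.cs_subset ⟨_, ⟨_, hz, rfl⟩, rfl⟩, accPt_of_seq (fun n => ?_) (fun n e => ?_) t1.2⟩
      · exact mem_orbit_range.2 ⟨ss n, h.hact _ _ hz0⟩
      · obtain ⟨t, ht⟩ := pr_L_eq (sw_ne_zero (dg_ne_zero ha0.ne' hc0 _ hz0)) e1_ne e
        have := congrFun ht 0
        simp at this
        exact (pow_pos ha0 n).ne this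

theorem Std.core (h : Std L a c ψ) (hca : c < a) : convexCore ψ.range (ph L) (Om L a c) = Cs L := by
  have hch : chart (ph L) (orbitalLimitSet ψ.range (Om L a c)) =
      {L ![1, 0, 0, 0], L ![0, 1, 0, 0]} := by
    rw [h.limitSet hca]
    ext v
    rw [mem_chart]
    constructor
    · rintro ⟨h1, h2⟩
      have hv : v ≠ 0 := by
        rintro rfl
        simp at h1
      rcases h2 with h2 | h2
      · obtain ⟨t, rfl⟩ := (pr_eq_iff hv (L_ne_zero L e0_ne)).1 h2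
        have : t = 1 := by simpa using h1
        exact Or.inl (by rw [this, one_smul])
      · obtain ⟨t, rfl⟩ := (pr_eq_iff hv (L_ne_zero L e1_ne)).1 h2
        have : t = 1 := by simpa using h1
        exact Or.inr (by rw [this, one_smul]; rfl)
    · rintro (rfl | rfl)
      · exact ⟨by simp, Or.inl rfl⟩
      · exact ⟨by simp, Or.inr rfl⟩
  unfold convexCore
  rw [hch, convexHull_pair]
  have hcomb : ∀ s t : ℝ, s • L ![1, 0, 0, 0] + t • L ![0, 1, 0, 0] = L ![s, t, 0, 0] := by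
    intro s t
    rw [← map_smul, ← map_smul, ← map_add]
    congr 1
    apply ext4 <;> simp
  ext x
  constructor
  · rintro ⟨⟨_, ⟨z, hz, rfl⟩, rfl⟩, _, ⟨s, t, hs, ht, hst, rfl⟩, hv, e⟩
    obtain ⟨z0, z1, -⟩ := interior_subset hz
    rw [← pr_eq hv, hcomb] at e
    rw [hcomb] at hv
    obtain ⟨k, hk⟩ := pr_L_eq (L.map_ne_zero_iff.1 hv) (ne_zero_of_pos z0) e
    have k0 : k * z 0 = s := congrFun hk 0
    have k1 : k * z 1 = t := congrFun hk 1
    have hk0 : 0 < k := by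
      by_contra hk'
      push Not at hk'
      nlinarith
    refine ⟨_, ⟨![s, t, 0, 0], ⟨?_, ?_, by simp, by simp⟩, rfl⟩, e⟩
    · show 0 < s
      rw [← k0]; positivity
    · show 0 < t
      rw [← k1]; positivity
  · intro hx
    refine ⟨h.cs_subset hx, ?_⟩
    obtain ⟨_, ⟨y, ⟨y0, y1, y2, y3⟩, rfl⟩, rfl⟩ := hx
    have hp := add_pos y0 y1
    have e : L ![y 0 / (y 0 + y 1), y 1 / (y 0 + y 1), 0, 0] = (y 0 + y 1)⁻¹ • L y := by
      rw [← map_smul]
      congr 1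
      apply ext4 <;> simp [y2, y3, div_eq_inv_mul]
    have hy := L_ne_zero L (ne_zero_of_pos y0)
    refine ⟨(y 0 + y 1)⁻¹ • L y, ⟨y 0 / (y 0 + y 1), y 1 / (y 0 + y 1), by positivity, by positivity,
      by field_simp, by rw [hcomb, e]⟩, smul_ne_zero (inv_ne_zero hp.ne') hy, ?_⟩
    rw [← pr_eq, pr_smul hy (inv_ne_zero hp.ne')]

theorem Std.cc (h : Std L a c ψ) (hca : c < a) : CC ψ.range :=
  ⟨h.infinite, h.discrete, ph L, Om L a c, h.domain, by rw [h.core hca]; exact cs_nonempty L,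
    by rw [h.core hca]; exact h.cs_compact⟩

end Pool.Agent.P.MP_7d68c1_gt
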