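import Mathlib

open scoped LinearAlgebra.Projectivization MatrixGroups

namespace Pool.Agent.P.MP_7d68c1_gt

/-- The quotient topology on real projective space. -/
noncomputable instance topP (n : ℕ) : TopologicalSpace (ℙ ℝ (Fin n → ℝ)) :=
  TopologicalSpace.coinduced (Projectivization.mk' ℝ) inferInstance

/-- The quotient topology on the projective linear group. -/
noncomputable instance topPGL (n : ℕ) : TopologicalSpace PGL(n, ℝ) :=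
  TopologicalSpace.coinduced Matrix.ProjGenLinGroup.mk inferInstance

/-- The set S read in the affine chart of the linear form φ, identified with the hyperplane φ = 1. -/
def chart {n : ℕ} (φ : (Fin n → ℝ) →ₗ[ℝ] ℝ) (S : Set (ℙ ℝ (Fin n → ℝ))) : Set (Fin n → ℝ) :=
  {v | φ v = 1 ∧ ∃ hv : v ≠ 0, Projectivization.mk ℝ v hv ∈ S}

/-- Ω is a nonempty open Γ-invariant set whose closure lies in the affine chart of φ and which is
convex in that chart. -/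
def InvariantDomain {n : ℕ} (Γ : Subgroup PGL(n, ℝ)) (φ : (Fin n → ℝ) →ₗ[ℝ] ℝ)
    (Ω : Set (ℙ ℝ (Fin n → ℝ))) : Prop :=
  Ω.Nonempty ∧ IsOpen Ω ∧ (∀ x ∈ closure Ω, φ x.rep ≠ 0) ∧ Convex ℝ (chart φ Ω) ∧
    ∀ g ∈ Γ, ∀ x ∈ Ω, g • x ∈ Ω

/-- The quotient of C by the orbit relation of Γ is compact in the quotient topology. -/
def CompactQuotient {n : ℕ} (Γ : Subgroup PGL(n, ℝ)) (C : Set (ℙ ℝ (Fin n → ℝ))) : Prop :=
  CompactSpace (Quotient ((MulAction.orbitRel Γ (ℙ ℝ (Fin n → ℝ))).comap (Subtype.val : C → _)))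

/-- Naive convex cocompactness. -/
def NaiveCC {n : ℕ} (Γ : Subgroup PGL(n, ℝ)) : Prop :=
  Infinite Γ ∧ DiscreteTopology Γ ∧
    ∃ (φ : (Fin n → ℝ) →ₗ[ℝ] ℝ) (Ω C : Set (ℙ ℝ (Fin n → ℝ))), InvariantDomain Γ φ Ω ∧
      C.Nonempty ∧ C ⊆ Ω ∧ IsClosed (Subtype.val ⁻¹' C : Set Ω) ∧ Convex ℝ (chart φ C) ∧
      (∀ g ∈ Γ, ∀ x ∈ C, g • x ∈ C) ∧ CompactQuotient Γ C

/-- The full orbital limit set. -/
def orbitalLimitSet {n : ℕ} (Γ : Subgroup PGL(n, ℝ)) (Ω : Set (ℙ ℝ (Fin n → ℝ))) :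
    Set (ℙ ℝ (Fin n → ℝ)) :=
  {y | ∃ x ∈ Ω, AccPt y (Filter.principal (MulAction.orbit Γ x))}

/-- The convex hull in Ω of the full orbital limit set, taken in the chart of φ. -/
def convexCore {n : ℕ} (Γ : Subgroup PGL(n, ℝ)) (φ : (Fin n → ℝ) →ₗ[ℝ] ℝ)
    (Ω : Set (ℙ ℝ (Fin n → ℝ))) : Set (ℙ ℝ (Fin n → ℝ)) :=
  {x | x ∈ Ω ∧ ∃ v ∈ convexHull ℝ (chart φ (orbitalLimitSet Γ Ω)),
    ∃ hv : v ≠ 0, Projectivization.mk ℝ v hv = x}

/-- Convex cocompactness. -/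
def CC {n : ℕ} (Γ : Subgroup PGL(n, ℝ)) : Prop :=
  Infinite Γ ∧ DiscreteTopology Γ ∧
    ∃ (φ : (Fin n → ℝ) →ₗ[ℝ] ℝ) (Ω : Set (ℙ ℝ (Fin n → ℝ))), InvariantDomain Γ φ Ω ∧
      (convexCore Γ φ Ω).Nonempty ∧ CompactQuotient Γ (convexCore Γ φ Ω)

end Pool.Agent.P.MP_7d68c1_gt
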