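import Pool.Agent.P.MP_7d68c1_gt.NotCC

open scoped LinearAlgebra.Projectivization MatrixGroups Topology
open Matrix Filter Set DihedralGroup

namespace Pool.Agent.P.MP_7d68c1_gt

abbrev M4 := Matrix (Fin 4) (Fin 4) ℝ

theorem exists_eigen {G : M4} {m : ℝ} (hm : 0 < m) (h : (m • (1 : M4) - G).det < 0) :
    ∃ a : ℝ, 1 < a ∧ ∃ v : V4, v ≠ 0 ∧ G *ᵥ v = (m * a) • v := by
  have hc : Continuous fun u : ℝ => (m • (1 : M4) - u • G).det :=
    Continuous.matrix_det (by fun_prop)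
  have h0 : 0 < (m • (1 : M4) - (0 : ℝ) • G).det := by
    rw [zero_smul, sub_zero, det_smul, det_one]
    positivity
  have h1 : (m • (1 : M4) - (1 : ℝ) • G).det < 0 := by rwa [one_smul]
  obtain ⟨u, hu, hu0⟩ := intermediate_value_Ioo' (zero_le_one' ℝ) hc.continuousOn ⟨h1, h0⟩
  obtain ⟨v, hv, hv0⟩ := Matrix.exists_mulVec_eq_zero_iff.2 hu0
  refine ⟨u⁻¹, (one_lt_inv₀ hu.1).2 hu.2, v, hv, ?_⟩
  rw [sub_mulVec, smul_mulVec, one_mulVec, smul_mulVec, sub_eq_zero] at hv0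
  rw [mul_comm, mul_smul, hv0, smul_smul, inv_mul_cancel₀ hu.1.ne', one_smul]

/-- the open set of pairs of matrices -/
def Good (S T : M4) : Prop :=
  0 < (S * S).trace ∧ 0 < (T * T).trace ∧
    ((√((S * S).trace / 4 * ((T * T).trace / 4))) • (1 : M4) - S * T).det < 0 ∧
    ((√((S * S).trace / 4 * ((T * T).trace / 4))) • (1 : M4) - -(S * T)).det < 0

theorem isOpen_good : IsOpen {p : GL (Fin 4) ℝ × GL (Fin 4) ℝ | Good p.1 p.2} := by
  have h1 : Continuous fun p : GL (Fin 4) ℝ × GL (Fin 4) ℝ => (p.1 : M4) :=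
    Units.continuous_val.comp continuous_fst
  have h2 : Continuous fun p : GL (Fin 4) ℝ × GL (Fin 4) ℝ => (p.2 : M4) :=
    Units.continuous_val.comp continuous_snd
  have t1 := (h1.mul h1).matrix_trace
  have t2 := (h2.mul h2).matrix_trace
  have hm := ((t1.div_const 4).mul (t2.div_const 4)).sqrt.smul (continuous_const (y := (1 : M4)))
  exact (isOpen_lt continuous_const t1).inter ((isOpen_lt continuous_const t2).inter
    ((isOpen_lt (hm.sub (h1.mul h2)).matrix_det continuous_const).inter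
      (isOpen_lt (hm.sub (h1.mul h2).neg).matrix_det continuous_const)))

theorem sq_scalar {S : GL (Fin 4) ℝ} (h : (ProjGenLinGroup.mk (S * S) : PGL(4, ℝ)) = 1) :
    (S : M4) * S = (((S : M4) * S).trace / 4) • (1 : M4) := by
  rw [ProjGenLinGroup.mk_eq_one, GeneralLinearGroup.center_eq_range_scalar] at h
  obtain ⟨u, hu⟩ := h
  have h1 : (S : M4) * S = (u : ℝ) • (1 : M4) := by
    rw [← Units.val_mul, ← hu]
    simp [GeneralLinearGroup.coe_scalar, smul_one_eq_diagonal]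
  rw [h1]
  congr 1
  simp

theorem normal_form {S T : M4} {σ τ : ℝ} (hσ : 0 < σ) (hτ : 0 < τ) (hS : S * S = σ • (1 : M4))
    (hT : T * T = τ • (1 : M4)) (h1 : (√(σ * τ) • (1 : M4) - S * T).det < 0)
    (h2 : (√(σ * τ) • (1 : M4) - -(S * T)).det < 0) :
    ∃ (L : V4 ≃ₗ[ℝ] V4) (a c : ℝ), 1 < a ∧ 1 < c ∧
      (∀ y, (S * T) *ᵥ L y = √(σ * τ) • L (dg a c 1 y)) ∧ ∀ y, S *ᵥ L y = √σ • L (sw y) := by
  set m := √(σ * τ) with hmdef
  have hm : 0 < m := Real.sqrt_pos.2 (mul_pos hσ hτ)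
  have hm2 : m * m = σ * τ := Real.mul_self_sqrt (mul_pos hσ hτ).le
  set s := √σ with hsdef
  have hs : 0 < s := Real.sqrt_pos.2 hσ
  have hs2 : s * s = σ := Real.mul_self_sqrt hσ.le
  obtain ⟨a, ha, v, hv, hav⟩ := exists_eigen hm h1
  obtain ⟨c, hc, w, hw, hcw⟩ := exists_eigen hm h2
  have hcw' : (S * T) *ᵥ w = (m * -c) • w := by
    rw [neg_mulVec, neg_eq_iff_eq_neg] at hcw
    rw [hcw, mul_neg, neg_smul]
  have hSS : ∀ x : V4, S *ᵥ S *ᵥ x = σ • x := fun x => by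
    rw [mulVec_mulVec, hS, smul_mulVec, one_mulVec]
  have hflip : ∀ (x : V4) (l : ℝ), l ≠ 0 → (S * T) *ᵥ x = (m * l) • x →
      (S * T) *ᵥ (s⁻¹ • S *ᵥ x) = (m * l⁻¹) • (s⁻¹ • S *ᵥ x) := by
    intro x l hl hx
    have e : (S * T) * S * (S * T) = (σ * τ) • S := by
      calc (S * T) * S * (S * T) = S * (T * ((S * S) * T)) := by simp only [mul_assoc]
        _ = (σ * τ) • S := by
          rw [hS, smul_mul_assoc, one_mul, mul_smul_comm, hT, smul_smul, mul_smul_comm, mul_one]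
    have e2 := congrArg (fun A : M4 => A *ᵥ x) e
    simp only [← mulVec_mulVec _ (S * T * S), hx, mulVec_smul, smul_mulVec] at e2
    rw [← mulVec_mulVec] at e2
    have e3 : (S * T) *ᵥ S *ᵥ x = (m * l⁻¹) • S *ᵥ x := by
      have hml : m * l ≠ 0 := mul_ne_zero hm.ne' hl
      apply smul_right_injective _ hml
      simp only
      rw [e2, smul_smul, ← hm2]
      congr 1
      field_simp
    rw [mulVec_smul, e3, smul_comm]
  have hne : ∀ x : V4, x ≠ 0 → s⁻¹ • S *ᵥ x ≠ 0 := by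
    intro x hx
    refine smul_ne_zero (inv_ne_zero hs.ne') fun h => ?_
    have := hSS x
    rw [h, mulVec_zero] at this
    exact smul_ne_zero hσ.ne' hx this.symm
  let b : Fin 4 → V4 := ![v, s⁻¹ • S *ᵥ v, w, s⁻¹ • S *ᵥ w]
  let μ : Fin 4 → ℝ := ![m * a, m * a⁻¹, m * -c, m * (-c)⁻¹]
  have ha0 : 0 < a := by linarith
  have hc0 : 0 < c := by linarith
  have hb : ∀ i, (S * T) *ᵥ b i = μ i • b i := by
    intro i
    fin_cases i
    · exact hav
    · exact hflip v a ha0.ne' hav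
    · exact hcw'
    · exact hflip w (-c) (neg_ne_zero.2 hc0.ne') hcw'
  have hb0 : ∀ i, b i ≠ 0 := by
    intro i
    fin_cases i
    exacts [hv, hne v hv, hw, hne w hw]
  have hμ : StrictAnti (![m * a, m * a⁻¹, m * (-c)⁻¹, m * -c] : Fin 4 → ℝ) := by
    have i1 : a⁻¹ < 1 := inv_lt_one_of_one_lt₀ ha
    have i2 : c⁻¹ < 1 := inv_lt_one_of_one_lt₀ hc
    have i3 : 0 < a⁻¹ := inv_pos.2 ha0
    have i4 : 0 < c⁻¹ := inv_pos.2 hc0
    rw [Fin.strictAnti_iff_succ_lt]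
    intro i
    fin_cases i
    · show m * a⁻¹ < m * a
      exact mul_lt_mul_of_pos_left (by linarith) hm
    · show m * (-c)⁻¹ < m * a⁻¹
      rw [inv_neg]
      exact mul_lt_mul_of_pos_left (by linarith) hm
    · show m * -c < m * (-c)⁻¹
      rw [inv_neg]
      exact mul_lt_mul_of_pos_left (by linarith) hm
  have hμ' : Function.Injective μ := by
    have : μ = (![m * a, m * a⁻¹, m * (-c)⁻¹, m * -c] : Fin 4 → ℝ) ∘ Equiv.swap (2 : Fin 4) 3 := by
      apply ext4 <;> rfl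
    rw [this]
    exact hμ.injective.comp (Equiv.injective _)
  have hli : LinearIndependent ℝ b :=
    Module.End.eigenvectors_linearIndependent' (Matrix.toLin' (S * T)) μ hμ' b fun i =>
      ⟨Module.End.mem_eigenspace_iff.2 (by rw [Matrix.toLin'_apply, hb]), hb0 i⟩
  let B := basisOfLinearIndependentOfCardEqFinrank hli (by simp)
  have hL : ∀ y : V4, B.equivFun.symm y = y 0 • b 0 + y 1 • b 1 + y 2 • b 2 + y 3 • b 3 := by
    intro y
    rw [Module.Basis.equivFun_symm_apply, Fin.sum_univ_four]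
    simp only [B, coe_basisOfLinearIndependentOfCardEqFinrank]
  refine ⟨B.equivFun.symm, a, c, ha, hc, fun y => ?_, fun y => ?_⟩
  · rw [hL, hL]
    simp only [mulVec_add, mulVec_smul, hb, dg0, dg1, dg2, dg3, smul_add, smul_smul, zpow_one,
      _root_.zpow_neg]
    have m0 : μ 0 = m * a := rfl
    have m1 : μ 1 = m * a⁻¹ := rfl
    have m2 : μ 2 = m * -c := rfl
    have m3 : μ 3 = m * (-c)⁻¹ := rfl
    rw [m0, m1, m2, m3]
    module
  · have k1 : ∀ x : V4, S *ᵥ x = s • (s⁻¹ • S *ᵥ x) := fun x => by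
      rw [smul_smul, mul_inv_cancel₀ hs.ne', one_smul]
    have k2 : ∀ x : V4, S *ᵥ (s⁻¹ • S *ᵥ x) = s • x := fun x => by
      rw [mulVec_smul, hSS, smul_smul, ← hs2]
      congr 1
      field_simp
    have s0 : S *ᵥ b 0 = s • b 1 := k1 v
    have s1 : S *ᵥ b 1 = s • b 0 := k2 v
    have s2 : S *ᵥ b 2 = s • b 3 := k1 w
    have s3 : S *ᵥ b 3 = s • b 2 := k2 w
    rw [hL, hL]
    simp only [mulVec_add, mulVec_smul, s0, s1, s2, s3, sw0, sw1, sw2, sw3]
    module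

theorem std_of_good {ψ : DihedralGroup 0 →* PGL(4, ℝ)} {S T : GL (Fin 4) ℝ}
    (hS : ψ (ss 0) = ProjGenLinGroup.mk S) (hT : ψ (ss 1) = ProjGenLinGroup.mk T)
    (h : Good S T) : ∃ L a c, Std L a c ψ := by
  obtain ⟨g1, g2, g3, g4⟩ := h
  have hσ : 0 < ((S : M4) * S).trace / 4 := by positivity
  have hτ : 0 < ((T : M4) * T).trace / 4 := by positivity
  obtain ⟨L, a, c, ha, hc, h1, h2⟩ := normal_form hσ hτ
    (sq_scalar (by rw [map_mul, ← hS, ← map_mul, ss_mul_ss, sub_self, rr_zero, map_one]))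
    (sq_scalar (by rw [map_mul, ← hT, ← map_mul, ss_mul_ss, sub_self, rr_zero, map_one])) g3 g4
  have ha0 : a ≠ 0 := by linarith
  have hc0 : c ≠ 0 := by linarith
  have hr : ∀ y, y ≠ 0 → ψ (rr 1) • pr (L y) = pr (L (dg a c 1 y)) := by
    intro y hy
    have e : ψ (rr 1) = ProjGenLinGroup.mk (S * T) := by
      rw [map_mul, ← hS, ← hT, ← map_mul, ss_mul_ss, sub_zero]
    rw [e, mk_smul_pr _ (L_ne_zero L hy), Units.val_mul, h1,
      pr_smul (L_ne_zero L (dg_ne_zero ha0 hc0 _ hy)) (Real.sqrt_pos.2 (mul_pos hσ hτ)).ne']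
  have hs : ∀ y, y ≠ 0 → ψ (ss 0) • pr (L y) = pr (L (sw y)) := by
    intro y hy
    rw [hS, mk_smul_pr _ (L_ne_zero L hy), h2,
      pr_smul (L_ne_zero L (sw_ne_zero hy)) (Real.sqrt_pos.2 hσ).ne']
  rcases le_total c a with hca | hca
  · exact ⟨L, a, c, std_of ha hc.le hca hr hs⟩
  · exact ⟨_, c, a, std_of hc ha.le hca (swap_r ha0 hc0 hr) (swap_s hs)⟩

/-- the homomorphism from the infinite dihedral group given by a reflection and a rotation -/
def dih {G : Type} [Group G] (s g : G) (hs : s * s = 1) (hg : s * g * s = g⁻¹) :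
    DihedralGroup 0 →* G :=
  MonoidHom.mk' (fun d => match d with
    | r i => g ^ (show ℤ from i)
    | sr i => s * g ^ (show ℤ from i)) (by
    have hs' : s⁻¹ = s := inv_eq_of_mul_eq_one_right hs
    have key : ∀ i : ℤ, g ^ i * s = s * g ^ (-i) := by
      intro i
      have h1 : s * g⁻¹ * s⁻¹ = g := by
        rw [← hg, hs']
        calc s * (s * g * s) * s = (s * s) * g * (s * s) := by simp only [mul_assoc]
          _ = g := by rw [hs, one_mul, mul_one]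
      calc g ^ i * s = (s * g⁻¹ * s⁻¹) ^ i * s := by rw [h1]
        _ = s * g ^ (-i) := by
          rw [conj_zpow, _root_.inv_zpow', inv_mul_cancel_right]
    intro d e
    obtain ⟨i, rfl | rfl⟩ := dcases d <;> obtain ⟨j, rfl | rfl⟩ := dcases e
    · show g ^ (i + j) = g ^ i * g ^ j
      rw [_root_.zpow_add]
    · show s * g ^ (j - i) = g ^ i * (s * g ^ j)
      rw [← mul_assoc, key, mul_assoc, ← _root_.zpow_add, neg_add_eq_sub]
    · show s * g ^ (i + j) = s * g ^ i * g ^ j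
      rw [_root_.zpow_add, mul_assoc]
    · show g ^ (j - i) = s * g ^ i * (s * g ^ j)
      rw [mul_assoc, ← mul_assoc (g ^ i), key, ← mul_assoc, ← mul_assoc, hs, one_mul,
        ← _root_.zpow_add, neg_add_eq_sub])

theorem dih_rr {G : Type} [Group G] (s g : G) (hs : s * s = 1) (hg : s * g * s = g⁻¹) (i : ℤ) :
    dih s g hs hg (rr i) = g ^ i := rfl

theorem dih_ss {G : Type} [Group G] (s g : G) (hs : s * s = 1) (hg : s * g * s = g⁻¹) (i : ℤ) :
    dih s g hs hg (ss i) = s * g ^ i := rfl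

def Sm : M4 := !![0, 1, 0, 0; 1, 0, 0, 0; 0, 0, 0, 1; 0, 0, 1, 0]

noncomputable def Gm (a c : ℝ) : M4 := !![a, 0, 0, 0; 0, a⁻¹, 0, 0; 0, 0, -c, 0; 0, 0, 0, -c⁻¹]

theorem Sm_sq : Sm * Sm = 1 := by
  ext i j
  fin_cases i <;> fin_cases j <;> simp [Sm, Matrix.mul_apply, Fin.sum_univ_four]

theorem Gm_inv {a c : ℝ} (ha : a ≠ 0) (hc : c ≠ 0) : Gm a c * Gm a⁻¹ c⁻¹ = 1 := by
  ext i j
  fin_cases i <;> fin_cases j <;> simp [Gm, Matrix.mul_apply, Fin.sum_univ_four, ha, hc]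

theorem Gm_inv' {a c : ℝ} (ha : a ≠ 0) (hc : c ≠ 0) : Gm a⁻¹ c⁻¹ * Gm a c = 1 := by
  ext i j
  fin_cases i <;> fin_cases j <;> simp [Gm, Matrix.mul_apply, Fin.sum_univ_four, ha, hc]

theorem SGS (a c : ℝ) : Sm * Gm a c * Sm = Gm a⁻¹ c⁻¹ := by
  ext i j
  fin_cases i <;> fin_cases j <;> simp [Gm, Sm, Matrix.mul_apply, Fin.sum_univ_four]

def Sg : GL (Fin 4) ℝ := ⟨Sm, Sm, Sm_sq, Sm_sq⟩

noncomputable def Gg (a c : ℝ) (ha : a ≠ 0) (hc : c ≠ 0) : GL (Fin 4) ℝ :=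
  ⟨Gm a c, Gm a⁻¹ c⁻¹, Gm_inv ha hc, Gm_inv' ha hc⟩

noncomputable def rho (a c : ℝ) (ha : a ≠ 0) (hc : c ≠ 0) : DihedralGroup 0 →* PGL(4, ℝ) :=
  ProjGenLinGroup.mk.comp (dih Sg (Gg a c ha hc) (Units.ext Sm_sq) (Units.ext (SGS a c)))

theorem rho_ss0 (a c : ℝ) (ha : a ≠ 0) (hc : c ≠ 0) :
    rho a c ha hc (ss 0) = ProjGenLinGroup.mk Sg := by
  simp [rho, dih_ss]

theorem rho_ss1 (a c : ℝ) (ha : a ≠ 0) (hc : c ≠ 0) :
    rho a c ha hc (ss 1) = ProjGenLinGroup.mk (Sg * Gg a c ha hc) := by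
  simp [rho, dih_ss]

theorem rho_rr1 (a c : ℝ) (ha : a ≠ 0) (hc : c ≠ 0) :
    rho a c ha hc (rr 1) = ProjGenLinGroup.mk (Gg a c ha hc) := by
  simp [rho, dih_rr]

theorem rho_std {a c : ℝ} (ha : 1 < a) (hc : 1 ≤ c) (hca : c ≤ a) (ha0 : a ≠ 0) (hc0 : c ≠ 0) :
    Std (LinearEquiv.refl ℝ V4) a c (rho a c ha0 hc0) := by
  refine std_of ha hc hca (fun y hy => ?_) (fun y hy => ?_)
  · rw [rho_rr1, LinearEquiv.refl_apply, LinearEquiv.refl_apply, mk_smul_pr _ hy]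
    congr 1
    show Gm a c *ᵥ y = _
    apply ext4 <;> simp [Gm, mulVec, dotProduct, Fin.sum_univ_four, inv_neg]
  · rw [rho_ss0, LinearEquiv.refl_apply, LinearEquiv.refl_apply, mk_smul_pr _ hy]
    congr 1
    show Sm *ᵥ y = _
    apply ext4 <;> simp [Sm, mulVec, dotProduct, Fin.sum_univ_four]

theorem good_rho : Good Sm (Sm * Gm 2 2) := by
  have e1 : Sm * Gm 2 2 * (Sm * Gm 2 2) = 1 := by
    rw [← mul_assoc, SGS, Gm_inv' two_ne_zero two_ne_zero]
  have e2 : Sm * (Sm * Gm 2 2) = diagonal ![2, 2⁻¹, -2, -2⁻¹] := by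
    rw [← mul_assoc, Sm_sq, one_mul]
    ext i j
    fin_cases i <;> fin_cases j <;> simp [Gm]
  have e3 : √((1 : M4).trace / 4 * ((1 : M4).trace / 4)) = 1 := by simp
  unfold Good
  rw [Sm_sq, e1, e2, e3, one_smul, ← diagonal_one, diagonal_neg, diagonal_sub, diagonal_sub,
    det_diagonal, det_diagonal]
  refine ⟨by simp, by simp, ?_, ?_⟩ <;> simp [Fin.prod_univ_four] <;> norm_num

theorem main : ∃ Γ : Subgroup PGL(4, ℝ), CC Γ ∧
    ∃ (ρ : Γ →* PGL(4, ℝ)) (U : Set (Γ → PGL(4, ℝ))), IsOpen U ∧ ⇑ρ ∈ U ∧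
      (∀ ρ' : Γ →* PGL(4, ℝ), ⇑ρ' ∈ U → Function.Injective ρ' ∧ NaiveCC ρ'.range) ∧
      ¬ CC ρ.range := by
  have h1 : Std _ 2 1 (rho 2 1 two_ne_zero one_ne_zero) :=
    rho_std one_lt_two le_rfl one_le_two _ _
  have h0 : Std _ 2 2 (rho 2 2 two_ne_zero two_ne_zero) :=
    rho_std one_lt_two one_le_two le_rfl _ _
  let e := MonoidHom.ofInjective h1.injective
  have hrange : ∀ ρ' : (rho 2 1 two_ne_zero one_ne_zero).range →* PGL(4, ℝ),
      (ρ'.comp e.toMonoidHom).range = ρ'.range := by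
    intro ρ'
    ext x
    constructor
    · rintro ⟨d, rfl⟩
      exact ⟨e d, rfl⟩
    · rintro ⟨d, rfl⟩
      exact ⟨e.symm d, by simp⟩
  refine ⟨_, h1.cc one_lt_two, (rho 2 2 two_ne_zero two_ne_zero).comp e.symm.toMonoidHom,
    (fun f => (f (e (ss 0)), f (e (ss 1)))) ⁻¹'
      (Prod.map ProjGenLinGroup.mk ProjGenLinGroup.mk ''
        {p : GL (Fin 4) ℝ × GL (Fin 4) ℝ | Good p.1 p.2}), ?_, ?_, ?_, ?_⟩
  · exact ((isOpenMap_mk.prodMap isOpenMap_mk) _ isOpen_good).preimage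
      ((continuous_apply _).prodMk (continuous_apply _))
  · refine ⟨(Sg, Sg * Gg 2 2 two_ne_zero two_ne_zero), good_rho, ?_⟩
    simp [rho_ss0, rho_ss1]
  · rintro ρ' ⟨⟨S, T⟩, hST, h⟩
    obtain ⟨L, a, c, hstd⟩ := std_of_good (ψ := ρ'.comp e.toMonoidHom)
      (congrArg Prod.fst h).symm (congrArg Prod.snd h).symm hST
    refine ⟨?_, hrange ρ' ▸ hstd.naive⟩
    exact Function.Injective.of_comp_right (g := e) hstd.injective e.surjective
  · rw [← hrange]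
    have : ((rho 2 2 two_ne_zero two_ne_zero).comp e.symm.toMonoidHom).comp e.toMonoidHom =
        rho 2 2 two_ne_zero two_ne_zero := by
      ext d
      simp
    rw [this]
    exact h0.not_cc

end Pool.Agent.P.MP_7d68c1_gt
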