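import Pool.Agent.P.MP_7d68c1_gt.Basic

open scoped LinearAlgebra.Projectivization MatrixGroups Topology
open Matrix Filter Set DihedralGroup

namespace Pool.Agent.P.MP_7d68c1_gt

noncomputable def dg (a c : ℝ) (i : ℤ) (y : V4) : V4 :=
  ![a ^ i * y 0, a ^ (-i) * y 1, (-c) ^ i * y 2, (-c) ^ (-i) * y 3]

def sw (y : V4) : V4 := ![y 1, y 0, y 3, y 2]

@[simp] theorem dg0 (a c : ℝ) (i : ℤ) (y : V4) : dg a c i y 0 = a ^ i * y 0 := rfl
@[simp] theorem dg1 (a c : ℝ) (i : ℤ) (y : V4) : dg a c i y 1 = a ^ (-i) * y 1 := rfl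
@[simp] theorem dg2 (a c : ℝ) (i : ℤ) (y : V4) : dg a c i y 2 = (-c) ^ i * y 2 := rfl
@[simp] theorem dg3 (a c : ℝ) (i : ℤ) (y : V4) : dg a c i y 3 = (-c) ^ (-i) * y 3 := rfl
@[simp] theorem sw0 (y : V4) : sw y 0 = y 1 := rfl
@[simp] theorem sw1 (y : V4) : sw y 1 = y 0 := rfl
@[simp] theorem sw2 (y : V4) : sw y 2 = y 3 := rfl
@[simp] theorem sw3 (y : V4) : sw y 3 = y 2 := rfl

theorem ext4 {y z : V4} (h0 : y 0 = z 0) (h1 : y 1 = z 1) (h2 : y 2 = z 2) (h3 : y 3 = z 3) :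
    y = z := by
  funext k
  fin_cases k
  exacts [h0, h1, h2, h3]

theorem dg_dg {a c : ℝ} (ha : a ≠ 0) (hc : c ≠ 0) (i j : ℤ) (y : V4) :
    dg a c i (dg a c j y) = dg a c (i + j) y := by
  have hc' : -c ≠ 0 := neg_ne_zero.2 hc
  apply ext4 <;> simp only [dg0, dg1, dg2, dg3, neg_add, zpow_add₀ ha, zpow_add₀ hc', mul_assoc]

theorem dg_zero (a c : ℝ) (y : V4) : dg a c 0 y = y := by
  apply ext4 <;> simp

theorem sw_sw (y : V4) : sw (sw y) = y := by
  apply ext4 <;> simp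

theorem continuous_dg (a c : ℝ) (i : ℤ) : Continuous (dg a c i) := by
  refine continuous_pi fun k => ?_
  fin_cases k <;> simp <;> fun_prop

theorem continuous_sw : Continuous sw := by
  refine continuous_pi fun k => ?_
  fin_cases k <;> simp <;> fun_prop

theorem dg_ne_zero {a c : ℝ} (ha : a ≠ 0) (hc : c ≠ 0) (i : ℤ) {y : V4} (hy : y ≠ 0) :
    dg a c i y ≠ 0 := by
  intro h
  apply hy
  have := dg_dg ha hc (-i) i y
  rw [h, neg_add_cancel, dg_zero] at this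
  rw [← this]
  apply ext4 <;> simp

theorem sw_ne_zero {y : V4} (hy : y ≠ 0) : sw y ≠ 0 := by
  intro h
  apply hy
  rw [← sw_sw y, h]
  apply ext4 <;> simp

/-- the action of the infinite dihedral group in coordinates -/
noncomputable def act (a c : ℝ) : DihedralGroup 0 → V4 → V4
  | r i, y => dg a c i y
  | sr i, y => sw (dg a c i y)

def rr (i : ℤ) : DihedralGroup 0 := r i
def ss (i : ℤ) : DihedralGroup 0 := sr i

theorem rr_mul (i j : ℤ) : rr i * rr j = rr (i + j) := rfl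
theorem rr_zero : rr 0 = 1 := rfl
theorem ss_mul_rr (i j : ℤ) : ss i * rr j = ss (i + j) := rfl
theorem ss_mul_ss (i j : ℤ) : ss i * ss j = rr (j - i) := rfl
theorem rr_mul_ss (i j : ℤ) : rr i * ss j = ss (j - i) := rfl
theorem act_rr (a c : ℝ) (i : ℤ) (y : V4) : act a c (rr i) y = dg a c i y := rfl
theorem act_ss (a c : ℝ) (i : ℤ) (y : V4) : act a c (ss i) y = sw (dg a c i y) := rfl

theorem dcases (d : DihedralGroup 0) : ∃ i : ℤ, d = rr i ∨ d = ss i := by
  rcases d with i | i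
  · exact ⟨i, Or.inl rfl⟩
  · exact ⟨i, Or.inr rfl⟩

/-- ψ acts in the standard way in the coordinates L -/
structure Std (L : V4 ≃ₗ[ℝ] V4) (a c : ℝ) (ψ : DihedralGroup 0 →* PGL(4, ℝ)) : Prop where
  ha : 1 < a
  hc : 1 ≤ c
  hca : c ≤ a
  hact : ∀ d y, y ≠ 0 → ψ d • pr (L y) = pr (L (act a c d y))

theorem std_of {L : V4 ≃ₗ[ℝ] V4} {a c : ℝ} {ψ : DihedralGroup 0 →* PGL(4, ℝ)}
    (ha : 1 < a) (hc : 1 ≤ c) (hca : c ≤ a)
    (hr : ∀ y, y ≠ 0 → ψ (rr 1) • pr (L y) = pr (L (dg a c 1 y)))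
    (hs : ∀ y, y ≠ 0 → ψ (ss 0) • pr (L y) = pr (L (sw y))) : Std L a c ψ := by
  have ha0 : a ≠ 0 := by positivity
  have hc0 : c ≠ 0 := by positivity
  have h1 : ∀ i : ℤ, ∀ y, y ≠ 0 → ψ (rr i) • pr (L y) = pr (L (dg a c i y)) := by
    intro i
    induction i using Int.induction_on with
    | zero =>
      intro y hy
      rw [dg_zero, rr_zero, map_one, one_smul]
    | succ n ih =>
      intro y hy
      rw [← rr_mul, map_mul, mul_smul, hr y hy, ih _ (dg_ne_zero ha0 hc0 _ hy), dg_dg ha0 hc0]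
    | pred n ih =>
      intro y hy
      have e : rr (-(n : ℤ)) = rr 1 * rr (-(n : ℤ) - 1) := by
        rw [rr_mul]
        congr 1
        ring
      have h2 := ih y hy
      rw [e, map_mul, mul_smul] at h2
      have h3 := hr _ (dg_ne_zero ha0 hc0 (-(n : ℤ) - 1) hy)
      rw [dg_dg ha0 hc0, show (1 : ℤ) + (-(n : ℤ) - 1) = -(n : ℤ) by ring, ← h2] at h3
      exact (MulAction.injective _ h3).symm
  refine ⟨ha, hc, hca, ?_⟩
  intro d y hy
  obtain ⟨i, rfl | rfl⟩ := dcases d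
  · exact h1 i y hy
  · have e : ss i = ss 0 * rr i := by rw [ss_mul_rr, zero_add]
    rw [act_ss, e, map_mul, mul_smul, h1 i y hy, hs _ (dg_ne_zero ha0 hc0 _ hy)]

/-- the invariant convex cone, before taking the interior -/
def W0 (a c : ℝ) : Set V4 :=
  {y | 0 < y 0 ∧ 0 < y 1 ∧ ∀ i : ℤ, |y 2| * c ^ i < a ^ i * y 0 + a ^ (-i) * y 1 ∧
    |y 3| * c ^ (-i) < a ^ i * y 0 + a ^ (-i) * y 1}

theorem convex_W0 {a c : ℝ} (hc : 0 < c) : Convex ℝ (W0 a c) := by
  have key : ∀ (s t u v A B k : ℝ), 0 ≤ s → 0 ≤ t → s + t = 1 → 0 < k → |u| * k < A → |v| * k < B →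
      |s * u + t * v| * k < s * A + t * B := by
    intro s t u v A B k hs ht hst hk h1 h2
    have h3 : |s * u + t * v| ≤ s * |u| + t * |v| := by
      refine (abs_add_le _ _).trans ?_
      rw [abs_mul, abs_mul, abs_of_nonneg hs, abs_of_nonneg ht]
    have h4 : s * (|u| * k) + t * (|v| * k) < s * A + t * B := by
      rcases hs.eq_or_lt with rfl | hs'
      · have : t = 1 := by linarith
        subst this
        simpa using h2
      · nlinarith [mul_le_mul_of_nonneg_left h2.le ht, mul_lt_mul_of_pos_left h1 hs']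
    nlinarith [mul_le_mul_of_nonneg_right h3 hk.le]
  have pos : ∀ (s t u v : ℝ), 0 ≤ s → 0 ≤ t → s + t = 1 → 0 < u → 0 < v → 0 < s * u + t * v := by
    intro s t u v hs ht hst hu hv
    rcases hs.eq_or_lt with rfl | hs'
    · have : t = 1 := by linarith
      subst this
      simpa using hv
    · nlinarith [mul_nonneg ht hv.le, mul_pos hs' hu]
  rintro y ⟨y0, y1, hy⟩ z ⟨z0, z1, hz⟩ s t hs ht hst
  refine ⟨pos s t _ _ hs ht hst y0 z0, pos s t _ _ hs ht hst y1 z1, fun i => ⟨?_, ?_⟩⟩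
  · have := key s t _ _ _ _ _ hs ht hst (zpow_pos hc i) (hy i).1 (hz i).1
    simp only [Pi.add_apply, Pi.smul_apply, smul_eq_mul]
    linarith
  · have := key s t _ _ _ _ _ hs ht hst (zpow_pos hc (-i)) (hy i).2 (hz i).2
    simp only [Pi.add_apply, Pi.smul_apply, smul_eq_mul]
    linarith

theorem mapsTo_interior_of {W : Set V4} {f g : V4 → V4} (hf : MapsTo f W W) (hg : Continuous g)
    (h1 : ∀ y, g (f y) = y) (h2 : ∀ y, f (g y) = y) : MapsTo f (interior W) (interior W) := by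
  intro y hy
  rw [mem_interior]
  refine ⟨g ⁻¹' interior W, fun z hz => ?_, isOpen_interior.preimage hg, ?_⟩
  · rw [← h2 z]
    exact hf (interior_subset hz)
  · show g (f y) ∈ interior W
    rwa [h1]

theorem smul_W0 {a c t : ℝ} (ht : 0 < t) : MapsTo (fun y : V4 => t • y) (W0 a c) (W0 a c) := by
  rintro y ⟨y0, y1, hy⟩
  refine ⟨mul_pos ht y0, mul_pos ht y1, fun i => ⟨?_, ?_⟩⟩
  · have := mul_lt_mul_of_pos_left (hy i).1 ht
    simp only [Pi.smul_apply, smul_eq_mul, abs_mul, abs_of_pos ht]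
    linarith
  · have := mul_lt_mul_of_pos_left (hy i).2 ht
    simp only [Pi.smul_apply, smul_eq_mul, abs_mul, abs_of_pos ht]
    linarith

theorem dg_W0 {a c : ℝ} (ha : 0 < a) (hc : 0 < c) (j : ℤ) : MapsTo (dg a c j) (W0 a c) (W0 a c) := by
  rintro y ⟨y0, y1, hy⟩
  refine ⟨mul_pos (zpow_pos ha _) y0, mul_pos (zpow_pos ha _) y1, fun i => ⟨?_, ?_⟩⟩
  · have := (hy (i + j)).1
    simp only [neg_add, zpow_add₀ ha.ne', zpow_add₀ hc.ne'] at this
    simp only [dg0, dg1, dg2, abs_mul, abs_zpow, abs_neg, abs_of_pos hc]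
    linarith
  · have := (hy (i + j)).2
    simp only [neg_add, zpow_add₀ ha.ne', zpow_add₀ hc.ne'] at this
    simp only [dg0, dg1, dg3, abs_mul, abs_zpow, abs_neg, abs_of_pos hc]
    linarith

theorem sw_W0 {a c : ℝ} : MapsTo sw (W0 a c) (W0 a c) := by
  rintro y ⟨y0, y1, hy⟩
  refine ⟨y1, y0, fun i => ⟨?_, ?_⟩⟩
  · have := (hy (-i)).2
    simp only [neg_neg] at this
    simp only [sw0, sw1, sw2]
    linarith
  · have := (hy (-i)).1
    simp only [neg_neg] at this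
    simp only [sw0, sw1, sw3]
    linarith

theorem smul_int {a c t : ℝ} (ht : 0 < t) {y : V4} (hy : y ∈ interior (W0 a c)) :
    t • y ∈ interior (W0 a c) :=
  mapsTo_interior_of (g := fun y => t⁻¹ • y) (smul_W0 ht) (continuous_const_smul _)
    (fun y => by rw [smul_smul, inv_mul_cancel₀ ht.ne', one_smul])
    (fun y => by rw [smul_smul, mul_inv_cancel₀ ht.ne', one_smul]) hy

theorem act_int {a c : ℝ} (ha : 0 < a) (hc : 0 < c) (d : DihedralGroup 0) {y : V4}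
    (hy : y ∈ interior (W0 a c)) : act a c d y ∈ interior (W0 a c) := by
  have h1 : ∀ j : ℤ, dg a c j y ∈ interior (W0 a c) := fun j =>
    mapsTo_interior_of (g := dg a c (-j)) (dg_W0 ha hc j) (continuous_dg _ _ _)
      (fun y => by rw [dg_dg ha.ne' hc.ne', neg_add_cancel, dg_zero])
      (fun y => by rw [dg_dg ha.ne' hc.ne', add_neg_cancel, dg_zero]) hy
  obtain ⟨i, rfl | rfl⟩ := dcases d
  · exact h1 i
  · exact mapsTo_interior_of (g := sw) sw_W0 continuous_sw sw_sw sw_sw (h1 i)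

/-- the open segment, as a cone -/
def Seg : Set V4 := {y | 0 < y 0 ∧ 0 < y 1 ∧ y 2 = 0 ∧ y 3 = 0}

theorem seg_subset {a c : ℝ} (hc : 1 ≤ c) (hca : c ≤ a) : Seg ⊆ interior (W0 a c) := by
  have hO : IsOpen {y : V4 | |y 2| < y 0 ∧ |y 2| < y 1 ∧ |y 3| < y 0 ∧ |y 3| < y 1} := by
    have o : ∀ i j : Fin 4, IsOpen {y : V4 | |y i| < y j} := fun i j =>
      isOpen_lt (by fun_prop) (by fun_prop)
    exact (o 2 0).inter ((o 2 1).inter ((o 3 0).inter (o 3 1)))
  have hc0 : 0 < c := by linarith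
  have ha0 : 0 < a := by linarith
  have key : ∀ (u p q : ℝ) (i : ℤ), |u| < p → |u| < q → |u| * c ^ i < a ^ i * p + a ^ (-i) * q := by
    intro u p q i hp hq
    have hu := abs_nonneg u
    have e1 := zpow_pos ha0 i
    have e2 := zpow_pos ha0 (-i)
    have e3 := zpow_pos hc0 i
    rcases le_total 0 i with hi | hi
    · have h1 : c ^ i ≤ a ^ i := zpow_le_zpow_left₀ hi hc0.le hca
      nlinarith [mul_le_mul_of_nonneg_left h1 hu, mul_lt_mul_of_pos_left hp e1,
        mul_pos e2 (hu.trans_lt hq)]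
    · have h1 : c ^ i ≤ 1 := zpow_le_one_of_nonpos₀ hc hi
      have h2 : 1 ≤ a ^ (-i) := one_le_zpow₀ (hc.trans hca) (by omega)
      nlinarith [mul_le_mul_of_nonneg_left (h1.trans h2) hu, mul_lt_mul_of_pos_left hq e2,
        mul_pos e1 (hu.trans_lt hp)]
  rintro y ⟨y0, y1, y2, y3⟩
  rw [mem_interior]
  refine ⟨_, ?_, hO, by simp [y0, y1, y2, y3]⟩
  rintro z ⟨h1, h2, h3, h4⟩
  refine ⟨(abs_nonneg _).trans_lt h1, (abs_nonneg _).trans_lt h2, fun i => ⟨key _ _ _ i h1 h2, ?_⟩⟩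
  have := key _ _ _ (-i) h4 h3
  rw [neg_neg] at this
  linarith

theorem act_seg {a c : ℝ} (ha : 0 < a) (d : DihedralGroup 0) {y : V4} (hy : y ∈ Seg) :
    act a c d y ∈ Seg := by
  obtain ⟨y0, y1, y2, y3⟩ := hy
  obtain ⟨i, rfl | rfl⟩ := dcases d
  · exact ⟨mul_pos (zpow_pos ha _) y0, mul_pos (zpow_pos ha _) y1, by simp [act_rr, y2],
      by simp [act_rr, y3]⟩
  · exact ⟨mul_pos (zpow_pos ha _) y1, mul_pos (zpow_pos ha _) y0, by simp [act_ss, y3],
      by simp [act_ss, y2]⟩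

theorem convex_seg : Convex ℝ Seg := by
  rintro y ⟨y0, y1, y2, y3⟩ z ⟨z0, z1, z2, z3⟩ s t hs ht hst
  have pos : ∀ (u v : ℝ), 0 < u → 0 < v → 0 < s * u + t * v := by
    intro u v hu hv
    rcases hs.eq_or_lt with rfl | hs'
    · have : t = 1 := by linarith
      subst this
      simpa using hv
    · nlinarith [mul_nonneg ht hv.le, mul_pos hs' hu]
  exact ⟨pos _ _ y0 z0, pos _ _ y1 z1, by simp [y2, z2], by simp [y3, z3]⟩

/-- the linear form of the chart -/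
def ph (L : V4 ≃ₗ[ℝ] V4) : V4 →ₗ[ℝ] ℝ where
  toFun v := L.symm v 0 + L.symm v 1
  map_add' v w := by simp only [map_add, Pi.add_apply]; ring
  map_smul' t v := by simp only [map_smul, Pi.smul_apply, smul_eq_mul, RingHom.id_apply]; ring

@[simp] theorem ph_apply (L : V4 ≃ₗ[ℝ] V4) (v : V4) : ph L v = L.symm v 0 + L.symm v 1 := rfl

/-- the invariant domain -/
def Om (L : V4 ≃ₗ[ℝ] V4) (a c : ℝ) : Set P4 := pr '' (L '' interior (W0 a c))

/-- the invariant segment -/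
def Cs (L : V4 ≃ₗ[ℝ] V4) : Set P4 := pr '' (L '' Seg)

theorem ne_zero_of_pos {y : V4} (h : 0 < y 0) : y ≠ 0 := by
  rintro rfl
  simp at h

theorem L_ne_zero (L : V4 ≃ₗ[ℝ] V4) {y : V4} (hy : y ≠ 0) : L y ≠ 0 :=
  L.map_ne_zero_iff.2 hy

theorem continuous_L (L : V4 ≃ₗ[ℝ] V4) : Continuous L :=
  L.toLinearMap.continuous_of_finiteDimensional

theorem image_L (L : V4 ≃ₗ[ℝ] V4) (W : Set V4) : L '' W = L.symm ⁻¹' W :=
  L.toEquiv.image_eq_preimage_symm W

variable {L : V4 ≃ₗ[ℝ] V4} {a c : ℝ} {ψ : DihedralGroup 0 →* PGL(4, ℝ)}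

theorem Std.domain (h : Std L a c ψ) : InvariantDomain ψ.range (ph L) (Om L a c) := by
  have ha0 : 0 < a := by linarith [h.ha]
  have hc0 : 0 < c := by linarith [h.hc]
  refine ⟨?_, ?_, ?_, ?_, ?_⟩
  · exact ⟨_, _, ⟨![1, 1, 0, 0], seg_subset h.hc h.hca ⟨by simp, by simp, by simp, by simp⟩, rfl⟩, rfl⟩
  · apply isOpen_image_pr
    · rw [image_L]
      exact isOpen_interior.preimage (continuous_L L.symm)
    · rintro v ⟨y, hy, rfl⟩
      exact L_ne_zero L (ne_zero_of_pos (interior_subset hy).1)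
  · have hs : ∀ v ∈ {v : V4 | ∀ k, |L.symm v k| ≤ |ph L v|}, ∀ t : ℝ, t ≠ 0 →
        t • v ∈ {v : V4 | ∀ k, |L.symm v k| ≤ |ph L v|} := by
      intro v hv t ht k
      rw [map_smul, map_smul, Pi.smul_apply, smul_eq_mul, smul_eq_mul, abs_mul, abs_mul]
      exact mul_le_mul_of_nonneg_left (hv k) (abs_nonneg _)
    have hcl : IsClosed {v : V4 | ∀ k, |L.symm v k| ≤ |ph L v|} := by
      rw [ofPred_forall]
      refine isClosed_iInter fun k => isClosed_le ?_ ?_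
      · exact ((continuous_apply k).comp (continuous_L L.symm)).abs
      · exact (ph L).continuous_of_finiteDimensional.abs
    intro x hx
    have h1 : x ∈ {x : P4 | x.rep ∈ {v : V4 | ∀ k, |L.symm v k| ≤ |ph L v|}} := by
      refine closure_minimal ?_ (isClosed_rep hcl hs) hx
      rintro _ ⟨_, ⟨y, hy, rfl⟩, rfl⟩
      obtain ⟨y0, y1, hy'⟩ := interior_subset hy
      refine (rep_pr_mem hs (L_ne_zero L (ne_zero_of_pos y0))).2 ?_
      intro k
      have h2 := hy' 0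
      simp only [zpow_zero, neg_zero, mul_one, one_mul] at h2
      rw [ph_apply, L.symm_apply_apply, abs_of_pos (add_pos y0 y1)]
      fin_cases k
      · show |y 0| ≤ _
        rw [abs_of_pos y0]; linarith
      · show |y 1| ≤ _
        rw [abs_of_pos y1]; linarith
      · exact h2.1.le
      · exact h2.2.le
    intro h0
    apply L_ne_zero L.symm x.rep_nonzero
    funext k
    have := h1 k
    rw [h0, abs_zero] at this
    exact abs_nonpos_iff.1 this
  · apply convex_chart_image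
    · rintro v ⟨y, hy, rfl⟩
      obtain ⟨y0, y1, -⟩ := interior_subset hy
      rw [ph_apply, L.symm_apply_apply]
      exact add_pos y0 y1
    · rintro v ⟨y, hy, rfl⟩ t ht
      exact ⟨t • y, smul_int ht hy, map_smul _ _ _⟩
    · exact (convex_W0 hc0).interior.linear_image L.toLinearMap
  · rintro _ ⟨d, rfl⟩ _ ⟨_, ⟨y, hy, rfl⟩, rfl⟩
    rw [h.hact d y (ne_zero_of_pos (interior_subset hy).1)]
    exact ⟨_, ⟨_, act_int ha0 hc0 d hy, rfl⟩, rfl⟩

theorem Std.cs_subset (h : Std L a c ψ) : Cs L ⊆ Om L a c :=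
  image_mono (image_mono (seg_subset h.hc h.hca))

theorem cs_nonempty (L : V4 ≃ₗ[ℝ] V4) : (Cs L).Nonempty :=
  ⟨_, _, ⟨![1, 1, 0, 0], ⟨by simp, by simp, by simp, by simp⟩, rfl⟩, rfl⟩

theorem Std.cs_compact (h : Std L a c ψ) : CompactQuotient ψ.range (Cs L) := by
  have ha0 : 0 < a := by linarith [h.ha]
  have ha2 : 1 < a ^ 2 := by nlinarith [h.ha]
  have hseg : ∀ t ∈ Icc (1 : ℝ) (a ^ 2), (![t, 1, 0, 0] : V4) ∈ Seg := fun t ht =>
    ⟨by have := ht.1; show 0 < t; linarith, by simp, by simp, by simp⟩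
  refine compactQuotient_of (K := (fun t : ℝ => pr (L ![t, 1, 0, 0])) '' Icc 1 (a ^ 2)) ?_ ?_ ?_
  · apply isCompact_Icc.image_of_continuousOn
    refine continuousOn_pr.comp ((continuous_L L).comp ?_).continuousOn ?_
    · refine continuous_pi fun k => ?_
      fin_cases k <;> simp <;> fun_prop
    · intro t ht
      exact L_ne_zero L (ne_zero_of_pos (hseg t ht).1)
  · rintro _ ⟨t, ht, rfl⟩
    exact ⟨_, ⟨_, hseg t ht, rfl⟩, rfl⟩
  · rintro _ ⟨_, ⟨y, ⟨y0, y1, y2, y3⟩, rfl⟩, rfl⟩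
    obtain ⟨n, hn1, hn2⟩ := exists_mem_Ico_zpow (div_pos y0 y1) ha2
    have hp : 0 < (a ^ 2) ^ n := zpow_pos (by positivity) n
    refine ⟨ψ (rr (-n)), ⟨_, rfl⟩, y 0 / y 1 / (a ^ 2) ^ n, ⟨?_, ?_⟩, ?_⟩
    · rwa [le_div_iff₀ hp, one_mul]
    · rw [div_le_iff₀ hp]
      rw [zpow_add₀ (by positivity), zpow_one] at hn2
      linarith
    · rw [h.hact _ y (ne_zero_of_pos y0)]
      have e : act a c (rr (-n)) y = (a ^ n * y 1) • ![y 0 / y 1 / (a ^ 2) ^ n, 1, 0, 0] := by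
        show dg a c (-n) y = _
        have hn0 : a ^ n ≠ 0 := (zpow_pos ha0 n).ne'
        have e2 : (a ^ 2) ^ n = a ^ n * a ^ n := by rw [sq, mul_zpow]
        apply ext4
        · simp only [dg0, e2, _root_.zpow_neg, Pi.smul_apply, smul_eq_mul, cons_val_zero]
          field_simp
        · simp
        · simp [y2]
        · simp [y3]
      rw [e, map_smul, pr_smul]
      · apply L_ne_zero
        intro h0
        simpa using congrFun h0 1
      · exact (mul_pos (zpow_pos ha0 n) y1).ne'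

theorem Std.eq_one (h : Std L a c ψ) : ∃ O : Set PGL(4, ℝ), IsOpen O ∧ 1 ∈ O ∧
    ∀ d, ψ d ∈ O → d = 1 := by
  have ha0 : 0 < a := by linarith [h.ha]
  have ha := h.ha
  let A : Set V4 := {v | (L.symm v 1) ^ 2 < (L.symm v 0) ^ 2 ∧
    (L.symm v 0) ^ 2 < a ^ 2 * (L.symm v 1) ^ 2}
  have hc0 : Continuous fun v => L.symm v 0 := (continuous_apply 0).comp (continuous_L L.symm)
  have hc1 : Continuous fun v => L.symm v 1 := (continuous_apply 1).comp (continuous_L L.symm)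
  have hA : IsOpen A :=
    (isOpen_lt (hc1.pow 2) (hc0.pow 2)).inter (isOpen_lt (hc0.pow 2) (continuous_const.mul (hc1.pow 2)))
  have hs : ∀ v ∈ A, ∀ t : ℝ, t ≠ 0 → t • v ∈ A := by
    rintro v ⟨h1, h2⟩ t ht
    have : 0 < t ^ 2 := by positivity
    refine ⟨?_, ?_⟩ <;> simp only [map_smul, Pi.smul_apply, smul_eq_mul, mul_pow] <;> nlinarith
  have hs0 : 0 < √a := Real.sqrt_pos.2 ha0
  have hs2 : √a ^ 2 = a := Real.sq_sqrt ha0.le
  let y : V4 := ![√a, 1, 0, 0]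
  have hy : y ≠ 0 := ne_zero_of_pos hs0
  refine ⟨(fun g : PGL(4, ℝ) => g • pr (L y)) ⁻¹' {x | x.rep ∈ A},
    (isOpen_rep hA hs).preimage (continuous_orbit (L_ne_zero L hy)), ?_, ?_⟩
  · show ((1 : PGL(4, ℝ)) • pr (L y)).rep ∈ A
    rw [one_smul, rep_pr_mem hs (L_ne_zero L hy)]
    refine ⟨?_, ?_⟩ <;> simp only [L.symm_apply_apply, y, cons_val_zero, cons_val_one, hs2] <;>
      nlinarith
  · intro d hd
    have hd' : (ψ d • pr (L y)).rep ∈ A := hd
    have hc0 : c ≠ 0 := by linarith [h.hc]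
    have hne : act a c d y ≠ 0 := by
      obtain ⟨i, rfl | rfl⟩ := dcases d
      · exact dg_ne_zero ha0.ne' hc0 _ hy
      · exact sw_ne_zero (dg_ne_zero ha0.ne' hc0 _ hy)
    rw [h.hact d y hy, rep_pr_mem hs (L_ne_zero L hne)] at hd'
    obtain ⟨h1, h2⟩ := hd'
    simp only [L.symm_apply_apply] at h1 h2
    have e1 : ∀ i : ℤ, (a ^ i * √a) ^ 2 = a ^ (2 * i + 1) := fun i => by
      rw [mul_pow, hs2, zpow_add₀ ha0.ne', zpow_one, mul_comm 2 i, _root_.zpow_mul]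
      rfl
    have e2 : ∀ i : ℤ, (a ^ (-i) * 1) ^ 2 = a ^ (-2 * i) := fun i => by
      rw [mul_one, show -2 * i = -i * 2 by ring, _root_.zpow_mul]
      rfl
    have e3 : ∀ i : ℤ, a ^ 2 * a ^ i = a ^ (2 + i) := fun i => by
      rw [zpow_add₀ ha0.ne']
      rfl
    obtain ⟨i, rfl | rfl⟩ := dcases d
    · change (a ^ (-i) * 1) ^ 2 < (a ^ i * √a) ^ 2 at h1
      change (a ^ i * √a) ^ 2 < a ^ 2 * (a ^ (-i) * 1) ^ 2 at h2
      rw [e1, e2, zpow_lt_zpow_iff_right₀ ha] at h1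
      rw [e1, e2, e3, zpow_lt_zpow_iff_right₀ ha] at h2
      have : i = 0 := by omega
      rw [this, rr_zero]
    · change (a ^ i * √a) ^ 2 < (a ^ (-i) * 1) ^ 2 at h1
      change (a ^ (-i) * 1) ^ 2 < a ^ 2 * (a ^ i * √a) ^ 2 at h2
      rw [e1, e2, zpow_lt_zpow_iff_right₀ ha] at h1
      rw [e1, e2, e3, zpow_lt_zpow_iff_right₀ ha] at h2
      omega

theorem Std.injective (h : Std L a c ψ) : Function.Injective ψ := by
  obtain ⟨O, -, h1, h2⟩ := h.eq_one
  rw [injective_iff_map_eq_one]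
  intro d hd
  exact h2 d (by rwa [hd])

theorem Std.infinite (h : Std L a c ψ) : Infinite ψ.range :=
  Infinite.of_injective _ (MonoidHom.ofInjective h.injective).injective

theorem Std.discrete (h : Std L a c ψ) : DiscreteTopology ψ.range := by
  obtain ⟨O, hO, h1, h2⟩ := h.eq_one
  apply discreteTopology_of_isOpen_singleton_one
  have : ({1} : Set ψ.range) = Subtype.val ⁻¹' O := by
    ext ⟨_, d, rfl⟩
    constructor
    · intro e
      rw [mem_singleton_iff.1 e]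
      exact h1
    · intro e
      rw [mem_singleton_iff, Subtype.ext_iff]
      show ψ d = 1
      rw [h2 d e, map_one]
  rw [this]
  exact hO.preimage continuous_subtype_val

theorem Std.naive (h : Std L a c ψ) : NaiveCC ψ.range := by
  have ha0 : 0 < a := by linarith [h.ha]
  refine ⟨h.infinite, h.discrete, ph L, Om L a c, Cs L, h.domain, cs_nonempty L, h.cs_subset,
    ?_, ?_, ?_, h.cs_compact⟩
  · have hs : ∀ v ∈ {v : V4 | L.symm v 2 = 0 ∧ L.symm v 3 = 0}, ∀ t : ℝ, t ≠ 0 →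
        t • v ∈ {v : V4 | L.symm v 2 = 0 ∧ L.symm v 3 = 0} := by
      rintro v ⟨h1, h2⟩ t ht
      refine ⟨?_, ?_⟩ <;> simp [h1, h2]
    have hcl : IsClosed {v : V4 | L.symm v 2 = 0 ∧ L.symm v 3 = 0} :=
      (isClosed_eq ((continuous_apply 2).comp (continuous_L L.symm)) continuous_const).inter
        (isClosed_eq ((continuous_apply 3).comp (continuous_L L.symm)) continuous_const)
    have : (Subtype.val ⁻¹' Cs L : Set (Om L a c)) =
        Subtype.val ⁻¹' {x : P4 | x.rep ∈ {v : V4 | L.symm v 2 = 0 ∧ L.symm v 3 = 0}} := by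
      ext ⟨_, _, ⟨y, hy, rfl⟩, rfl⟩
      obtain ⟨y0, y1, -⟩ := interior_subset hy
      constructor
      · rintro ⟨_, ⟨z, hz, rfl⟩, e⟩
        have e' : pr (L z) = pr (L y) := e
        show (pr (L y)).rep ∈ {v : V4 | L.symm v 2 = 0 ∧ L.symm v 3 = 0}
        rw [← e', rep_pr_mem hs (L_ne_zero L (ne_zero_of_pos hz.1))]
        exact ⟨by rw [L.symm_apply_apply]; exact hz.2.2.1, by rw [L.symm_apply_apply]; exact hz.2.2.2⟩
      · intro e
        have e' : (pr (L y)).rep ∈ {v : V4 | L.symm v 2 = 0 ∧ L.symm v 3 = 0} := e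
        rw [rep_pr_mem hs (L_ne_zero L (ne_zero_of_pos y0))] at e'
        obtain ⟨e2, e3⟩ := e'
        rw [L.symm_apply_apply] at e2 e3
        exact ⟨_, ⟨y, ⟨y0, y1, e2, e3⟩, rfl⟩, rfl⟩
    rw [this]
    exact (isClosed_rep hcl hs).preimage continuous_subtype_val
  · apply convex_chart_image
    · rintro v ⟨y, ⟨y0, y1, -⟩, rfl⟩
      rw [ph_apply, L.symm_apply_apply]
      exact add_pos y0 y1
    · rintro v ⟨y, ⟨y0, y1, y2, y3⟩, rfl⟩ t ht
      exact ⟨t • y, ⟨mul_pos ht y0, mul_pos ht y1, by simp [y2], by simp [y3]⟩, map_smul _ _ _⟩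
    · exact convex_seg.linear_image L.toLinearMap
  · rintro _ ⟨d, rfl⟩ _ ⟨_, ⟨y, hy, rfl⟩, rfl⟩
    rw [h.hact d y (ne_zero_of_pos hy.1)]
    exact ⟨_, ⟨_, act_seg ha0 d hy, rfl⟩, rfl⟩

end Pool.Agent.P.MP_7d68c1_gt
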