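import Mathlib

open scoped MatrixGroups Topology Pointwise
open Matrix Filter Set

namespace Pool.Agent.P.MP_7d68c1_gt.Six

abbrev V3 := Fin 3 → ℝ
abbrev M3 := Matrix (Fin 3) (Fin 3) ℝ

theorem ext3 {v w : V3} (h0 : v 0 = w 0) (h1 : v 1 = w 1) (h2 : v 2 = w 2) : v = w := by
  funext i
  fin_cases i
  exacts [h0, h1, h2]

/-- the Lorentzian form -/
def Bf (v w : V3) : ℝ := v 0 * w 0 + v 1 * w 1 - 3 * (v 2 * w 2)

/-- the open future cone -/
def Cn : Set V3 := {v | 0 < v 2 ∧ Bf v v < 0}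

def m1 : M3 := !![1, 0, 0; 0, -1, 0; 0, 0, 1]
def m2 : M3 := !![0, 1, 0; 1, 0, 0; 0, 0, 1]
def m3 : M3 := !![-2, 0, 3; 0, 1, 0; -1, 0, 2]

theorem m1_sq : m1 * m1 = 1 := by
  ext i j
  fin_cases i <;> fin_cases j <;> simp [m1, Matrix.mul_apply, Fin.sum_univ_three]

theorem m2_sq : m2 * m2 = 1 := by
  ext i j
  fin_cases i <;> fin_cases j <;> simp [m2, Matrix.mul_apply, Fin.sum_univ_three]

theorem m3_sq : m3 * m3 = 1 := by
  ext i j
  fin_cases i <;> fin_cases j <;> simp [m3, Matrix.mul_apply, Fin.sum_univ_three] <;> norm_num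

def u1 : GL (Fin 3) ℝ := ⟨m1, m1, m1_sq, m1_sq⟩
def u2 : GL (Fin 3) ℝ := ⟨m2, m2, m2_sq, m2_sq⟩
def u3 : GL (Fin 3) ℝ := ⟨m3, m3, m3_sq, m3_sq⟩

/-- the reflection triangle group (2,4,6) -/
def GG : Subgroup (GL (Fin 3) ℝ) := Subgroup.closure {u1, u2, u3}

def s1 : GG := ⟨u1, Subgroup.subset_closure (by simp)⟩
def s2 : GG := ⟨u2, Subgroup.subset_closure (by simp)⟩
def s3 : GG := ⟨u3, Subgroup.subset_closure (by simp)⟩

/-- the matrix of a group element -/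
def mt (g : GG) : M3 := (g.1 : M3)

theorem mt_mul (g h : GG) : mt (g * h) = mt g * mt h := rfl
theorem mt_one : mt 1 = 1 := rfl
theorem mt_s1 : mt s1 = m1 := rfl
theorem mt_s2 : mt s2 = m2 := rfl
theorem mt_s3 : mt s3 = m3 := rfl
theorem smul_eq (g : GG) (v : V3) : g • v = mt g *ᵥ v := rfl
theorem mt_inj {g h : GG} (e : mt g = mt h) : g = h := Subtype.ext (Units.ext e)

theorem g_smul (g : GG) (t : ℝ) (v : V3) : g • (t • v) = t • (g • v) := by
  rw [smul_eq, smul_eq, mulVec_smul]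

theorem s1_smul (v : V3) : s1 • v = ![v 0, -v 1, v 2] := by
  rw [smul_eq, mt_s1]
  apply ext3 <;> simp [m1, mulVec, dotProduct, Fin.sum_univ_three]

theorem s2_smul (v : V3) : s2 • v = ![v 1, v 0, v 2] := by
  rw [smul_eq, mt_s2]
  apply ext3 <;> simp [m2, mulVec, dotProduct, Fin.sum_univ_three]

theorem s3_smul (v : V3) : s3 • v = ![-2 * v 0 + 3 * v 2, v 1, -v 0 + 2 * v 2] := by
  rw [smul_eq, mt_s3]
  apply ext3 <;> simp [m3, mulVec, dotProduct, Fin.sum_univ_three]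

theorem s1_sq : s1 * s1 = 1 := mt_inj m1_sq
theorem s2_sq : s2 * s2 = 1 := mt_inj m2_sq
theorem s3_sq : s3 * s3 = 1 := mt_inj m3_sq

theorem g_ext {g h : GG} (e : ∀ v : V3, g • v = h • v) : g = h := by
  apply mt_inj
  ext i j
  have := congrFun (e (Pi.single j 1)) i
  simpa [smul_eq] using this

theorem rel13 : (s1 * s3) ^ 2 = 1 := by
  apply g_ext
  intro v
  simp only [pow_succ, pow_zero, one_mul, mul_smul, one_smul, s1_smul, s3_smul]
  apply ext3 <;> simp <;> ring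

theorem rel12 : (s1 * s2) ^ 4 = 1 := by
  apply g_ext
  intro v
  simp only [pow_succ, pow_zero, one_mul, mul_smul, one_smul, s1_smul, s2_smul]
  apply ext3 <;> simp

theorem rel32 : (s3 * s2) ^ 6 = 1 := by
  apply g_ext
  intro v
  simp only [pow_succ, pow_zero, one_mul, mul_smul, one_smul, s3_smul, s2_smul]
  apply ext3 <;> simp <;> ring

theorem g_ind {p : GG → Prop} (h0 : p 1) (h1 : ∀ g, p g → p (s1 * g)) (h2 : ∀ g, p g → p (s2 * g))
    (h3 : ∀ g, p g → p (s3 * g)) (g : GG) : p g := by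
  obtain ⟨g, hg⟩ := g
  induction hg using Subgroup.closure_induction_left with
  | one => exact h0
  | mul_left x hx y hy ih =>
    rcases hx with rfl | rfl | rfl
    exacts [h1 _ ih, h2 _ ih, h3 _ ih]
  | inv_mul_cancel x hx y hy ih =>
    rcases hx with rfl | rfl | rfl
    exacts [h1 _ ih, h2 _ ih, h3 _ ih]

theorem Bf_smul (g : GG) : ∀ v w : V3, Bf (g • v) (g • w) = Bf v w := by
  induction g using g_ind with
  | h0 => intro v w; simp
  | h1 g ih => intro v w; rw [← ih v w, mul_smul, mul_smul, s1_smul, s1_smul]; simp [Bf]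
  | h2 g ih => intro v w; rw [← ih v w, mul_smul, mul_smul, s2_smul, s2_smul]; simp [Bf]; ring
  | h3 g ih => intro v w; rw [← ih v w, mul_smul, mul_smul, s3_smul, s3_smul]; simp [Bf]; ring

theorem Cn_smul (g : GG) : ∀ v ∈ Cn, g • v ∈ Cn := by
  induction g using g_ind with
  | h0 => intro v hv; simpa using hv
  | h1 g ih =>
    intro v hv
    refine ⟨?_, by rw [Bf_smul]; exact hv.2⟩
    rw [mul_smul, s1_smul]
    exact (ih v hv).1
  | h2 g ih =>
    intro v hv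
    refine ⟨?_, by rw [Bf_smul]; exact hv.2⟩
    rw [mul_smul, s2_smul]
    exact (ih v hv).1
  | h3 g ih =>
    intro v hv
    refine ⟨?_, by rw [Bf_smul]; exact hv.2⟩
    rw [mul_smul, s3_smul]
    obtain ⟨a, b⟩ := ih v hv
    simp only [Bf] at b
    show 0 < -(g • v) 0 + 2 * (g • v) 2
    nlinarith [mul_self_nonneg ((g • v) 1)]

theorem mt_int (g : GG) : ∀ j i, ∃ k : ℤ, mt g i j = k := by
  have key : ∀ j, ∀ i, ∃ k : ℤ, (g • (Pi.single j 1 : V3)) i = k := by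
    intro j
    induction g using g_ind with
    | h0 =>
      intro i
      by_cases h : i = j
      · exact ⟨1, by simp [h]⟩
      · exact ⟨0, by simp [h]⟩
    | h1 g ih =>
      obtain ⟨a, ha⟩ := ih 0
      obtain ⟨b, hb⟩ := ih 1
      obtain ⟨c, hc⟩ := ih 2
      intro i
      rw [mul_smul, s1_smul, ha, hb, hc]
      fin_cases i
      exacts [⟨a, rfl⟩, ⟨-b, by simp⟩, ⟨c, rfl⟩]
    | h2 g ih =>
      obtain ⟨a, ha⟩ := ih 0
      obtain ⟨b, hb⟩ := ih 1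
      obtain ⟨c, hc⟩ := ih 2
      intro i
      rw [mul_smul, s2_smul, ha, hb, hc]
      fin_cases i
      exacts [⟨b, rfl⟩, ⟨a, rfl⟩, ⟨c, rfl⟩]
    | h3 g ih =>
      obtain ⟨a, ha⟩ := ih 0
      obtain ⟨b, hb⟩ := ih 1
      obtain ⟨c, hc⟩ := ih 2
      intro i
      rw [mul_smul, s3_smul, ha, hb, hc]
      fin_cases i
      exacts [⟨-2 * a + 3 * c, by simp⟩, ⟨b, rfl⟩, ⟨-a + 2 * c, by simp⟩]
  intro j i
  obtain ⟨k, hk⟩ := key j i
  exact ⟨k, by simpa [smul_eq] using hk⟩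

theorem continuous_Bf : Continuous fun v : V3 => Bf v v := by
  unfold Bf
  fun_prop

theorem isOpen_Cn : IsOpen Cn :=
  (isOpen_lt continuous_const (continuous_apply 2)).inter (isOpen_lt continuous_Bf continuous_const)

theorem Cn_abs {v : V3} (hv : v ∈ Cn) (i : Fin 3) : |v i| ≤ 2 * v 2 := by
  obtain ⟨a, b⟩ := hv
  simp only [Bf] at b
  rw [abs_le]
  fin_cases i
  · constructor <;> simp only [Fin.zero_eta] <;> nlinarith [mul_self_nonneg (v 1)]
  · constructor <;> simp only [Fin.mk_one] <;> nlinarith [mul_self_nonneg (v 0)]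
  · constructor <;> simp only [Fin.reduceFinMk] <;> linarith

theorem Cn_pos_smul {v : V3} (hv : v ∈ Cn) {t : ℝ} (ht : 0 < t) : t • v ∈ Cn := by
  refine ⟨mul_pos ht hv.1, ?_⟩
  have : Bf (t • v) (t • v) = t * t * Bf v v := by simp [Bf]; ring
  rw [this]
  exact mul_neg_of_pos_of_neg (mul_pos ht ht) hv.2

theorem Bf_neg {v w : V3} (hv : v ∈ Cn) (hw : w ∈ Cn) : Bf v w < 0 := by
  obtain ⟨a, b⟩ := hv
  obtain ⟨c, d⟩ := hw
  simp only [Bf] at b d ⊢
  by_contra h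
  push Not at h
  have h1 : 3 * (v 2 * w 2) ≤ v 0 * w 0 + v 1 * w 1 := by linarith
  have h2 : 0 < 3 * (v 2 * w 2) := by positivity
  have h3 : (3 * (v 2 * w 2)) ^ 2 ≤ (v 0 * w 0 + v 1 * w 1) ^ 2 := by gcongr
  have h4 : (v 0 * v 0 + v 1 * v 1) * (w 0 * w 0 + w 1 * w 1) < (3 * (v 2 * v 2)) * (3 * (w 2 * w 2)) :=
    mul_lt_mul'' (by linarith) (by linarith) (by nlinarith) (by nlinarith)
  nlinarith [mul_self_nonneg (v 0 * w 1 - v 1 * w 0)]

theorem Cn_add {v w : V3} (hv : v ∈ Cn) (hw : w ∈ Cn) : v + w ∈ Cn := by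
  refine ⟨add_pos hv.1 hw.1, ?_⟩
  have : Bf (v + w) (v + w) = Bf v v + 2 * Bf v w + Bf w w := by simp [Bf]; ring
  rw [this]
  linarith [hv.2, hw.2, Bf_neg hv hw]

theorem Cn_ne {v : V3} (hv : v ∈ Cn) : v ≠ 0 := by
  rintro rfl
  simpa using hv.1

/-- the base vector -/
def ee : V3 := ![0, 0, 1]

theorem ee_mem : ee ∈ Cn := ⟨by simp [ee], by simp [ee, Bf]⟩

theorem finite_le {v : V3} (hv : v ∈ Cn) (R : ℝ) : {g : GG | (g • v) 2 ≤ R}.Finite := by
  obtain ⟨ε, hε, hb⟩ := Metric.isOpen_iff.1 isOpen_Cn v hv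
  have hp : ∀ (j : Fin 3) (t : ℝ), |t| < ε → v + t • (Pi.single j 1 : V3) ∈ Cn := by
    intro j t ht
    apply hb
    rw [mem_ball_iff_norm, add_sub_cancel_left, norm_smul, Pi.norm_single, norm_one, mul_one]
    exact ht
  have hfin : {x : ℝ | (∃ k : ℤ, x = k) ∧ |x| ≤ 8 * R / ε}.Finite := by
    refine ((Set.finite_Icc (-⌈8 * R / ε⌉) ⌈8 * R / ε⌉).image (fun k : ℤ => (k : ℝ))).subset ?_
    rintro _ ⟨⟨k, rfl⟩, hk⟩
    have h1 := abs_le.1 (hk.trans (Int.le_ceil _))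
    exact ⟨k, ⟨by exact_mod_cast h1.1, by exact_mod_cast h1.2⟩, rfl⟩
  have h2 : {A : M3 | ∀ i j, A i j ∈ {x : ℝ | (∃ k : ℤ, x = k) ∧ |x| ≤ 8 * R / ε}}.Finite :=
    Set.Finite.pi' (t := fun _ => {r : V3 | ∀ j, r j ∈ {x : ℝ | (∃ k : ℤ, x = k) ∧ |x| ≤ 8 * R / ε}})
      fun _ => Set.Finite.pi' fun _ => hfin
  refine (h2.preimage (f := mt) fun g _ h _ e => mt_inj e).subset ?_
  intro g hg i j
  refine ⟨mt_int g j i, ?_⟩
  have hg' : (g • v) 2 ≤ R := hg
  have e : ∀ (t : ℝ) (k : Fin 3), (g • (v + t • (Pi.single j 1 : V3))) k = (g • v) k + t * mt g k j := by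
    intro t k
    simp [smul_eq, mulVec_smul]
  have a1 := Cn_smul g _ (hp j (ε / 2) (by rw [abs_of_pos] <;> linarith))
  have a2 := Cn_smul g _ (hp j (-(ε / 2)) (by rw [abs_neg, abs_of_pos] <;> linarith))
  have b1 := abs_le.1 (Cn_abs a1 i)
  have b2 := abs_le.1 (Cn_abs a2 i)
  simp only [e] at b1 b2
  rw [le_div_iff₀ hε, ← abs_of_pos hε, ← abs_mul, abs_le]
  have hR : 0 ≤ R := (Cn_smul g v hv).1.le.trans hg'
  constructor <;> nlinarith [b1.1, b1.2, b2.1, b2.2]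

theorem descent {v : V3} (hv : v ∈ Cn) : ∃ g : GG, |(g • v) 0| ≤ (g • v) 2 ∧ |(g • v) 1| ≤ (g • v) 2 := by
  obtain ⟨g, hg, hmin⟩ := Set.exists_min_image _ (fun g : GG => (g • v) 2) (finite_le hv (v 2))
    ⟨1, by simp⟩
  have key : ∀ h : GG, (g • v) 2 ≤ (h • g • v) 2 := by
    intro h
    rw [← mul_smul]
    by_contra h1
    push Not at h1
    exact absurd (hmin (h * g) (h1.le.trans hg)) (not_le.2 h1)
  have k1 := key s3
  have k2 := key (s3 * s2 * s1 * s2)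
  have k3 := key (s3 * s2)
  have k4 := key (s3 * s2 * s1)
  simp only [mul_smul, s1_smul, s2_smul, s3_smul, cons_val_zero, cons_val_one, cons_val] at k1 k2 k3 k4
  exact ⟨g, abs_le.2 ⟨by linarith, by linarith⟩, abs_le.2 ⟨by linarith, by linarith⟩⟩

/-- a hyperbolic element with axis y = 0 -/
def g0 : GG := s3 * s2 * s1 * s2

theorem g0_smul (v : V3) : g0 • v = ![2 * v 0 + 3 * v 2, v 1, v 0 + 2 * v 2] := by
  simp only [g0, mul_smul, s1_smul, s2_smul, s3_smul]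
  apply ext3 <;> simp

theorem g0_inv_smul (v : V3) : g0⁻¹ • v = ![2 * v 0 - 3 * v 2, v 1, -v 0 + 2 * v 2] := by
  rw [inv_smul_eq_iff, g0_smul]
  apply ext3 <;> simp <;> ring

/-- the cone as a set with an action -/
def Cs : SubMulAction GG V3 := ⟨Cn, fun g _ hv => Cn_smul g _ hv⟩

theorem free_two : ∃ f : FreeGroup (Fin 2) →* GG, Function.Injective f := by
  let a : Fin 2 → GG := ![g0 * g0, s2 * (g0 * g0) * s2]
  let X : Fin 2 → Set Cs := ![{v | 5 * v.1 2 < 4 * v.1 0}, {v | 5 * v.1 2 < 4 * v.1 1}]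
  let Y : Fin 2 → Set Cs := ![{v | 5 * v.1 2 < -4 * v.1 0}, {v | 5 * v.1 2 < -4 * v.1 1}]
  have hd : ∀ (v : Cs) (σ τ : ℝ), σ * σ = 16 → τ * τ = 16 → 5 * v.1 2 < σ * v.1 0 →
      5 * v.1 2 < τ * v.1 1 → False := by
    rintro ⟨v, a, b⟩ σ τ h1 h2 h3 h4
    simp only [Bf] at b h3 h4
    have k1 : (5 * v 2) ^ 2 ≤ (σ * v 0) ^ 2 := by gcongr
    have k2 : (5 * v 2) ^ 2 ≤ (τ * v 1) ^ 2 := by gcongr
    have k3 : (σ * v 0) ^ 2 = 16 * (v 0 * v 0) := by rw [← h1]; ring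
    have k4 : (τ * v 1) ^ 2 = 16 * (v 1 * v 1) := by rw [← h2]; ring
    nlinarith
  have s2i : s2⁻¹ = s2 := inv_eq_of_mul_eq_one_right s2_sq
  refine ⟨FreeGroup.lift a, FreeGroup.injective_lift_of_ping_pong a X Y ?_ ?_ ?_ ?_ ?_ ?_⟩
  · intro i
    fin_cases i
    · exact ⟨⟨![3, 0, 2], by simp, by simp [Bf]; norm_num⟩, by simp [X]; norm_num⟩
    · exact ⟨⟨![0, 3, 2], by simp, by simp [Bf]; norm_num⟩, by simp [X]; norm_num⟩
  · intro i j hij
    fin_cases i <;> fin_cases j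
    · exact absurd rfl hij
    · exact Set.disjoint_left.2 fun v h1 h2 => hd v 4 4 (by norm_num) (by norm_num) h1 h2
    · exact Set.disjoint_left.2 fun v h1 h2 => hd v 4 4 (by norm_num) (by norm_num) h2 h1
    · exact absurd rfl hij
  · intro i j hij
    fin_cases i <;> fin_cases j
    · exact absurd rfl hij
    · exact Set.disjoint_left.2 fun v h1 h2 => hd v (-4) (-4) (by norm_num) (by norm_num) h1 h2
    · exact Set.disjoint_left.2 fun v h1 h2 => hd v (-4) (-4) (by norm_num) (by norm_num) h2 h1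
    · exact absurd rfl hij
  · intro i j
    fin_cases i <;> fin_cases j
    · refine Set.disjoint_left.2 fun v h1 h2 => ?_
      have a1 : 5 * v.1 2 < 4 * v.1 0 := h1
      have a2 : 5 * v.1 2 < -4 * v.1 0 := h2
      linarith [v.2.1]
    · exact Set.disjoint_left.2 fun v h1 h2 => hd v 4 (-4) (by norm_num) (by norm_num) h1 h2
    · exact Set.disjoint_left.2 fun v h1 h2 => hd v (-4) 4 (by norm_num) (by norm_num) h2 h1
    · refine Set.disjoint_left.2 fun v h1 h2 => ?_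
      have a1 : 5 * v.1 2 < 4 * v.1 1 := h1
      have a2 : 5 * v.1 2 < -4 * v.1 1 := h2
      linarith [v.2.1]
  · intro i
    fin_cases i
    · rintro _ ⟨v, hv, rfl⟩
      have a1 : ¬ 5 * v.1 2 < -4 * v.1 0 := hv
      show 5 * ((g0 * g0) • v.1) 2 < 4 * ((g0 * g0) • v.1) 0
      simp only [mul_smul, g0_smul, cons_val_zero, cons_val_one, cons_val]
      linarith [v.2.1]
    · rintro _ ⟨v, hv, rfl⟩
      have a1 : ¬ 5 * v.1 2 < -4 * v.1 1 := hv
      show 5 * ((s2 * (g0 * g0) * s2) • v.1) 2 < 4 * ((s2 * (g0 * g0) * s2) • v.1) 1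
      simp only [mul_smul, g0_smul, s2_smul, cons_val_zero, cons_val_one, cons_val]
      linarith [v.2.1]
  · intro i
    fin_cases i
    · rintro _ ⟨v, hv, rfl⟩
      have a1 : ¬ 5 * v.1 2 < 4 * v.1 0 := hv
      show 5 * ((g0 * g0)⁻¹ • v.1) 2 < -4 * ((g0 * g0)⁻¹ • v.1) 0
      simp only [_root_.mul_inv_rev, mul_smul, g0_inv_smul, cons_val_zero, cons_val_one, cons_val]
      linarith [v.2.1]
    · rintro _ ⟨v, hv, rfl⟩
      have a1 : ¬ 5 * v.1 2 < 4 * v.1 1 := hv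
      show 5 * ((s2 * (g0 * g0) * s2)⁻¹ • v.1) 2 < -4 * ((s2 * (g0 * g0) * s2)⁻¹ • v.1) 1
      simp only [_root_.mul_inv_rev, s2i, mul_smul, g0_inv_smul, s2_smul, cons_val_zero, cons_val_one,
        cons_val]
      linarith [v.2.1]

instance : Infinite GG := by
  obtain ⟨f, hf⟩ := free_two
  exact Infinite.of_injective f hf

end Pool.Agent.P.MP_7d68c1_gt.Six
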