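import Mathlib

namespace Pool.Agent.P.MP_7d68c1_gt.Six

variable {A : Type} [Ring A]

def w2 (r1 r3 : A) : A := (4 : ℤ) • 1 - (1 - r1) * (1 - r3)
def w4 (r1 r2 : A) : A := (r1 * r2 + r2 * r1) * (1 - r2) * ((r1 * r2 + r2 * r1) * (1 - r2)) - (16 : ℤ) • 1
def w6 (r3 r2 : A) : A :=
  (r3 * r2 + r2 * r3 + 1) * ((r3 * r2 + r2 * r3) * (r3 * r2 + r2 * r3) - (4 : ℤ) • 1) * (1 - r2) -
    (6 : ℤ) • (1 + r2)
def ax (r1 r2 : A) : A := (2 : ℤ) • (1 - r2) - (1 - r1) * (1 - r2)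
def ay (r1 r2 : A) : A := -((1 - r1) * (1 - r2))
def az (r1 r2 r3 : A) : A :=
  (-6 : ℤ) • (1 - r2) + (3 : ℤ) • ((1 - r1) * (1 - r2)) + (2 : ℤ) • ((1 - r3) * (1 - r2))
def lmat (r1 r2 r3 e1 e2 e3 : A) : A := ax r1 r2 * e1 + ay r1 r2 * e2 + az r1 r2 r3 * e3

theorem inv_pair {r s : A} (hr : r * r = 1) (hs : s * s = 1) : s * r * (r * s) = 1 := by
  calc s * r * (r * s) = s * (r * r) * s := by noncomm_ring
    _ = 1 := by rw [hr, mul_one, hs]

theorem swap_eq {r s : A} (hr : r * r = 1) (hs : s * s = 1) {n : ℕ} (h : (r * s) ^ (n + 1) = 1) :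
    s * r = (r * s) ^ n := by
  calc s * r = s * r * (r * s) ^ (n + 1) := by rw [h, mul_one]
    _ = (r * s) ^ n := by rw [pow_succ', ← mul_assoc, inv_pair hr hs, one_mul]

theorem comm_X {r s : A} (hs : s * s = 1) : Commute (1 - s) (r * s + s * r) := by
  have h1 : s * (s * r) = r := by rw [← mul_assoc, hs, one_mul]
  have h2 : r * s * s = r := by rw [mul_assoc, hs, mul_one]
  refine Commute.sub_left (Commute.one_left _) ?_
  show s * (r * s + s * r) = (r * s + s * r) * s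
  rw [mul_add, add_mul, h1, h2, add_comm, mul_assoc]

theorem q_sq {s : A} (hs : s * s = 1) : (1 - s) * (1 - s) = (2 : ℤ) • (1 - s) := by
  calc (1 - s) * (1 - s) = 1 - (2 : ℤ) • s + s * s := by noncomm_ring
    _ = (2 : ℤ) • (1 - s) := by rw [hs]; noncomm_ring

theorem qqq {r s : A} (hs : s * s = 1) :
    (1 - s) * ((1 - r) * (1 - s)) = (2 : ℤ) • (1 - s) + (r * s + s * r) * (1 - s) := by
  calc (1 - s) * ((1 - r) * (1 - s)) =
      1 - (2 : ℤ) • s + s * s - r + r * s + s * r - s * r * s := by noncomm_ring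
    _ = (2 : ℤ) • (1 - s) + (r * s + s * r - r * 1 - s * r * s) := by rw [hs]; noncomm_ring
    _ = (2 : ℤ) • (1 - s) + (r * s + s * r) * (1 - s) := by
      conv_lhs => rw [show r * 1 = r * (s * s) by rw [hs]]
      noncomm_ring

theorem w2_mul {r s : A} (hr : r * r = 1) (hs : s * s = 1) (h : (r * s) ^ 2 = 1) :
    (1 - s) * (1 - r) = (1 - r) * (1 - s) ∧ (1 - r) * (1 - s) * w2 r s = 0 := by
  have h1 : s * r = r * s := by simpa using swap_eq hr hs (n := 1) h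
  have h2 : (1 - s) * (1 - r) = (1 - r) * (1 - s) := by
    calc (1 - s) * (1 - r) = 1 - r - s + s * r := by noncomm_ring
      _ = (1 - r) * (1 - s) := by rw [h1]; noncomm_ring
  refine ⟨h2, ?_⟩
  have h3 := q_sq hr
  have h4 := q_sq hs
  unfold w2
  generalize 1 - r = p at h2 h3
  generalize 1 - s = q at h2 h4
  calc p * q * ((4 : ℤ) • 1 - p * q) = (4 : ℤ) • (p * q) - p * (q * p) * q := by noncomm_ring
    _ = (4 : ℤ) • (p * q) - (p * p) * (q * q) := by rw [h2]; noncomm_ring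
    _ = 0 := by rw [h3, h4]; noncomm_ring

theorem w4_mul {r s : A} (hr : r * r = 1) (hs : s * s = 1) (h : (r * s) ^ 4 = 1) :
    (r * s + s * r) * (1 - s) * w4 r s = 0 := by
  have h1 : s * r = (r * s) ^ 3 := swap_eq hr hs h
  have h2 : (r * s + s * r) * (r * s + s * r) * (r * s + s * r) = (4 : ℤ) • (r * s + s * r) := by
    rw [h1]
    generalize r * s = g at h
    calc (g + g ^ 3) * (g + g ^ 3) * (g + g ^ 3) =
        (4 : ℤ) • (g + g ^ 3) + (g ^ 4 - 1) * (g ^ 5 + (3 : ℤ) • g ^ 3 + (4 : ℤ) • g) := by noncomm_ring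
      _ = (4 : ℤ) • (g + g ^ 3) := by rw [h]; simp
  have h3 := (comm_X (r := r) hs).eq
  have h4 := q_sq hs
  unfold w4
  generalize r * s + s * r = X at h2 h3
  generalize 1 - s = q at h3 h4
  calc X * q * (X * q * (X * q) - (16 : ℤ) • 1) =
      X * (q * X) * (q * X) * q - (16 : ℤ) • (X * q) := by noncomm_ring
    _ = X * X * (q * X) * q * q - (16 : ℤ) • (X * q) := by
      rw [h3, mul_assoc X (X * q) (X * q), mul_assoc X q (X * q), ← mul_assoc q X q, h3]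
      simp only [mul_assoc]
    _ = X * X * X * (q * q) * q - (16 : ℤ) • (X * q) := by rw [h3]; noncomm_ring
    _ = (8 : ℤ) • (X * (q * q)) - (16 : ℤ) • (X * q) := by
      rw [h2]
      conv_lhs => rw [h4]
      noncomm_ring
    _ = 0 := by rw [h4]; noncomm_ring

theorem w6_mul {r s : A} (hr : r * r = 1) (hs : s * s = 1) (h : (r * s) ^ 6 = 1) :
    (r * s + s * r - 1) * (1 - s) * w6 r s = 0 := by
  have h1 : s * r = (r * s) ^ 5 := swap_eq hr hs h
  have h2 : (r * s + s * r - 1) * (r * s + s * r + 1) *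
      ((r * s + s * r) * (r * s + s * r) - (4 : ℤ) • 1) = 0 := by
    rw [h1]
    generalize r * s = g at h
    have e1 : (g + g ^ 5) * (g + g ^ 5) = g ^ 2 + g ^ 4 + (2 : ℤ) • 1 := by
      calc (g + g ^ 5) * (g + g ^ 5) =
          g ^ 2 + g ^ 4 + (2 : ℤ) • 1 + (g ^ 6 - 1) * (g ^ 4 + (2 : ℤ) • 1) := by noncomm_ring
        _ = _ := by rw [h]; simp
    calc (g + g ^ 5 - 1) * (g + g ^ 5 + 1) * ((g + g ^ 5) * (g + g ^ 5) - (4 : ℤ) • 1) =
        ((g + g ^ 5) * (g + g ^ 5) - 1) * ((g + g ^ 5) * (g + g ^ 5) - (4 : ℤ) • 1) := by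
          generalize g + g ^ 5 = X
          noncomm_ring
      _ = (g ^ 6 - 1) * (g ^ 2 + (2 : ℤ) • 1) := by rw [e1]; noncomm_ring
      _ = 0 := by rw [h]; simp
  have h3 := (comm_X (r := r) hs).eq
  have h5 : (1 - s) * (1 + s) = 0 := by
    calc (1 - s) * (1 + s) = 1 - s * s := by noncomm_ring
      _ = 0 := by rw [hs, sub_self]
  unfold w6
  generalize r * s + s * r = X at h2 h3
  generalize 1 + s = q' at h5
  generalize 1 - s = q at h3 h5
  have h6 : q * ((X + 1) * (X * X - (4 : ℤ) • 1)) = (X + 1) * (X * X - (4 : ℤ) • 1) * q := by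
    have c : Commute q X := h3
    exact ((c.add_right (Commute.one_right q)).mul_right
      ((c.mul_right c).sub_right ((Commute.one_right q).smul_right _))).eq
  calc (X - 1) * q * ((X + 1) * (X * X - (4 : ℤ) • 1) * q - (6 : ℤ) • q') =
      (X - 1) * (q * ((X + 1) * (X * X - (4 : ℤ) • 1))) * q - (6 : ℤ) • ((X - 1) * (q * q')) := by
        generalize (X + 1) * (X * X - (4 : ℤ) • 1) = Z
        generalize X - 1 = Y
        noncomm_ring
    _ = (X - 1) * (X + 1) * (X * X - (4 : ℤ) • 1) * (q * q) - (6 : ℤ) • ((X - 1) * (q * q')) := by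
        rw [h6]; simp only [mul_assoc]
    _ = 0 := by rw [h2, h5]; simp

theorem intertwine {r1 r2 r3 : A} (h1 : r1 * r1 = 1) (h2 : r2 * r2 = 1) (h3 : r3 * r3 = 1)
    (h13 : (1 - r1) * (1 - r3) = 0) (h31 : (1 - r3) * (1 - r1) = 0)
    (h12 : (r1 * r2 + r2 * r1) * (1 - r2) = 0) (h32 : (r3 * r2 + r2 * r3 - 1) * (1 - r2) = 0)
    {e1 e2 e3 : A} :
    r1 * lmat r1 r2 r3 e1 e2 e3 = lmat r1 r2 r3 e1 (-e2) e3 ∧
    r2 * lmat r1 r2 r3 e1 e2 e3 = lmat r1 r2 r3 e2 e1 e3 ∧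
    r3 * lmat r1 r2 r3 e1 e2 e3 =
      lmat r1 r2 r3 ((-2 : ℤ) • e1 + (3 : ℤ) • e3) e2 (-e1 + (2 : ℤ) • e3) := by
  have a1 := q_sq h1
  have a2 := q_sq h2
  have a3 := q_sq h3
  have b1 := qqq (r := r1) h2
  have b3 := qqq (r := r3) h2
  rw [h12, add_zero] at b1
  rw [sub_mul, one_mul, sub_eq_zero] at h32
  rw [h32] at b3
  have c1 : r1 = 1 - (1 - r1) := by simp
  have c2 : r2 = 1 - (1 - r2) := by simp
  have c3 : r3 = 1 - (1 - r3) := by simp
  unfold lmat ax ay az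
  generalize 1 - r1 = q1 at *
  generalize 1 - r2 = q2 at *
  generalize 1 - r3 = q3 at *
  have k1 : ∀ x : A, q1 * (q1 * x) = (2 : ℤ) • (q1 * x) := fun x => by
    rw [← mul_assoc, a1, smul_mul_assoc]
  have k2 : ∀ x : A, q2 * (q2 * x) = (2 : ℤ) • (q2 * x) := fun x => by
    rw [← mul_assoc, a2, smul_mul_assoc]
  have k3 : ∀ x : A, q3 * (q3 * x) = (2 : ℤ) • (q3 * x) := fun x => by
    rw [← mul_assoc, a3, smul_mul_assoc]
  have k13 : ∀ x : A, q1 * (q3 * x) = 0 := fun x => by rw [← mul_assoc, h13, zero_mul]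
  have k31 : ∀ x : A, q3 * (q1 * x) = 0 := fun x => by rw [← mul_assoc, h31, zero_mul]
  have k212 : ∀ x : A, q2 * (q1 * (q2 * x)) = (2 : ℤ) • (q2 * x) := fun x => by
    rw [← smul_mul_assoc, ← b1]; simp only [mul_assoc]
  have k232 : ∀ x : A, q2 * (q3 * (q2 * x)) = (2 : ℤ) • (q2 * x) + q2 * x := fun x => by
    rw [← smul_mul_assoc, ← add_mul, ← b3]; simp only [mul_assoc]
  refine ⟨?_, ?_, ?_⟩
  · rw [c1]
    simp only [mul_add, add_mul, mul_sub, sub_mul, one_mul, neg_mul, mul_neg, mul_assoc, mul_smul_comm,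
      smul_mul_assoc, k1, k13]
    module
  · rw [c2]
    simp only [mul_add, add_mul, mul_sub, sub_mul, one_mul, neg_mul, mul_neg, mul_assoc, mul_smul_comm,
      smul_mul_assoc, k2, k212, k232]
    module
  · rw [c3]
    simp only [mul_add, add_mul, mul_sub, sub_mul, one_mul, neg_mul, mul_neg, mul_assoc, mul_smul_comm,
      smul_mul_assoc, k3, k31]
    module

end Pool.Agent.P.MP_7d68c1_gt.Six
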