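import Pool.Agent.P.MP_7d68c1_gt.NCC
import Pool.Agent.P.MP_7d68c1_gt.NNot
import Pool.Agent.P.MP_7d68c1_gt.NRing

open scoped LinearAlgebra.Projectivization MatrixGroups Topology
open Matrix Filter Set

namespace Pool.Agent.P.MP_7d68c1_gt.Six

/-- a fixed identification -/
noncomputable def L0 : W ≃ₗ[ℝ] V6 := LinearEquiv.ofFinrankEq _ _ (by simp)

/-- block diagonal matrices -/
noncomputable def blk (A B : M3) : M6 :=
  LinearMap.toMatrix' (L0.toLinearMap ∘ₗ (Matrix.toLin' A).prodMap (Matrix.toLin' B) ∘ₗ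
    L0.symm.toLinearMap)

theorem blk_mulVec (A B : M3) (y : W) : blk A B *ᵥ L0 y = L0 (A *ᵥ y.1, B *ᵥ y.2) := by
  simp [blk, LinearMap.toMatrix'_mulVec]

theorem m_ext {A B : M6} (h : ∀ y, A *ᵥ L0 y = B *ᵥ L0 y) : A = B := by
  ext i j
  have := congrFun (h (L0.symm (Pi.single j 1))) i
  simpa using this

theorem blk_mul (A B C D : M3) : blk (A * C) (B * D) = blk A B * blk C D :=
  m_ext fun y => by rw [← mulVec_mulVec, blk_mulVec, blk_mulVec, blk_mulVec, mulVec_mulVec, mulVec_mulVec]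

theorem blk_one : blk 1 1 = 1 :=
  m_ext fun y => by rw [blk_mulVec, one_mulVec, one_mulVec, one_mulVec]

/-- the diagonal embedding -/
noncomputable def dgm : M3 →+* M6 where
  toFun A := blk A A
  map_one' := blk_one
  map_mul' A B := blk_mul A A B B
  map_zero' := m_ext fun y => by
    rw [blk_mulVec, zero_mulVec, zero_mulVec, zero_mulVec]
    exact L0.map_zero
  map_add' A B := m_ext fun y => by
    rw [add_mulVec, blk_mulVec, blk_mulVec, blk_mulVec, add_mulVec, add_mulVec, ← map_add]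
    rfl

/-- the upper left embedding -/
noncomputable def hlf : M3 →* M6 where
  toFun A := blk A 1
  map_one' := blk_one
  map_mul' A B := by rw [← blk_mul, mul_one]

noncomputable def lift6 (f : M3 →* M6) : GG →* GL (Fin 6) ℝ := (Units.map f).comp GG.subtype

noncomputable def iota1 : GG →* PGL(6, ℝ) := ProjGenLinGroup.mk.comp (lift6 hlf)
noncomputable def iota2 : GG →* PGL(6, ℝ) := ProjGenLinGroup.mk.comp (lift6 dgm.toMonoidHom)

theorem act1 : Act L0 iota1 fun _ v => v := by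
  intro g y hy
  show ProjGenLinGroup.mk (lift6 hlf g) • _ = _
  rw [mk_smul_pr _ (L_ne L0 hy)]
  show pr (blk (mt g) 1 *ᵥ L0 y) = _
  rw [blk_mulVec, one_mulVec, smul_eq]

theorem act2 : Act L0 iota2 fun g v => g • v := by
  intro g y hy
  show ProjGenLinGroup.mk (lift6 dgm.toMonoidHom g) • _ = _
  rw [mk_smul_pr _ (L_ne L0 hy)]
  show pr (blk (mt g) (mt g) *ᵥ L0 y) = _
  rw [blk_mulVec]
  rfl

def f1 : M3 := !![1, 0, 0; -1, 0, 0; 0, 0, 0]
def f2 : M3 := !![0, 1, 0; 0, -1, 0; 0, 0, 0]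
def f3 : M3 := !![0, 0, 1; 0, 0, -1; 0, 0, 0]

/-- the candidate conjugating matrix -/
noncomputable def Lm (R1 R2 R3 : M6) : M6 := lmat R1 R2 R3 (dgm f1) (dgm f2) (dgm f3)

def Good0 (R1 R2 R3 : M6) : Prop :=
  0 < ((R1 * R3) ^ 2).trace ∧ 0 < ((R1 * R2) ^ 4).trace ∧ 0 < ((R3 * R2) ^ 6).trace ∧
    (w2 R1 R3).det ≠ 0 ∧ (w4 R1 R2).det ≠ 0 ∧ (w6 R3 R2).det ≠ 0 ∧ (Lm R1 R2 R3).det ≠ 0

theorem isOpen_good0 : IsOpen {p : M6 × M6 × M6 | Good0 p.1 p.2.1 p.2.2} := by
  have t : ∀ {f : M6 × M6 × M6 → M6}, Continuous f → IsOpen {p | 0 < (f p).trace} :=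
    fun hf => isOpen_lt continuous_const hf.matrix_trace
  have d : ∀ {f : M6 × M6 × M6 → M6}, Continuous f → IsOpen {p | (f p).det ≠ 0} :=
    fun hf => isOpen_ne_fun hf.matrix_det continuous_const
  refine (t (f := fun p => (p.1 * p.2.2) ^ 2) ?_).inter
    ((t (f := fun p => (p.1 * p.2.1) ^ 4) ?_).inter ((t (f := fun p => (p.2.2 * p.2.1) ^ 6) ?_).inter
    ((d (f := fun p => w2 p.1 p.2.2) ?_).inter ((d (f := fun p => w4 p.1 p.2.1) ?_).inter
    ((d (f := fun p => w6 p.2.2 p.2.1) ?_).inter (d (f := fun p => Lm p.1 p.2.1 p.2.2) ?_))))))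
  · fun_prop
  · fun_prop
  · fun_prop
  · unfold w2; fun_prop
  · unfold w4; fun_prop
  · unfold w6; fun_prop
  · unfold Lm lmat ax ay az; fun_prop

theorem det_z {c : ℤ} (hc : c ≠ 0) : (c • (1 : M6)).det ≠ 0 := by
  rw [← Int.cast_smul_eq_zsmul ℝ, det_smul, det_one, mul_one]
  exact pow_ne_zero _ (Int.cast_ne_zero.2 hc)

theorem good_base : Good0 (dgm m1) (dgm m2) (dgm m3) := by
  have pw : ∀ (g : GG) (n : ℕ), mt (g ^ n) = mt g ^ n := fun g n => by
    induction n with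
    | zero => rfl
    | succ n ih => rw [pow_succ, pow_succ, mt_mul, ih]
  have a1 : (m1 * m3) ^ 2 = 1 := by
    have := congrArg mt rel13
    rwa [pw] at this
  have a2 : (m1 * m2) ^ 4 = 1 := by
    have := congrArg mt rel12
    rwa [pw] at this
  have a3 : (m3 * m2) ^ 6 = 1 := by
    have := congrArg mt rel32
    rwa [pw] at this
  have b1 : w2 m1 m3 = (4 : ℤ) • 1 := by
    ext i j
    fin_cases i <;> fin_cases j <;>
      simp only [w2, m1, m3, Matrix.mul_apply, Fin.sum_univ_three, Matrix.one_apply, Matrix.sub_apply,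
        Matrix.smul_apply] <;> simp
  have b2 : w4 m1 m2 = (-16 : ℤ) • 1 := by
    ext i j
    fin_cases i <;> fin_cases j <;>
      simp only [w4, m1, m2, Matrix.mul_apply, Fin.sum_univ_three, Matrix.one_apply, Matrix.sub_apply,
        Matrix.add_apply, Matrix.smul_apply] <;> simp
  have b3 : w6 m3 m2 = (-12 : ℤ) • 1 := by
    ext i j
    fin_cases i <;> fin_cases j <;>
      simp only [w6, m3, m2, Matrix.mul_apply, Fin.sum_univ_three, Matrix.one_apply, Matrix.sub_apply,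
        Matrix.add_apply, Matrix.smul_apply] <;> simp <;> norm_num
  have b4 : lmat m1 m2 m3 f1 f2 f3 = (4 : ℤ) • 1 := by
    ext i j
    fin_cases i <;> fin_cases j <;>
      simp only [lmat, ax, ay, az, m1, m3, m2, f1, f2, f3, Matrix.mul_apply, Fin.sum_univ_three,
        Matrix.one_apply, Matrix.sub_apply, Matrix.add_apply, Matrix.smul_apply, Matrix.neg_apply] <;>
      simp <;> norm_num
  have c1 : w2 (dgm m1) (dgm m3) = dgm (w2 m1 m3) := by
    simp only [w2, map_sub, map_mul, map_one, map_zsmul]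
  have c2 : w4 (dgm m1) (dgm m2) = dgm (w4 m1 m2) := by
    simp only [w4, map_sub, map_add, map_mul, map_one, map_zsmul]
  have c3 : w6 (dgm m3) (dgm m2) = dgm (w6 m3 m2) := by
    simp only [w6, map_sub, map_add, map_mul, map_one, map_zsmul]
  have c4 : Lm (dgm m1) (dgm m2) (dgm m3) = dgm (lmat m1 m2 m3 f1 f2 f3) := by
    simp only [Lm, lmat, ax, ay, az, map_sub, map_add, map_mul, map_one, map_zsmul, map_neg]
  unfold Good0
  rw [c1, c2, c3, c4, b1, b2, b3, b4, ← map_mul, ← map_mul, ← map_mul, ← map_pow, ← map_pow, ← map_pow,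
    a1, a2, a3]
  simp only [map_zsmul, map_one]
  exact ⟨by simp, by simp, by simp, det_z (by norm_num), det_z (by norm_num), det_z (by norm_num),
    det_z (by norm_num)⟩

theorem cancel_det {Y Z : M6} (h : Y * Z = 0) (hZ : Z.det ≠ 0) : Y = 0 := by
  have := congrArg (· * Z⁻¹) h
  simpa [Matrix.mul_nonsing_inv_cancel_right _ _ (Ne.isUnit hZ)] using this

theorem pow_scalar {r s : M6} (hr : r * r = 1) (hs : s * s = 1) {n : ℕ} {μ : ℝ}
    (h : (r * s) ^ n = μ • (1 : M6)) (ht : 0 < ((r * s) ^ n).trace) : (r * s) ^ n = 1 := by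
  have h1 : ∀ k : ℕ, r * (r * s) ^ k = (s * r) ^ k * r := by
    intro k
    induction k with
    | zero => simp
    | succ k ih =>
      rw [pow_succ, ← mul_assoc, ih, pow_succ, mul_assoc, mul_assoc, ← mul_assoc r r, hr, one_mul,
        mul_assoc s, hr, mul_one]
  have h2 : ∀ k : ℕ, (s * r) ^ k * (r * s) ^ k = 1 := by
    intro k
    induction k with
    | zero => simp
    | succ k ih =>
      rw [pow_succ, pow_succ', mul_assoc, ← mul_assoc (s * r), inv_pair hr hs, one_mul, ih]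
  have h3 : (s * r) ^ n = μ • (1 : M6) := by
    have := congrArg (· * r) (h1 n)
    simp only [h, mul_assoc, hr, mul_one, mul_smul_comm, smul_mul_assoc] at this
    exact this.symm
  have h4 := h2 n
  rw [h3, h, smul_mul_assoc, one_mul, smul_smul] at h4
  have h5 : μ * μ = 1 := by simpa using congrFun (congrFun h4 0) 0
  rw [h] at ht ⊢
  have h6 : 0 < μ := by simpa using ht
  have : μ = 1 := by nlinarith
  rw [this, one_smul]

theorem scalar_of {S : GL (Fin 6) ℝ} (h : (ProjGenLinGroup.mk S : PGL(6, ℝ)) = 1) :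
    ∃ μ : ℝ, (S : M6) = μ • (1 : M6) := by
  rw [ProjGenLinGroup.mk_eq_one, GeneralLinearGroup.center_eq_range_scalar] at h
  obtain ⟨u, hu⟩ := h
  exact ⟨u, by rw [← hu]; simp [GeneralLinearGroup.coe_scalar, smul_one_eq_diagonal]⟩

/-- normalisation of a projective involution -/
noncomputable def nm (S : M6) : M6 := (√((S * S).trace / 6))⁻¹ • S

theorem nm_sq {S : M6} {μ : ℝ} (h : S * S = μ • (1 : M6)) (ht : 0 < (S * S).trace) :
    nm S * nm S = 1 := by
  have h1 : (S * S).trace / 6 = μ := by rw [h]; simp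
  have h2 : 0 < μ := by rw [← h1]; positivity
  rw [nm, h1, smul_mul_smul_comm, h, smul_smul, ← mul_inv, Real.mul_self_sqrt h2.le,
    inv_mul_cancel₀ h2.ne', one_smul]

def Good (S1 S2 S3 : M6) : Prop :=
  0 < (S1 * S1).trace ∧ 0 < (S2 * S2).trace ∧ 0 < (S3 * S3).trace ∧ Good0 (nm S1) (nm S2) (nm S3)

theorem isOpen_good :
    IsOpen {p : GL (Fin 6) ℝ × GL (Fin 6) ℝ × GL (Fin 6) ℝ | Good p.1 p.2.1 p.2.2} := by
  have hA : IsOpen {S : M6 | 0 < (S * S).trace} :=
    isOpen_lt continuous_const (Continuous.matrix_trace (by fun_prop))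
  have hn : ContinuousOn nm {S : M6 | 0 < (S * S).trace} := by
    refine ContinuousOn.smul (f := fun S : M6 => (√((S * S).trace / 6))⁻¹) (g := fun S : M6 => S)
      (ContinuousOn.inv₀ ?_ fun S hS => ?_) continuousOn_id
    · exact ((Continuous.matrix_trace (show Continuous fun S : M6 => S * S by fun_prop)).div_const
        6).sqrt.continuousOn
    · have : 0 < (S * S).trace := hS
      positivity
  have h1 : ContinuousOn (Prod.map nm (Prod.map nm nm)) ({S : M6 | 0 < (S * S).trace} ×ˢ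
      {S : M6 | 0 < (S * S).trace} ×ˢ {S : M6 | 0 < (S * S).trace}) :=
    hn.prodMap (hn.prodMap hn)
  have h2 := h1.isOpen_inter_preimage (hA.prod (hA.prod hA)) isOpen_good0
  have h3 : Continuous fun p : GL (Fin 6) ℝ × GL (Fin 6) ℝ × GL (Fin 6) ℝ =>
      ((p.1, p.2.1, p.2.2) : M6 × M6 × M6) :=
    (Units.continuous_val.comp continuous_fst).prodMk
      ((Units.continuous_val.comp (continuous_fst.comp continuous_snd)).prodMk
        (Units.continuous_val.comp (continuous_snd.comp continuous_snd)))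
  convert h2.preimage h3 using 1
  ext p
  exact ⟨fun h => ⟨⟨h.1, h.2.1, h.2.2.1⟩, h.2.2.2⟩, fun h => ⟨h.1.1, h.1.2.1, h.1.2.2, h.2⟩⟩

theorem good_one {S : M6} (h : S * S = 1) : 0 < (S * S).trace ∧ nm S = S := by
  rw [nm, h]
  simp

theorem rigid {ψ : GG →* PGL(6, ℝ)} {S1 S2 S3 : GL (Fin 6) ℝ} (h1 : ψ s1 = ProjGenLinGroup.mk S1)
    (h2 : ψ s2 = ProjGenLinGroup.mk S2) (h3 : ψ s3 = ProjGenLinGroup.mk S3) (h : Good S1 S2 S3) :
    ∃ L, Act L ψ fun g v => g • v := by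
  obtain ⟨t1, t2, t3, g1, g2, g3, g4, g5, g6, g7⟩ := h
  have sq : ∀ {s : GG} {S : GL (Fin 6) ℝ}, ψ s = ProjGenLinGroup.mk S → s * s = 1 →
      0 < ((S : M6) * S).trace → nm S * nm S = 1 := by
    intro s S hS hs ht
    obtain ⟨μ, hμ⟩ := scalar_of (S := S * S) (by rw [map_mul, ← hS, ← map_mul, hs, map_one])
    exact nm_sq hμ ht
  have rel : ∀ {s t : GG} {S T : GL (Fin 6) ℝ} {n : ℕ}, ψ s = ProjGenLinGroup.mk S →
      ψ t = ProjGenLinGroup.mk T → (s * t) ^ n = 1 → ∃ μ : ℝ, (nm S * nm T) ^ n = μ • (1 : M6) := by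
    intro s t S T n hS hT hn
    obtain ⟨μ, hμ⟩ := scalar_of (S := (S * T) ^ n)
      (by rw [map_pow, map_mul, ← hS, ← hT, ← map_mul, ← map_pow, hn, map_one])
    rw [Units.val_pow_eq_pow_val, Units.val_mul] at hμ
    exact ⟨_, by rw [nm, nm, smul_mul_smul_comm, _root_.smul_pow, hμ, smul_smul]⟩
  have q1 := sq h1 s1_sq t1
  have q2 := sq h2 s2_sq t2
  have q3 := sq h3 s3_sq t3
  obtain ⟨_, p13⟩ := rel h1 h3 rel13
  obtain ⟨_, p12⟩ := rel h1 h2 rel12
  obtain ⟨_, p32⟩ := rel h3 h2 rel32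
  obtain ⟨z1, z2⟩ := w2_mul q1 q3 (pow_scalar q1 q3 p13 g1)
  have z3 := cancel_det z2 g4
  obtain ⟨i1, i2, i3⟩ := intertwine q1 q2 q3 z3 (z1.trans z3)
    (cancel_det (w4_mul q1 q2 (pow_scalar q1 q2 p12 g2)) g5)
    (cancel_det (w6_mul q3 q2 (pow_scalar q3 q2 p32 g3)) g6)
    (e1 := dgm f1) (e2 := dgm f2) (e3 := dgm f3)
  have mulr : ∀ (m a b c : M3), f1 * m = a → f2 * m = b → f3 * m = c →
      Lm (nm S1) (nm S2) (nm S3) * dgm m = lmat (nm S1) (nm S2) (nm S3) (dgm a) (dgm b) (dgm c) := by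
    rintro m _ _ _ rfl rfl rfl
    simp only [Lm, lmat, add_mul, mul_assoc, map_mul]
  have j1 : nm S1 * Lm (nm S1) (nm S2) (nm S3) = Lm (nm S1) (nm S2) (nm S3) * dgm m1 := by
    rw [mulr m1 f1 (-f2) f3, map_neg]
    · exact i1
    all_goals
      ext i j
      fin_cases i <;> fin_cases j <;> simp [f1, f2, f3, m1, Matrix.mul_apply, Fin.sum_univ_three]
  have j2 : nm S2 * Lm (nm S1) (nm S2) (nm S3) = Lm (nm S1) (nm S2) (nm S3) * dgm m2 := by
    rw [mulr m2 f2 f1 f3]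
    · exact i2
    all_goals
      ext i j
      fin_cases i <;> fin_cases j <;> simp [f1, f2, f3, m2, Matrix.mul_apply, Fin.sum_univ_three]
  have j3 : nm S3 * Lm (nm S1) (nm S2) (nm S3) = Lm (nm S1) (nm S2) (nm S3) * dgm m3 := by
    rw [mulr m3 ((-2 : ℤ) • f1 + (3 : ℤ) • f3) f2 (-f1 + (2 : ℤ) • f3)]
    · simp only [map_add, map_zsmul, map_neg]
      exact i3
    all_goals
      ext i j
      fin_cases i <;> fin_cases j <;> simp [f1, f2, f3, m3, Matrix.mul_apply, Fin.sum_univ_three]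
  generalize Lm (nm S1) (nm S2) (nm S3) = M at g7 j1 j2 j3
  let L : W ≃ₗ[ℝ] V6 := L0.trans (Matrix.toLinearEquiv' M (invertibleOfIsUnitDet M (Ne.isUnit g7)))
  have hL : ∀ y, L y = M *ᵥ L0 y := fun y => rfl
  have step : ∀ {s : GG} {S : GL (Fin 6) ℝ}, ψ s = ProjGenLinGroup.mk S → 0 < ((S : M6) * S).trace →
      nm S * M = M * dgm (mt s) → ∀ y : W, y ≠ 0 → ψ s • pr (L y) = pr (L (s • y)) := by
    intro s S hS ht hj y hy
    have c : (√(((S : M6) * S).trace / 6))⁻¹ ≠ 0 := by positivity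
    rw [hS, mk_smul_pr _ (L_ne L hy), ← pr_smul (mulVec_ne_zero S (L_ne L hy)) c, ← smul_mulVec, hL, hL,
      mulVec_mulVec]
    show pr ((nm S * M) *ᵥ L0 y) = _
    rw [hj, ← mulVec_mulVec]
    show pr (M *ᵥ blk (mt s) (mt s) *ᵥ L0 y) = _
    rw [blk_mulVec]
    rfl
  refine ⟨L, fun g => ?_⟩
  show ∀ y : W, y ≠ 0 → ψ g • pr (L y) = pr (L (g • y))
  induction g using g_ind with
  | h0 => intro y _; simp
  | h1 g ih => intro y hy; rw [map_mul, mul_smul, ih y hy, step h1 t1 j1 _ (gW_ne g hy), mul_smul]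
  | h2 g ih => intro y hy; rw [map_mul, mul_smul, ih y hy, step h2 t2 j2 _ (gW_ne g hy), mul_smul]
  | h3 g ih => intro y hy; rw [map_mul, mul_smul, ih y hy, step h3 t3 j3 _ (gW_ne g hy), mul_smul]

theorem main : ∃ Γ : Subgroup PGL(6, ℝ), CC Γ ∧
    (∃ f : FreeGroup (Fin 2) →* Γ, Function.Injective f) ∧
    ∃ (ρ : Γ →* PGL(6, ℝ)) (U : Set (Γ → PGL(6, ℝ))), IsOpen U ∧ ⇑ρ ∈ U ∧
      (∀ ρ' : Γ →* PGL(6, ℝ), ⇑ρ' ∈ U → Function.Injective ρ' ∧ NaiveCC ρ'.range) ∧
      ¬ CC ρ.range := by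
  let e := MonoidHom.ofInjective act1.injective
  have hrange : ∀ ρ' : iota1.range →* PGL(6, ℝ), (ρ'.comp e.toMonoidHom).range = ρ'.range := by
    intro ρ'
    ext x
    constructor
    · rintro ⟨d, rfl⟩
      exact ⟨e d, rfl⟩
    · rintro ⟨d, rfl⟩
      exact ⟨e.symm d, by simp⟩
  obtain ⟨f, hf⟩ := free_two
  refine ⟨_, act1.cc, ⟨e.toMonoidHom.comp f, e.injective.comp hf⟩, iota2.comp e.symm.toMonoidHom,
    (fun f => (f (e s1), f (e s2), f (e s3))) ⁻¹'
      (Prod.map ProjGenLinGroup.mk (Prod.map ProjGenLinGroup.mk ProjGenLinGroup.mk) ''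
        {p : GL (Fin 6) ℝ × GL (Fin 6) ℝ × GL (Fin 6) ℝ | Good p.1 p.2.1 p.2.2}), ?_, ?_, ?_, ?_⟩
  · exact ((isOpenMap_mk.prodMap (isOpenMap_mk.prodMap isOpenMap_mk)) _ isOpen_good).preimage
      ((continuous_apply _).prodMk ((continuous_apply _).prodMk (continuous_apply _)))
  · refine ⟨(lift6 dgm.toMonoidHom s1, lift6 dgm.toMonoidHom s2, lift6 dgm.toMonoidHom s3), ?_, ?_⟩
    · have k1 := good_one (S := dgm m1) (by rw [← map_mul, m1_sq, map_one])
      have k2 := good_one (S := dgm m2) (by rw [← map_mul, m2_sq, map_one])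
      have k3 := good_one (S := dgm m3) (by rw [← map_mul, m3_sq, map_one])
      show Good (dgm m1) (dgm m2) (dgm m3)
      exact ⟨k1.1, k2.1, k3.1, by rw [k1.2, k2.2, k3.2]; exact good_base⟩
    · simp [iota2]
  · rintro ρ' ⟨⟨S1, S2, S3⟩, hS, h⟩
    obtain ⟨L, hstd⟩ := rigid (ψ := ρ'.comp e.toMonoidHom) (congrArg Prod.fst h).symm
      (congrArg (fun p => p.2.1) h).symm (congrArg (fun p => p.2.2) h).symm hS
    refine ⟨?_, hrange ρ' ▸ hstd.naive⟩
    exact Function.Injective.of_comp_right (g := e) hstd.injective e.surjective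
  · rw [← hrange]
    have : (iota2.comp e.symm.toMonoidHom).comp e.toMonoidHom = iota2 := by
      ext d
      simp
    rw [this]
    exact act2.not_cc

end Pool.Agent.P.MP_7d68c1_gt.Six
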