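import Pool.Agent.P.MP_7d68c1_gt.Cocompact

open scoped LinearAlgebra.Projectivization MatrixGroups Topology
open Matrix Filter Set DihedralGroup

namespace Pool.Agent.P.MP_7d68c1_gt

/-- exchange of the two planes -/
def tau : V4 ≃ₗ[ℝ] V4 where
  toFun y := ![y 2, y 3, y 0, y 1]
  invFun y := ![y 2, y 3, y 0, y 1]
  map_add' y z := by apply ext4 <;> simp
  map_smul' t y := by apply ext4 <;> simp
  left_inv y := by apply ext4 <;> simp
  right_inv y := by apply ext4 <;> simp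

theorem tau_apply (y : V4) : tau y = ![y 2, y 3, y 0, y 1] := rfl

theorem tau_dg (a c : ℝ) (y : V4) : tau (dg c a 1 y) = (-1 : ℝ) • dg a c 1 (tau y) := by
  apply ext4 <;> simp [tau_apply, inv_neg]

theorem tau_sw (y : V4) : tau (sw y) = sw (tau y) := by
  apply ext4 <;> simp [tau_apply]

variable {L : V4 ≃ₗ[ℝ] V4} {a c : ℝ} {ψ : DihedralGroup 0 →* PGL(4, ℝ)}

theorem swap_r (ha : a ≠ 0) (hc : c ≠ 0)
    (hr : ∀ y, y ≠ 0 → ψ (rr 1) • pr (L y) = pr (L (dg a c 1 y))) :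
    ∀ y, y ≠ 0 → ψ (rr 1) • pr ((tau.trans L) y) = pr ((tau.trans L) (dg c a 1 y)) := by
  intro y hy
  have h1 := L_ne_zero tau hy
  rw [LinearEquiv.trans_apply, LinearEquiv.trans_apply, hr _ h1, tau_dg, map_smul,
    pr_smul (L_ne_zero L (dg_ne_zero ha hc _ h1)) (by norm_num)]

theorem swap_s (hs : ∀ y, y ≠ 0 → ψ (ss 0) • pr (L y) = pr (L (sw y))) :
    ∀ y, y ≠ 0 → ψ (ss 0) • pr ((tau.trans L) y) = pr ((tau.trans L) (sw y)) := by
  intro y hy
  rw [LinearEquiv.trans_apply, LinearEquiv.trans_apply, hs _ (L_ne_zero tau hy), tau_sw]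

theorem Std.swap (h : Std L a a ψ) : Std (tau.trans L) a a ψ := by
  have ha0 : a ≠ 0 := by linarith [h.ha]
  refine std_of h.ha h.hc le_rfl (swap_r ha0 ha0 fun y hy => h.hact _ y hy) (swap_s fun y hy => ?_)
  rw [h.hact _ y hy, act_ss, dg_zero]

/-- the positive cone over Ω, in coordinates -/
def cone (L : V4 ≃ₗ[ℝ] V4) (φ : V4 →ₗ[ℝ] ℝ) (Ω : Set P4) : Set V4 :=
  {y | 0 < φ (L y) ∧ pr (L y) ∈ Ω}

variable {φ : V4 →ₗ[ℝ] ℝ} {Ω : Set P4} {Γ : Subgroup PGL(4, ℝ)}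

theorem cone_ne {y : V4} (hy : y ∈ cone L φ Ω) : y ≠ 0 := by
  rintro rfl
  simpa using hy.1

theorem cone_open (hΩ : IsOpen Ω) : IsOpen (cone L φ Ω) := by
  have h1 : IsOpen {y : V4 | 0 < φ (L y)} :=
    isOpen_lt continuous_const (φ.continuous_of_finiteDimensional.comp (continuous_L L))
  have h2 : ContinuousOn (fun y => pr (L y)) {y : V4 | 0 < φ (L y)} :=
    continuousOn_pr.comp (continuous_L L).continuousOn (fun y hy h => by
      have : 0 < φ (L y) := hy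
      rw [h] at this
      simp at this)
  exact h2.isOpen_inter_preimage h1 hΩ

theorem phi_ne (hD : InvariantDomain Γ φ Ω) {v : V4} (hv : v ≠ 0) (h : pr v ∈ closure Ω) :
    φ v ≠ 0 := by
  have h1 := hD.2.2.1 _ h
  obtain ⟨t, -, ht⟩ := exists_rep_pr hv
  rw [ht, map_smul] at h1
  intro h2
  rw [h2, smul_zero] at h1
  exact h1 rfl

theorem cone_or (hD : InvariantDomain Γ φ Ω) {y : V4} (hy : y ≠ 0) (h : pr (L y) ∈ Ω) :
    y ∈ cone L φ Ω ∨ (-1 : ℝ) • y ∈ cone L φ Ω := by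
  rcases (phi_ne hD (L_ne_zero L hy) (subset_closure h)).lt_or_gt with h1 | h1
  · refine Or.inr ⟨by simpa using h1, ?_⟩
    rwa [map_smul, pr_smul (L_ne_zero L hy) (by norm_num)]
  · exact Or.inl ⟨h1, h⟩

theorem cone_smul {y : V4} (hy : y ∈ cone L φ Ω) {t : ℝ} (ht : 0 < t) : t • y ∈ cone L φ Ω :=
  ⟨by rw [map_smul, map_smul]; exact mul_pos ht hy.1,
    by rw [map_smul, pr_smul (L_ne_zero L (cone_ne hy)) ht.ne']; exact hy.2⟩

theorem chart_of {S : Set P4} {v : V4} (h1 : 0 < φ v) (h2 : pr v ∈ S) : (φ v)⁻¹ • v ∈ chart φ S := by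
  have hv : v ≠ 0 := by
    rintro rfl
    simp at h1
  rw [mem_chart, pr_smul hv (inv_ne_zero h1.ne'), map_smul, smul_eq_mul, inv_mul_cancel₀ h1.ne']
  exact ⟨rfl, h2⟩

theorem comb_eq {v w : V4} (h1 : 0 < φ v) (h2 : 0 < φ w) :
    (φ v / (φ v + φ w)) • ((φ v)⁻¹ • v) + (φ w / (φ v + φ w)) • ((φ w)⁻¹ • w) =
      (φ v + φ w)⁻¹ • (v + w) := by
  rw [smul_smul, smul_smul, smul_add]
  congr 2 <;> field_simp

theorem cone_add (hD : InvariantDomain Γ φ Ω) {y z : V4} (hy : y ∈ cone L φ Ω)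
    (hz : z ∈ cone L φ Ω) : y + z ∈ cone L φ Ω := by
  have hp := add_pos hy.1 hz.1
  have h1 := hD.2.2.2.1 (chart_of hy.1 hy.2) (chart_of hz.1 hz.2)
    (div_pos hy.1 hp).le (div_pos hz.1 hp).le (by field_simp)
  rw [comb_eq hy.1 hz.1, mem_chart] at h1
  have h2 : 0 < φ (L (y + z)) := by rwa [map_add, map_add]
  refine ⟨h2, ?_⟩
  have h3 : L y + L z ≠ 0 := by
    intro h
    rw [map_add, h] at h2
    simp at h2
  rw [map_add, ← pr_smul h3 (inv_ne_zero hp.ne')]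
  exact h1.2

theorem cone_limit (hD : InvariantDomain Γ φ Ω) {p q : V4} (hp : p ≠ 0) {μ : ℝ} (hμ : |μ| < 1)
    (h : ∀ n : ℕ, p + μ ^ n • q ∈ cone L φ Ω) :
    0 < φ (L p) ∧ Tendsto (fun n : ℕ => pr (L (p + μ ^ n • q))) atTop (𝓝 (pr (L p))) := by
  have h1 : Tendsto (fun n : ℕ => p + μ ^ n • q) atTop (𝓝 p) := by
    simpa using ((tendsto_pow_atTop_nhds_zero_of_abs_lt_one hμ).smul_const q).const_add p
  have h2 := ((continuous_L L).tendsto _).comp h1
  have h3 := (continuousAt_pr (L_ne_zero L hp)).tendsto.comp h2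
  have h4 := (φ.continuous_of_finiteDimensional.tendsto _).comp h2
  refine ⟨lt_of_le_of_ne (ge_of_tendsto' h4 fun n => (h n).1.le) (phi_ne hD (L_ne_zero L hp) ?_).symm,
    h3⟩
  exact mem_closure_of_tendsto h3 (Eventually.of_forall fun n => (h n).2)

theorem cone_perturb (hΩ : IsOpen Ω) {y : V4} (hy : y ∈ cone L φ Ω) :
    ∃ t : ℝ, y + t • ![0, 0, 1, 0] ∈ cone L φ Ω ∧ y 2 ^ 2 < (y 2 + t) ^ 2 := by
  have h1 : Continuous fun t : ℝ => y + t • (![0, 0, 1, 0] : V4) := by fun_prop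
  have h2 : ∀ᶠ t : ℝ in 𝓝 0, y + t • (![0, 0, 1, 0] : V4) ∈ cone L φ Ω :=
    (h1.tendsto' 0 y (by simp)).eventually ((cone_open hΩ).mem_nhds hy)
  obtain ⟨δ, hδ, h3⟩ := Metric.eventually_nhds_iff.1 h2
  rcases le_total 0 (y 2) with h | h
  · refine ⟨δ / 2, h3 ?_, by nlinarith⟩
    rw [Real.dist_eq, sub_zero, abs_of_pos (by linarith)]
    linarith
  · refine ⟨-(δ / 2), h3 ?_, by nlinarith⟩
    rw [Real.dist_eq, sub_zero, abs_neg, abs_of_pos (by linarith)]
    linarith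

theorem Std.not_core_aux (h : Std L a a ψ) (hD : InvariantDomain ψ.range φ Ω)
    (hpos : ∀ y ∈ cone L φ Ω, dg a a 1 y ∈ cone L φ Ω) :
    ¬ CompactQuotient ψ.range (convexCore ψ.range φ Ω) := by
  intro hcq
  have ha := h.ha
  have ha0 : 0 < a := by linarith
  have hΩ := hD.2.1
  have hin : ∀ d y, y ≠ 0 → pr (L y) ∈ Ω → pr (L (act a a d y)) ∈ Ω := fun d y hy hy' => by
    rw [← h.hact d y hy]
    exact hD.2.2.2.2 _ ⟨d, rfl⟩ _ hy'
  have hneg : ∀ y ∈ cone L φ Ω, dg a a (-1) y ∈ cone L φ Ω := by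
    intro y hy
    rcases cone_or hD (dg_ne_zero ha0.ne' ha0.ne' (-1) (cone_ne hy))
      (hin (rr (-1)) y (cone_ne hy) hy.2) with h1 | h1
    · exact h1
    · exfalso
      have h2 := (hpos _ h1).1
      have e : dg a a 1 ((-1 : ℝ) • dg a a (-1) y) = (-1 : ℝ) • y := by
        have := dg_dg ha0.ne' ha0.ne' 1 (-1) y
        rw [add_neg_cancel, dg_zero] at this
        conv_rhs => rw [← this]
        apply ext4 <;> simp
      rw [e] at h2
      have h3 := hy.1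
      simp only [map_smul, smul_eq_mul] at h2
      linarith
  have hall : ∀ i : ℤ, ∀ y ∈ cone L φ Ω, dg a a i y ∈ cone L φ Ω := by
    intro i
    induction i using Int.induction_on with
    | zero => intro y hy; rwa [dg_zero]
    | succ n ih =>
      intro y hy
      rw [← dg_dg ha0.ne' ha0.ne']
      exact ih _ (hpos y hy)
    | pred n ih =>
      intro y hy
      rw [sub_eq_add_neg, ← dg_dg ha0.ne' ha0.ne']
      exact ih _ (hneg y hy)
  have hμ : |(a ^ 4)⁻¹| < 1 := by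
    rw [abs_of_pos (by positivity)]
    exact inv_lt_one_of_one_lt₀ (one_lt_pow₀ ha (by norm_num))
  have ev : ∀ n : ℕ, (-a) ^ (2 * n : ℤ) = a ^ (2 * n : ℤ) := fun n =>
    Even.neg_zpow (even_two_mul _) a
  have e2 : ∀ n : ℕ, a ^ (2 * n : ℤ) = a ^ n * a ^ n := fun n => by
    rw [two_mul, zpow_add₀ ha0.ne', zpow_natCast]
  have e4 : ∀ n : ℕ, ((a ^ 4)⁻¹) ^ n = (a ^ n * a ^ n * a ^ n * a ^ n)⁻¹ := fun n => by
    rw [inv_pow, ← pow_mul]
    congr 1
    ring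
  have hplus : ∀ (y : V4) (n : ℕ), (![y 0, 0, y 2, 0] : V4) + ((a ^ 4)⁻¹) ^ n • ![0, y 1, 0, y 3] =
      (a ^ n * a ^ n)⁻¹ • dg a a (2 * n) y := by
    intro y n
    have : a ^ n ≠ 0 := by positivity
    apply ext4 <;>
      simp only [Pi.add_apply, Pi.smul_apply, smul_eq_mul, dg0, dg1, dg2, dg3, _root_.zpow_neg, ev, e2,
        e4, cons_val_zero, cons_val_one, cons_val] <;> field_simp <;> simp
  have hminus : ∀ (y : V4) (n : ℕ), (![0, y 1, 0, y 3] : V4) + ((a ^ 4)⁻¹) ^ n • ![y 0, 0, y 2, 0] =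
      (a ^ n * a ^ n)⁻¹ • dg a a (-(2 * n)) y := by
    intro y n
    have : a ^ n ≠ 0 := by positivity
    apply ext4 <;>
      simp only [Pi.add_apply, Pi.smul_apply, smul_eq_mul, dg0, dg1, dg2, dg3, neg_neg,
        _root_.zpow_neg, ev, e2, e4, cons_val_zero, cons_val_one, cons_val] <;> field_simp <;> simp
  have cplus : ∀ y ∈ cone L φ Ω, ∀ n : ℕ,
      (![y 0, 0, y 2, 0] : V4) + ((a ^ 4)⁻¹) ^ n • ![0, y 1, 0, y 3] ∈ cone L φ Ω := fun y hy n => by
    rw [hplus]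
    exact cone_smul (hall _ y hy) (by positivity)
  have cminus : ∀ y ∈ cone L φ Ω, ∀ n : ℕ,
      (![0, y 1, 0, y 3] : V4) + ((a ^ 4)⁻¹) ^ n • ![y 0, 0, y 2, 0] ∈ cone L φ Ω := fun y hy n => by
    rw [hminus]
    exact cone_smul (hall _ y hy) (by positivity)
  have h0 : ∀ y ∈ cone L φ Ω, y 0 ≠ 0 := by
    intro y hy hy0
    obtain ⟨t, ht, ht2⟩ := cone_perturb hΩ hy
    set z : V4 := y + t • ![0, 0, 1, 0] with hz
    have z0 : z 0 = 0 := by
      show y 0 + t * 0 = 0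
      rw [hy0, mul_zero, add_zero]
    have z2 : z 2 ≠ 0 := by
      have : z 2 = y 2 + t := by
        show y 2 + t * 1 = _
        rw [mul_one]
      rw [this]
      intro h
      rw [h] at ht2
      nlinarith
    have p1 : (![z 0, 0, z 2, 0] : V4) ≠ 0 := fun h => z2 (congrFun h 2)
    have e : (![dg a a 1 z 0, 0, dg a a 1 z 2, 0] : V4) = (-a) • ![z 0, 0, z 2, 0] := by
      apply ext4 <;> simp [z0]
    have q1 := (cone_limit hD p1 hμ (cplus z ht)).1
    have q2 := (cone_limit hD (by rw [e]; exact smul_ne_zero (by linarith) p1) hμ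
      (cplus _ (hpos z ht))).1
    rw [e, map_smul, map_smul, smul_eq_mul] at q2
    nlinarith
  have h1 : ∀ y ∈ cone L φ Ω, y 1 ≠ 0 := by
    intro y hy
    have := hin (ss 0) y (cone_ne hy) hy.2
    rw [act_ss, dg_zero] at this
    rcases cone_or hD (sw_ne_zero (cone_ne hy)) this with h2 | h2
    · exact h0 _ h2
    · simpa using h0 _ h2
  have hrep : ∀ x ∈ Ω, ∃ y ∈ cone L φ Ω, pr (L y) = x := by
    intro x hx
    have hne := L_ne_zero L.symm x.rep_nonzero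
    have e : pr (L (L.symm x.rep)) = x := by rw [L.apply_symm_apply, pr_rep]
    rcases cone_or (L := L) hD hne (by rwa [e]) with h2 | h2
    · exact ⟨_, h2, e⟩
    · exact ⟨_, h2, by rw [map_smul, pr_smul (L_ne_zero L hne) (by norm_num), e]⟩
  have hcore : ∀ y ∈ cone L φ Ω, pr (L y) ∈ convexCore ψ.range φ Ω := by
    intro y hy
    have hy0 := cone_ne hy
    have p1 : (![y 0, 0, y 2, 0] : V4) ≠ 0 := fun h => h0 y hy (congrFun h 0)
    have p2 : (![0, y 1, 0, y 3] : V4) ≠ 0 := fun h => h1 y hy (congrFun h 1)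
    obtain ⟨q1, t1⟩ := cone_limit hD p1 hμ (cplus y hy)
    obtain ⟨q2, t2⟩ := cone_limit hD p2 hμ (cminus y hy)
    have l1 : pr (L ![y 0, 0, y 2, 0]) ∈ orbitalLimitSet ψ.range Ω := by
      refine ⟨_, hy.2, accPt_of_seq (fun n => ?_) (fun n e => ?_) t1⟩
      · refine mem_orbit_range.2 ⟨rr (2 * n), ?_⟩
        rw [h.hact _ _ hy0, hplus, map_smul, act_rr,
          pr_smul (L_ne_zero L (dg_ne_zero ha0.ne' ha0.ne' _ hy0)) (by positivity)]
      · obtain ⟨t, ht⟩ := pr_L_eq (cone_ne (cplus y hy n)) p1 e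
        have := congrFun ht 1
        simp [h1 y hy, ha0.ne'] at this
    have l2 : pr (L ![0, y 1, 0, y 3]) ∈ orbitalLimitSet ψ.range Ω := by
      refine ⟨_, hy.2, accPt_of_seq (fun n => ?_) (fun n e => ?_) t2⟩
      · refine mem_orbit_range.2 ⟨rr (-(2 * n)), ?_⟩
        rw [h.hact _ _ hy0, hminus, map_smul, act_rr,
          pr_smul (L_ne_zero L (dg_ne_zero ha0.ne' ha0.ne' _ hy0)) (by positivity)]
      · obtain ⟨t, ht⟩ := pr_L_eq (cone_ne (cminus y hy n)) p2 e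
        have := congrFun ht 0
        simp [h0 y hy, ha0.ne'] at this
    have hp := add_pos q1 q2
    have hm := (convex_convexHull ℝ (chart φ (orbitalLimitSet ψ.range Ω)))
      (subset_convexHull _ _ (chart_of q1 l1)) (subset_convexHull _ _ (chart_of q2 l2))
      (div_pos q1 hp).le (div_pos q2 hp).le (by field_simp)
    have e : L ![y 0, 0, y 2, 0] + L ![0, y 1, 0, y 3] = L y := by
      rw [← map_add]
      congr 1
      apply ext4 <;> simp
    rw [comb_eq q1 q2, e] at hm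
    refine ⟨hy.2, _, hm, smul_ne_zero (inv_ne_zero hp.ne') (L_ne_zero L hy0), ?_⟩
    rw [← pr_eq, pr_smul (L_ne_zero L hy0) (inv_ne_zero hp.ne')]
  let A : Set V4 := {v | L.symm v 0 ≠ 0 ∧ L.symm v 1 ≠ 0}
  let f : V4 → ℝ := fun v => (L.symm v 2 / L.symm v 0) ^ 2 + (L.symm v 3 / L.symm v 1) ^ 2
  have hc : ∀ k, Continuous fun v => L.symm v k := fun k =>
    (continuous_apply k).comp (continuous_L L.symm)
  have hA : IsOpen A :=
    (isOpen_ne_fun (hc 0) continuous_const).inter (isOpen_ne_fun (hc 1) continuous_const)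
  have hs : ∀ v ∈ A, ∀ t : ℝ, t ≠ 0 → t • v ∈ A := by
    rintro v ⟨v0, v1⟩ t ht
    refine ⟨?_, ?_⟩ <;> simp [*]
  have hf : ContinuousOn f A :=
    (((hc 2).continuousOn.div (hc 0).continuousOn fun v hv => hv.1).pow 2).add
      (((hc 3).continuousOn.div (hc 1).continuousOn fun v hv => hv.2).pow 2)
  have hfs : ∀ v, ∀ t : ℝ, t ≠ 0 → f (t • v) = f v := by
    intro v t ht
    simp only [f, map_smul, Pi.smul_apply, smul_eq_mul, mul_div_mul_left _ _ ht]
  have hfr : ∀ y : V4, y ≠ 0 → f (pr (L y)).rep = (y 2 / y 0) ^ 2 + (y 3 / y 1) ^ 2 := by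
    intro y hy
    obtain ⟨t, ht, e⟩ := exists_rep_pr (L_ne_zero L hy)
    rw [e, hfs _ t ht]
    simp only [f, L.symm_apply_apply]
  obtain ⟨x0, hx0⟩ := hD.1
  obtain ⟨y0, hy0, rfl⟩ := hrep x0 hx0
  obtain ⟨x, hx, hmax⟩ := exists_max_of_compactQuotient hcq ⟨_, hcore y0 hy0⟩
    (f := fun x => f x.rep)
    ((continuousOn_rep hA hs hf fun v _ t ht => hfs v t ht).mono (by
      intro x hx
      obtain ⟨y, hy, rfl⟩ := hrep x hx.1
      show (pr (L y)).rep ∈ A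
      rw [rep_pr_mem hs (L_ne_zero L (cone_ne hy))]
      exact ⟨by rw [L.symm_apply_apply]; exact h0 y hy, by rw [L.symm_apply_apply]; exact h1 y hy⟩))
    (by
      rintro _ ⟨d, rfl⟩ x hx
      obtain ⟨y, hy, rfl⟩ := hrep x hx.1
      have hy' := cone_ne hy
      have sq1 : ∀ i : ℤ, ((-a) ^ i) ^ 2 = (a ^ i) ^ 2 := fun i => by
        rw [← sq_abs, abs_zpow, abs_neg, abs_of_pos ha0]
      have ne1 : ∀ i : ℤ, (a ^ i) ^ 2 ≠ 0 := fun i => by positivity
      show f (ψ d • pr (L y)).rep = f (pr (L y)).rep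
      rw [h.hact d y hy', hfr y hy']
      obtain ⟨i, rfl | rfl⟩ := dcases d
      · rw [act_rr, hfr _ (dg_ne_zero ha0.ne' ha0.ne' _ hy')]
        simp only [dg0, dg1, dg2, dg3, div_pow, mul_pow, sq1, mul_div_mul_left _ _ (ne1 _)]
      · rw [act_ss, hfr _ (sw_ne_zero (dg_ne_zero ha0.ne' ha0.ne' _ hy'))]
        simp only [sw0, sw1, sw2, sw3, dg0, dg1, dg2, dg3, div_pow, mul_pow, sq1,
          mul_div_mul_left _ _ (ne1 _)]
        ring)
  obtain ⟨y, hy, rfl⟩ := hrep x hx.1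
  obtain ⟨t, ht, ht2⟩ := cone_perturb hΩ hy
  have h5 := hmax _ (hcore _ ht)
  simp only [hfr _ (cone_ne hy), hfr _ (cone_ne ht)] at h5
  have h6 : 0 < y 0 ^ 2 := by have := h0 y hy; positivity
  have h7 := div_lt_div_of_pos_right ht2 h6
  simp only [Pi.add_apply, Pi.smul_apply, smul_eq_mul, cons_val_zero, cons_val_one, cons_val,
    mul_zero, add_zero, mul_one, div_pow] at h5
  linarith

theorem Std.not_cc (h : Std L a a ψ) : ¬ CC ψ.range := by
  rintro ⟨-, -, φ, Ω, hD, -, hcq⟩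
  have ha0 : 0 < a := by linarith [h.ha]
  have hin : ∀ y ∈ cone L φ Ω, pr (L (dg a a 1 y)) ∈ Ω := fun y hy => by
    rw [← act_rr, ← h.hact _ y (cone_ne hy)]
    exact hD.2.2.2.2 _ ⟨_, rfl⟩ _ hy.2
  have hne : ∀ y ∈ cone L φ Ω, φ (L (dg a a 1 y)) ≠ 0 := fun y hy =>
    phi_ne hD (L_ne_zero L (dg_ne_zero ha0.ne' ha0.ne' _ (cone_ne hy))) (subset_closure (hin y hy))
  by_cases hpos : ∀ y ∈ cone L φ Ω, dg a a 1 y ∈ cone L φ Ω
  · exact h.not_core_aux hD hpos hcq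
  · push Not at hpos
    obtain ⟨z, hz, hz'⟩ := hpos
    have hz2 : φ (L (dg a a 1 z)) < 0 := by
      by_contra h1
      exact hz' ⟨lt_of_le_of_ne (not_lt.1 h1) (hne z hz).symm, hin z hz⟩
    refine h.swap.not_core_aux hD ?_ hcq
    intro y hy
    have hy' : tau y ∈ cone L φ Ω := hy
    have hy2 : φ (L (dg a a 1 (tau y))) < 0 := by
      by_contra h1
      have h2 := lt_of_le_of_ne (not_lt.1 h1) (hne _ hy').symm
      have h3 := hne _ (cone_add hD (cone_smul hy' (neg_pos.2 hz2)) (cone_smul hz h2))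
      apply h3
      have e : ∀ (s t : ℝ) (u v : V4), dg a a 1 (s • u + t • v) = s • dg a a 1 u + t • dg a a 1 v := by
        intro s t u v
        apply ext4 <;> simp <;> ring
      rw [e]
      simp only [map_add, map_smul, smul_eq_mul]
      ring
    show tau (dg a a 1 y) ∈ cone L φ Ω
    rw [tau_dg]
    refine ⟨by simpa using hy2, ?_⟩
    rw [map_smul, pr_smul (L_ne_zero L (dg_ne_zero ha0.ne' ha0.ne' _ (cone_ne hy'))) (by norm_num)]
    exact hin _ hy'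

end Pool.Agent.P.MP_7d68c1_gt
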