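import Pool.Agent.P.MP_7d68c1_gt.TModel

open scoped LinearAlgebra.Projectivization MatrixGroups Topology
open Matrix Filter Set

namespace Pool.Agent.P.MP_7d68c1_gt.Eight

variable {L : W ≃ₗ[ℝ] V8} {ψ : GG →* PGL(8, ℝ)}

def Nn (w : V4) : ℝ := w 0 * w 0 + w 1 * w 1 + w 2 * w 2 + w 3 * w 3

theorem Nn_nonneg (w : V4) : 0 ≤ Nn w := by
  unfold Nn
  nlinarith [mul_self_nonneg (w 0), mul_self_nonneg (w 1), mul_self_nonneg (w 2),
    mul_self_nonneg (w 3)]

theorem Nn_sm (t : ℝ) (v : V4) : Nn (t • v) = t * t * Nn v := by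
  simp [Nn]; ring

theorem Nn_zero {w : V4} (h : Nn w ≤ 0) : w = 0 := by
  unfold Nn at h
  have a := mul_self_nonneg (w 0)
  have b := mul_self_nonneg (w 1)
  have c := mul_self_nonneg (w 2)
  have d := mul_self_nonneg (w 3)
  exact ext4 (mul_self_eq_zero.1 (by linarith)) (mul_self_eq_zero.1 (by linarith))
    (mul_self_eq_zero.1 (by linarith)) (mul_self_eq_zero.1 (by linarith))

theorem continuous_Nn : Continuous Nn := by
  unfold Nn
  fun_prop

/-- the cone over the ball model of hyperbolic 7-space -/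
def H7 : Set W := {y | 0 < y.1 3 ∧ Bf y.1 y.1 + Nn y.2 < 0}

theorem H7_fst {y : W} (h : y ∈ H7) : y.1 ∈ Cn := ⟨h.1, by linarith [h.2, Nn_nonneg y.2]⟩

theorem H7_ne {y : W} (h : y ∈ H7) : y ≠ 0 := ne_of_fst (Cn_ne (H7_fst h))

theorem H7_add {y z : W} (hy : y ∈ H7) (hz : z ∈ H7) : y + z ∈ H7 := by
  obtain ⟨a, b⟩ := hy
  obtain ⟨c, d⟩ := hz
  refine ⟨add_pos a c, ?_⟩
  simp only [Bf, Nn, Prod.fst_add, Prod.snd_add, Pi.add_apply] at b d ⊢
  have h1 : y.1 0 * z.1 0 + y.1 1 * z.1 1 + y.1 2 * z.1 2 - gr * (y.1 3 * z.1 3) +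
      (y.2 0 * z.2 0 + y.2 1 * z.2 1 + y.2 2 * z.2 2 + y.2 3 * z.2 3) ≤ 0 := by
    by_contra h
    push Not at h
    have k1 := mul_pos (mul_pos a c) h
    have k2 := mul_pos (mul_pos c c) (neg_pos.2 b)
    have k3 := mul_pos (mul_pos a a) (neg_pos.2 d)
    linarith [mul_self_nonneg (z.1 3 * y.1 0 - y.1 3 * z.1 0),
      mul_self_nonneg (z.1 3 * y.1 1 - y.1 3 * z.1 1), mul_self_nonneg (z.1 3 * y.1 2 - y.1 3 * z.1 2),
      mul_self_nonneg (z.1 3 * y.2 0 - y.1 3 * z.2 0), mul_self_nonneg (z.1 3 * y.2 1 - y.1 3 * z.2 1),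
      mul_self_nonneg (z.1 3 * y.2 2 - y.1 3 * z.2 2), mul_self_nonneg (z.1 3 * y.2 3 - y.1 3 * z.2 3)]
  linarith

theorem Act.domain7 (h : Act L ψ fun _ v => v) :
    InvariantDomain ψ.range (ph L 0) ((fun y => pr (L y)) '' H7) := by
  have hc : Continuous fun y : W => Bf y.1 y.1 + Nn y.2 :=
    (continuous_Bf.comp continuous_fst).add (continuous_Nn.comp continuous_snd)
  refine ⟨⟨_, (ee, 0), ⟨ee_mem.1, by simpa [Nn] using ee_mem.2⟩, rfl⟩, isOpen_image_L ?_ fun _ => H7_ne,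
    ?_, ?_, ?_⟩
  · exact (isOpen_lt continuous_const (show Continuous fun y : W => y.1 3 by fun_prop)).inter
      (isOpen_lt hc continuous_const)
  · refine closure_chart (B := {y | Bf y.1 y.1 + Nn y.2 ≤ 0}) (fun _ => H7_ne) (fun y hy => hy.2.le)
      ?_ (isClosed_le hc continuous_const) ?_
    · intro y hy t _
      show Bf (t • y.1) (t • y.1) + Nn (t • y.2) ≤ 0
      rw [Bf_sm, Nn_sm, ← mul_add]
      exact mul_nonpos_of_nonneg_of_nonpos (mul_self_nonneg t) hy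
    · intro y hy e
      have hy' : Bf y.1 y.1 + Nn y.2 ≤ 0 := hy
      rw [ph_L, zero_mul, add_zero] at e
      have e1 := eq_zero_of_Bf (by linarith [Nn_nonneg y.2]) e
      refine Prod.ext e1 (Nn_zero ?_)
      simpa [e1, Bf] using hy'
  · refine convex_chart_L ?_ ?_ fun y hy z hz => H7_add hy hz
    · intro y hy
      rw [ph_L, zero_mul, add_zero]
      exact hy.1
    · intro y hy t ht
      refine ⟨mul_pos ht hy.1, ?_⟩
      show Bf (t • y.1) (t • y.1) + Nn (t • y.2) < 0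
      rw [Bf_sm, Nn_sm, ← mul_add]
      exact mul_neg_of_pos_of_neg (mul_pos ht ht) hy.2
  · rintro _ ⟨g, rfl⟩ _ ⟨y, hy, rfl⟩
    refine ⟨(g • y.1, y.2), ⟨(Cn_smul g _ (H7_fst hy)).1, ?_⟩, (h g y (H7_ne hy)).symm⟩
    show Bf (g • y.1) (g • y.1) + Nn y.2 < 0
    rw [Bf_smul]
    exact hy.2

theorem approx {n : V4} (h2 : n 3 = 1) (hn : Bf n n = 0) {ε : ℝ} (hε : 0 < ε) :
    ∃ g : GG, dist (((g • ee) 3)⁻¹ • g • ee) n < ε := by
  obtain ⟨C, hC, hd⟩ := descent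
  obtain ⟨t, t0, t1, t2⟩ : ∃ t : ℝ, 0 < t ∧ t ≤ 1 ∧ C * (6 * t) < (ε * ε / 4) ^ 2 := by
    have : 0 < (ε * ε / 4) ^ 2 := by positivity
    refine ⟨min 1 ((ε * ε / 4) ^ 2 / (7 * C)), lt_min one_pos (by positivity), min_le_left _ _, ?_⟩
    have h := min_le_right 1 ((ε * ε / 4) ^ 2 / (7 * C))
    rw [le_div_iff₀ (by positivity)] at h
    linarith
  have lo := gr_lo
  have hi := gr_hi
  have hx : Bf (n + t • ee) (n + t • ee) = -(gr * (2 * t + t * t)) := by
    simp only [Bf, ee, Pi.add_apply, Pi.smul_apply, smul_eq_mul, cons_val_zero, cons_val_one, cons_val,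
      h2] at hn ⊢
    linarith
  have hx0 : 0 < 2 * t + t * t := by positivity
  have hx' : n + t • ee ∈ Cn := ⟨by simp [ee, h2]; linarith, by rw [hx]; nlinarith⟩
  obtain ⟨g, a⟩ := hd _ hx'
  have k0 := (Cn_smul g _ hx').1
  have k2 := Bf_smul g (g⁻¹ • ee) (n + t • ee)
  rw [smul_inv_smul, Bf_comm, Bf_ee] at k2
  rw [hx, neg_neg] at a
  generalize (g • (n + t • ee)) 3 = k at a k0 k2
  have k3 : k < ε * ε / 4 := by
    apply lt_of_pow_lt_pow_left₀ 2 (by positivity)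
    have : gr * (2 * t + t * t) ≤ 6 * t := by nlinarith
    nlinarith [mul_le_mul_of_nonneg_left this hC.le]
  have o1 := Bf_smul g⁻¹ ee ee
  have o2 := (Cn_smul g⁻¹ _ ee_mem).1
  refine ⟨g⁻¹, ?_⟩
  generalize g⁻¹ • ee = o at k2 o1 o2
  simp only [Bf, ee, Pi.add_apply, Pi.smul_apply, smul_eq_mul, cons_val_zero, cons_val_one, cons_val,
    h2] at hn k2 o1
  have o3 : 1 ≤ o 3 := by
    have : gr * 1 ≤ gr * (o 3 * o 3) := by
      nlinarith [mul_self_nonneg (o 0), mul_self_nonneg (o 1), mul_self_nonneg (o 2)]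
    nlinarith [le_of_mul_le_mul_left this gr_pos]
  have o4 : (o 0 - o 3 * n 0) ^ 2 + (o 1 - o 3 * n 1) ^ 2 + (o 2 - o 3 * n 2) ^ 2 < (ε * o 3) ^ 2 := by
    have e1 : (o 0 - o 3 * n 0) ^ 2 + (o 1 - o 3 * n 1) ^ 2 + (o 2 - o 3 * n 2) ^ 2 =
        -gr + 2 * gr * k * o 3 - 2 * gr * t * (o 3 * o 3) := by
      linear_combination o1 + (o 3 * o 3) * hn + (2 * o 3) * k2
    have e0 : 2 * gr * k < ε * ε := by nlinarith
    have e2 := mul_lt_mul_of_pos_right e0 o2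
    have e3 : ε * ε * o 3 ≤ (ε * o 3) ^ 2 := by nlinarith [mul_pos (mul_pos hε hε) o2]
    nlinarith [mul_pos (mul_pos gr_pos t0) (mul_pos o2 o2)]
  have o5 : ∀ x m : ℝ, (x - o 3 * m) ^ 2 < (ε * o 3) ^ 2 → dist ((o 3)⁻¹ * x) m < ε := by
    intro x m hxm
    have := abs_lt_of_sq_lt_sq hxm (by positivity)
    have e : (o 3)⁻¹ * x - m = (o 3)⁻¹ * (x - o 3 * m) := by field_simp
    rw [Real.dist_eq, e, abs_mul, abs_of_pos (inv_pos.2 o2), inv_mul_lt_iff₀ o2, mul_comm (o 3) ε]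
    exact this
  have s0 := sq_nonneg (o 0 - o 3 * n 0)
  have s1 := sq_nonneg (o 1 - o 3 * n 1)
  have s2 := sq_nonneg (o 2 - o 3 * n 2)
  rw [dist_pi_lt_iff hε]
  intro i
  fin_cases i
  · exact o5 _ _ (by simp only [Fin.zero_eta]; linarith)
  · exact o5 _ _ (by simp only [Fin.mk_one]; linarith)
  · exact o5 _ _ (by simp only [Fin.reduceFinMk]; linarith)
  · exact o5 _ _ (by simp only [Fin.reduceFinMk, h2]; simpa using pow_pos (mul_pos hε o2) 2)

theorem Act.null_mem (h : Act L ψ fun _ v => v) {n : V4} (h2 : n 3 = 1) (hn : Bf n n = 0) :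
    pr (L (n, 0)) ∈ orbitalLimitSet ψ.range ((fun y => pr (L y)) '' H7) := by
  have hn0 : ((n, 0) : W) ≠ 0 := ne_of_fst fun e : n = 0 => by simp [e] at h2
  have he : ((ee, 0) : W) ∈ H7 := ⟨ee_mem.1, by simpa [Nn] using ee_mem.2⟩
  refine ⟨_, ⟨_, he, rfl⟩, ?_⟩
  rw [accPt_iff_nhds]
  intro U hU
  have hc : ContinuousAt (fun v : V4 => pr (L (v, 0))) n :=
    (continuousAt_pr (L_ne L hn0)).comp (f := fun v : V4 => L (v, 0))
      ((cont_L L).comp (by fun_prop)).continuousAt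
  obtain ⟨ε, hε, hb⟩ := Metric.mem_nhds_iff.1 (hc hU)
  obtain ⟨g, hg⟩ := approx h2 hn hε
  have k := Cn_smul g _ ee_mem
  have k0 : ((g • ee, 0) : W) ≠ 0 := ne_of_fst (Cn_ne k)
  refine ⟨pr (L (g • ee, 0)), ⟨?_, mem_orbit_range.2 ⟨g, h g _ (H7_ne he)⟩⟩, fun e => ?_⟩
  · have := hb hg
    rw [mem_preimage] at this
    rw [← pr_L_smul L k0 (inv_pos.2 k.1).ne', Prod.smul_mk, smul_zero]
    exact this
  · obtain ⟨t, ht⟩ := pr_L_eq k0 hn0 e
    have h3 : t • n = g • ee := congrArg Prod.fst ht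
    have h4 := k.2
    rw [← h3, Bf_sm, hn] at h4
    simp at h4

theorem Act.limit_snd (h : Act L ψ fun _ v => v) {y : W} (hy : y ≠ 0)
    (hl : pr (L y) ∈ orbitalLimitSet ψ.range ((fun y => pr (L y)) '' H7)) : y.2 = 0 := by
  obtain ⟨_, ⟨x, hx, rfl⟩, ha⟩ := hl
  have key : ∀ ε : ℝ, 0 < ε → Nn y.2 ≤ ε * (y.1 3 * y.1 3) := by
    intro ε hε
    have hs : Sc {y : W | Nn y.2 ≤ ε * (y.1 3 * y.1 3)} := by
      intro z hz t _
      have hz' : Nn z.2 ≤ ε * (z.1 3 * z.1 3) := hz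
      show Nn (t • z.2) ≤ ε * (t * z.1 3 * (t * z.1 3))
      rw [Nn_sm]
      nlinarith [mul_le_mul_of_nonneg_left hz' (mul_self_nonneg t)]
    have hcl : IsClosed {y : W | Nn y.2 ≤ ε * (y.1 3 * y.1 3)} :=
      isClosed_le (continuous_Nn.comp continuous_snd) (by fun_prop)
    have hsub : MulAction.orbit ψ.range (pr (L x)) ⊆ PP L {y : W | Nn y.2 ≤ ε * (y.1 3 * y.1 3)} ∪
        (fun g => ψ g • pr (L x)) '' {g : GG | (g • x.1) 3 ≤ Nn x.2 / ε + 1} := by
      intro z hz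
      obtain ⟨g, rfl⟩ := mem_orbit_range.1 hz
      by_cases hg : (g • x.1) 3 ≤ Nn x.2 / ε + 1
      · exact Or.inr ⟨g, hg, rfl⟩
      · left
        rw [h g _ (H7_ne hx), hs.mem L (ne_of_fst (Cn_ne (Cn_smul g _ (H7_fst hx))))]
        push Not at hg
        show Nn x.2 ≤ ε * ((g • x.1) 3 * (g • x.1) 3)
        have a := div_nonneg (Nn_nonneg x.2) hε.le
        have b : Nn x.2 / ε ≤ (g • x.1) 3 * (g • x.1) 3 := by nlinarith
        rwa [div_le_iff₀ hε, mul_comm] at b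
    have h1 := ha.mono (principal_mono.2 hsub)
    rw [← sup_principal, accPt_sup] at h1
    rcases h1 with h1 | h1
    · exact (hs.mem L hy).1 ((hs.isClosed L hcl).closure_subset (h1.clusterPt.mem_closure))
    · exact absurd ((finite_le (H7_fst hx) _).image _) (Set.Infinite.of_accPt h1)
  apply Nn_zero
  apply le_of_forall_pos_le_add
  intro ε hε
  have a := mul_self_nonneg (y.1 3)
  have b := key (ε / (y.1 3 * y.1 3 + 1)) (by positivity)
  have c : ε / (y.1 3 * y.1 3 + 1) * (y.1 3 * y.1 3) ≤ ε := by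
    rw [div_mul_eq_mul_div, div_le_iff₀ (by positivity)]
    nlinarith
  linarith

theorem Act.core7 (h : Act L ψ fun _ v => v) :
    convexCore ψ.range (ph L 0) ((fun y => pr (L y)) '' H7) =
      (fun v : V4 => pr (L (v, (0 : ℝ) • v))) '' Cn := by
  ext x
  constructor
  · rintro ⟨⟨y, hy, rfl⟩, v, hv, hv0, e⟩
    have h1 : (L.symm v).2 = 0 := by
      refine convexHull_min (t := {v : V8 | (L.symm v).2 = 0}) ?_ ?_ hv
      · intro u hu
        rw [mem_chart] at hu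
        have hu0 : u ≠ 0 := by
          rintro rfl
          simp at hu
        exact h.limit_snd (L.symm.map_ne_zero_iff.2 hu0) (by rw [L.apply_symm_apply]; exact hu.2)
      · intro a ha b hb s t _ _ _
        have ha' : (L.symm a).2 = 0 := ha
        have hb' : (L.symm b).2 = 0 := hb
        simp [ha', hb']
    rw [← pr_eq hv0, ← L.apply_symm_apply v] at e
    obtain ⟨t, ht⟩ := pr_L_eq (H7_ne hy) (L.symm.map_ne_zero_iff.2 hv0) e.symm
    have h2 : y.2 = 0 := by rw [← ht, Prod.smul_snd, h1, smul_zero]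
    refine ⟨y.1, H7_fst hy, ?_⟩
    simp only
    rw [zero_smul, ← h2]
  · rintro ⟨v, hv, rfl⟩
    simp only [zero_smul]
    refine ⟨⟨(v, 0), ⟨hv.1, by simpa [Nn] using hv.2⟩, rfl⟩, ?_⟩
    have h0 : ((v, 0) : W) ≠ 0 := ne_of_fst (Cn_ne hv)
    have hu := Cn_pos_smul hv (inv_pos.2 hv.1)
    have u2 : ((v 3)⁻¹ • v) 3 = 1 := inv_mul_cancel₀ hv.1.ne'
    refine ⟨L ((v 3)⁻¹ • v, 0), ?_, L_ne L (ne_of_fst (Cn_ne hu)), ?_⟩
    · generalize (v 3)⁻¹ • v = u at hu u2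
      have b := hu.2
      simp only [Bf, u2] at b
      have r0 : 0 < gr - u 1 * u 1 - u 2 * u 2 := by nlinarith [mul_self_nonneg (u 0)]
      have r1 := Real.sqrt_pos.2 r0
      have r2 := Real.mul_self_sqrt r0.le
      generalize √(gr - u 1 * u 1 - u 2 * u 2) = r at r1 r2
      have r3 : |u 0| < r := abs_lt_of_sq_lt_sq (by nlinarith) r1.le
      rw [abs_lt] at r3
      have m : ∀ s : ℝ, s * s = r * r → L (![s, u 1, u 2, 1], 0) ∈ convexHull ℝ (chart (ph L 0)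
          (orbitalLimitSet ψ.range ((fun y => pr (L y)) '' H7))) := by
        intro s hs
        apply subset_convexHull
        rw [mem_chart, ph_L]
        exact ⟨by simp, h.null_mem (by simp) (by simp [Bf]; linarith)⟩
      have := convex_convexHull ℝ _ (m r rfl) (m (-r) (by ring)) (a := (r + u 0) / (2 * r))
        (b := (r - u 0) / (2 * r)) (div_nonneg (by linarith) (by linarith))
        (div_nonneg (by linarith) (by linarith)) (by field_simp; ring)
      refine (congrArg (· ∈ _) ?_).mpr this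
      rw [← map_smul, ← map_smul, ← map_add]
      congr 1
      refine Prod.ext ?_ (by simp)
      apply ext4 <;> simp [u2] <;> field_simp <;> ring
    · rw [← pr_eq, ← pr_L_smul L h0 (inv_pos.2 hv.1).ne', Prod.smul_mk, smul_zero]

theorem Act.cc (h : Act L ψ fun _ v => v) : CC ψ.range := by
  refine ⟨h.infinite, h.discrete, ph L 0, _, h.domain7, ?_, ?_⟩
  · rw [h.core7]
    exact ⟨_, ee, ee_mem, rfl⟩
  · rw [h.core7]
    exact h.graph_compact 0 fun g v => by simp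

end Pool.Agent.P.MP_7d68c1_gt.Eight
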