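import Pool.Agent.P.MP_7d68c1_gt.TWeil

/-! A torsion-free subgroup of index 240 in the Coxeter group [5,3,4]: matrices and finite checks. -/

open Matrix

namespace Pool.Agent.P.MP_7d68c1_gt.Eight

/-- the ring of integers of the golden field -/
abbrev RR := QuadraticAlgebra ℤ 1 1

/-- the golden ratio -/
def om : RR := ⟨0, 1⟩

/-- three generators and their inverses -/
def xs : Fin 6 → MM RR := ![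
  !![⟨-1, 0⟩, 0, 0, 0; 0, 0, ⟨0, -1⟩, ⟨0, 1⟩; 0, ⟨-1, 0⟩, 0, 0; 0, 0, ⟨-1, 0⟩, ⟨0, 1⟩],
  !![0, ⟨-1, 0⟩, 0, 0; 0, 0, ⟨-1, -2⟩, ⟨-2, -2⟩; 1, 0, 0, 0; 0, 0, ⟨0, 2⟩, ⟨1, 2⟩],
  !![⟨2, 2⟩, ⟨0, -1⟩, 0, ⟨2, 3⟩; 0, 0, 1, 0; ⟨0, 1⟩, ⟨0, -1⟩, 0, ⟨1, 1⟩; ⟨1, 2⟩, ⟨0, -1⟩, 0, ⟨1, 3⟩],
  !![⟨-1, 0⟩, 0, 0, 0; 0, 0, ⟨-1, 0⟩, 0; 0, ⟨0, -1⟩, 0, ⟨0, 1⟩; 0, ⟨-1, 0⟩, 0, ⟨0, 1⟩],
  !![0, 0, 1, 0; ⟨-1, 0⟩, 0, 0, 0; 0, ⟨-1, -2⟩, 0, ⟨-2, -2⟩; 0, ⟨0, 2⟩, 0, ⟨1, 2⟩],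
  !![⟨2, 2⟩, 0, ⟨0, 1⟩, ⟨-2, -3⟩; ⟨0, -1⟩, 0, ⟨0, -1⟩, ⟨1, 1⟩; 0, 1, 0, 0; ⟨-1, -2⟩, 0, ⟨0, -1⟩, ⟨1, 3⟩]]

/-- the form -/
def JJ : MM RR := !![1, 0, 0, 0; 0, 1, 0, 0; 0, 0, 1, 0; 0, 0, 0, ⟨0, -1⟩]

/-- the inverse of the form -/
def JI : MM RR := !![1, 0, 0, 0; 0, 1, 0, 0; 0, 0, 1, 0; 0, 0, 0, ⟨1, -1⟩]

theorem JI_JJ : JI * JJ = 1 := by decide +kernel

theorem xs_inv : ∀ i, xs i * xs (i + 3) = 1 ∧ xs (i + 3) * xs i = 1 := by decide +kernel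

theorem xs_form : ∀ i, (xs i)ᵀ * JJ * xs i = JJ := by decide +kernel

theorem xs_det : ∀ i, (xs i).det = 1 := by
  simp only [det_succ_row_zero (n := 3), det_fin_three]
  decide +kernel

theorem xs_pos : ∀ i, 0 ≤ (xs i 3 3).re ∧ 0 < (xs i 3 3).im := by decide +kernel

/-- left sides of the relations -/
def ru : Fin 3 → List (Fin 3) := ![
  [],
  [0, 0, 2, 1, 0, 0, 1, 0, 1, 0, 0, 1, 1, 1, 0, 0, 1, 0, 0, 2, 0, 0, 1, 0, 0, 1, 1, 1, 0, 0, 1, 0],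
  [2, 0, 1, 2, 0, 2, 1, 2, 0, 2, 0, 0, 1, 0, 0, 2, 0, 2]]

/-- right sides of the relations -/
def rv : Fin 3 → List (Fin 3) := ![
  [2, 0, 2, 1, 0, 0, 1],
  [2],
  [0, 1, 0, 0, 1, 1, 1, 1, 0, 0, 1, 0, 0, 2, 1, 0, 0, 1, 0]]

/-- the three generators -/
def x3 (i : Fin 3) : MM RR := xs (i.castAdd 3)

theorem x3_rel : ∀ j, wd x3 (ru j) = wd x3 (rv j) := by decide +kernel

/-- frames of five cubes -/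
def Ts : Fin 5 → MM RR := ![
  !![1, 0, 0, 0; 0, 1, 0, 0; 0, 0, 1, 0; 0, 0, 0, 1],
  !![⟨0, -1⟩, 0, 0, ⟨0, 1⟩; 0, 1, 0, 0; 0, 0, 1, 0; ⟨-1, 0⟩, 0, 0, ⟨0, 1⟩],
  !![1, 0, 0, 0; 0, ⟨0, -1⟩, 0, ⟨0, -1⟩; 0, 0, 1, 0; 0, 1, 0, ⟨0, 1⟩],
  !![⟨0, -1⟩, ⟨0, -1⟩, 0, ⟨1, 1⟩; 0, ⟨0, -1⟩, 0, ⟨0, 1⟩; 0, 0, 1, 0; ⟨-1, 0⟩, ⟨0, -1⟩, 0, ⟨1, 1⟩],
  !![⟨0, -1⟩, 0, 0, ⟨0, 1⟩; ⟨0, 1⟩, ⟨0, -1⟩, 0, ⟨-1, -1⟩; 0, 0, 1, 0; ⟨0, -1⟩, 1, 0, ⟨1, 1⟩]]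

theorem Ts_form : ∀ i, (Ts i)ᵀ * JJ * Ts i = JJ := by decide +kernel

theorem Ts_pos : ∀ i, 0 ≤ (Ts i 3 3).re ∧ 0 ≤ (Ts i 3 3).im ∧ Ts i 3 3 ≠ 0 := by decide +kernel

/-- the neighbours of the five cubes -/
def nb : Fin 5 → Fin 3 → Fin 2 → Fin 5 × List (Fin 6) := ![
  ![![(1, []), (1, [5, 3, 5])],
    ![(0, [0]), (2, [])],
    ![(0, [3]), (2, [4])]],
  ![![(0, []), (1, [2, 0])],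
    ![(3, []), (3, [2, 0, 2, 3])],
    ![(1, [3, 5]), (0, [2, 0, 2])]],
  ![![(4, []), (2, [1, 0, 0])],
    ![(0, [1]), (0, [])],
    ![(2, [3, 3, 4]), (4, [1, 5, 3, 5, 0, 5, 0, 5, 3, 5])]],
  ![![(1, [0, 5, 3, 5]), (3, [2, 3, 2, 0, 2, 4, 2, 0, 2, 3, 2, 3])],
    ![(1, []), (3, [0, 5, 0, 5, 3, 5, 1, 5, 3, 5, 0, 5])],
    ![(4, [0, 5, 3, 5]), (4, [0, 5, 0, 5, 3, 5])]],
  ![![(2, []), (2, [2, 0, 2, 3, 2, 3, 2, 0, 2, 4])],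
    ![(4, [1, 1, 5, 3, 5, 0, 5, 0, 5, 3, 5]), (3, [2, 0, 2, 3])],
    ![(4, [2, 0, 2, 3, 2, 3, 2, 0, 2, 4, 4]), (3, [2, 0, 2, 3, 2, 3])]]]

theorem nb_spec : ∀ i k s r, (wd xs (nb i k s).2 * Ts (nb i k s).1) r 3 =
    om * (Ts i r 3 + ![1, -1] s * Ts i r k.castSucc) := by decide +kernel

/-- square roots of three translations -/
def hw : Fin 3 → List (Fin 6) := ![
  [2, 0, 2, 0, 2, 2, 0, 2, 0, 2], [0, 4, 0, 4], [3, 1, 3, 1]]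

def ha : RR := ⟨46921, 75920⟩
def hb : RR := ⟨36888, 59684⟩

theorem hw_spec : wd xs (hw 0) * wd xs (hw 0) =
      !![ha, 0, 0, hb * om; 0, 1, 0, 0; 0, 0, 1, 0; hb, 0, 0, ha] ∧
    wd xs (hw 1) * wd xs (hw 1) = !![1, 0, 0, 0; 0, ha, 0, hb * om; 0, 0, 1, 0; 0, hb, 0, ha] ∧
    wd xs (hw 2) * wd xs (hw 2) = !![1, 0, 0, 0; 0, 1, 0, 0; 0, 0, ha, hb * om; 0, 0, hb, ha] := by
  decide +kernel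

theorem ha_hb : ha * ha = 1 + om * (hb * hb) := by decide +kernel

/-- reduction at a prime over 11 -/
def p11 : RR →+* ZMod 11 := (QuadraticAlgebra.lift ⟨8, by decide⟩).toRingHom

/-- reduction at a prime over 19 -/
def p19 : RR →+* ZMod 19 := (QuadraticAlgebra.lift ⟨5, by decide⟩).toRingHom

def PM : MM (ZMod 11) := !![0, 1, 0, 0; 1, 0, 0, 0; 1, 3, 8, 1; 5, 2, 9, 5]
def PI : MM (ZMod 11) := !![0, 1, 0, 0; 1, 0, 0, 0; 1, 0, 3, 6; 0, 10, 10, 7]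

theorem PM_PI : PM * PI = 1 := by decide +kernel

/-- block triangular with two equal unimodular blocks -/
def Blk (N : MM (ZMod 11)) : Prop := N 2 0 = 0 ∧ N 2 1 = 0 ∧ N 3 0 = 0 ∧ N 3 1 = 0 ∧ N 2 2 = N 0 0 ∧
  N 2 3 = N 0 1 ∧ N 3 2 = N 1 0 ∧ N 3 3 = N 1 1 ∧ N 0 0 * N 1 1 - N 0 1 * N 1 0 = 1

theorem xs_blk : ∀ i, Blk (PI * (xs i).map p11 * PM) := by
  unfold Blk
  decide +kernel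

end Pool.Agent.P.MP_7d68c1_gt.Eight
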