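import Pool.Agent.P.MP_7d68c1_gt.TGroup

open scoped MatrixGroups Topology
open Matrix Filter Set

namespace Pool.Agent.P.MP_7d68c1_gt.Eight

/-- square roots of translations along the three coordinate axes -/
noncomputable def dl (k : Fin 3) : GG := wG (hw k)

noncomputable def aa : ℝ := sg ha
noncomputable def bb : ℝ := sg hb

theorem aa_sq : aa * aa = 1 + gr * (bb * bb) := by
  have := congrArg sg ha_hb
  simpa only [map_mul, map_add, map_one, sg_om, aa, bb] using this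

theorem bb_ge : 4 ≤ bb := by
  simp only [bb, hb, sg_apply]
  push_cast
  linarith [gr_pos]

theorem aa_pos : 0 < aa := by
  simp only [aa, ha, sg_apply]
  push_cast
  linarith [gr_pos]

theorem bb_le : bb ≤ aa :=
  abs_le_of_sq_le_sq' (by nlinarith [aa_sq, gr_lo, mul_self_nonneg bb]) aa_pos.le |>.2

theorem aa_lt : 2 * aa < bb * gr + bb := by
  have h1 : 16 ≤ bb * bb := by nlinarith [bb_ge]
  have h2 : (bb * gr + bb) ^ 2 = (3 * gr + 2) * (bb * bb) := by
    linear_combination (bb * bb) * gr_sq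
  refine lt_of_pow_lt_pow_left₀ 2 (by nlinarith [bb_ge, gr_pos]) ?_
  nlinarith [aa_sq, gr_hi]

theorem dl_smul (k : Fin 3) (v : V4) :
    (dl k * dl k) • v = (wd xs (hw k) * wd xs (hw k)).map sg *ᵥ v := by
  rw [smul_eq, mt_mul, dl, mt_wG, Matrix.map_mul]

theorem h0_smul (v : V4) :
    (dl 0 * dl 0) • v = ![aa * v 0 + bb * gr * v 3, v 1, v 2, bb * v 0 + aa * v 3] := by
  rw [dl_smul, hw_spec.1]
  apply ext4 <;> simp [mulVec, dotProduct, Fin.sum_univ_four, aa, bb, sg_om]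

theorem h1_smul (v : V4) :
    (dl 1 * dl 1) • v = ![v 0, aa * v 1 + bb * gr * v 3, v 2, bb * v 1 + aa * v 3] := by
  rw [dl_smul, hw_spec.2.1]
  apply ext4 <;> simp [mulVec, dotProduct, Fin.sum_univ_four, aa, bb, sg_om]

theorem h2_smul (v : V4) :
    (dl 2 * dl 2) • v = ![v 0, v 1, aa * v 2 + bb * gr * v 3, bb * v 2 + aa * v 3] := by
  rw [dl_smul, hw_spec.2.2]
  apply ext4 <;> simp [mulVec, dotProduct, Fin.sum_univ_four, aa, bb, sg_om]

theorem h0_inv (v : V4) :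
    (dl 0 * dl 0)⁻¹ • v = ![aa * v 0 - bb * gr * v 3, v 1, v 2, -bb * v 0 + aa * v 3] := by
  rw [inv_smul_eq_iff, h0_smul]
  apply ext4 <;> simp
  · linear_combination (-v 0) * aa_sq
  · linear_combination (-v 3) * aa_sq

theorem h1_inv (v : V4) :
    (dl 1 * dl 1)⁻¹ • v = ![v 0, aa * v 1 - bb * gr * v 3, v 2, -bb * v 1 + aa * v 3] := by
  rw [inv_smul_eq_iff, h1_smul]
  apply ext4 <;> simp
  · linear_combination (-v 1) * aa_sq
  · linear_combination (-v 3) * aa_sq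

/-- the cone as a set with an action -/
def Cs : SubMulAction GG V4 := ⟨Cn, fun g _ hv => Cn_smul g _ hv⟩

theorem free_two : ∃ f : FreeGroup (Fin 2) →* GG, Function.Injective f := by
  let a : Fin 2 → GG := ![dl 0 * dl 0, dl 1 * dl 1]
  let X : Fin 2 → Set Cs := ![{v | v.1 3 < 1 * v.1 0}, {v | v.1 3 < 1 * v.1 1}]
  let Y : Fin 2 → Set Cs := ![{v | v.1 3 < -1 * v.1 0}, {v | v.1 3 < -1 * v.1 1}]
  have hd : ∀ (v : Cs) (σ τ : ℝ), σ * σ = 1 → τ * τ = 1 → v.1 3 < σ * v.1 0 →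
      v.1 3 < τ * v.1 1 → False := by
    rintro ⟨v, a, b⟩ σ τ h1 h2 h3 h4
    simp only [Bf] at b h3 h4
    have k1 : (v 3) ^ 2 ≤ (σ * v 0) ^ 2 := by gcongr
    have k2 : (v 3) ^ 2 ≤ (τ * v 1) ^ 2 := by gcongr
    have k3 : (σ * v 0) ^ 2 = v 0 * v 0 := by linear_combination (v 0 * v 0) * h1
    have k4 : (τ * v 1) ^ 2 = v 1 * v 1 := by linear_combination (v 1 * v 1) * h2
    have := mul_le_mul_of_nonneg_right gr_hi.le (mul_self_nonneg (v 3))
    nlinarith [mul_self_nonneg (v 2), mul_self_nonneg (v 3)]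
  have pp : ∀ x t : ℝ, 0 < t → -x ≤ t → bb * x + aa * t < aa * x + bb * gr * t := fun x t h1 h2 => by
    nlinarith [mul_nonneg (sub_nonneg.2 bb_le) (sub_nonneg.2 h2), mul_pos (sub_pos.2 aa_lt) h1]
  refine ⟨FreeGroup.lift a, FreeGroup.injective_lift_of_ping_pong a X Y ?_ ?_ ?_ ?_ ?_ ?_⟩
  · intro i
    fin_cases i
    · exact ⟨⟨![5, 0, 0, 4], by simp, by simp [Bf]; linarith [gr_lo]⟩, by simp [X]; norm_num⟩
    · exact ⟨⟨![0, 5, 0, 4], by simp, by simp [Bf]; linarith [gr_lo]⟩, by simp [X]; norm_num⟩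
  · intro i j hij
    fin_cases i <;> fin_cases j
    · exact absurd rfl hij
    · exact Set.disjoint_left.2 fun v h1 h2 => hd v 1 1 (by norm_num) (by norm_num) h1 h2
    · exact Set.disjoint_left.2 fun v h1 h2 => hd v 1 1 (by norm_num) (by norm_num) h2 h1
    · exact absurd rfl hij
  · intro i j hij
    fin_cases i <;> fin_cases j
    · exact absurd rfl hij
    · exact Set.disjoint_left.2 fun v h1 h2 => hd v (-1) (-1) (by norm_num) (by norm_num) h1 h2
    · exact Set.disjoint_left.2 fun v h1 h2 => hd v (-1) (-1) (by norm_num) (by norm_num) h2 h1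
    · exact absurd rfl hij
  · intro i j
    fin_cases i <;> fin_cases j
    · refine Set.disjoint_left.2 fun v h1 h2 => ?_
      have a1 : v.1 3 < 1 * v.1 0 := h1
      have a2 : v.1 3 < -1 * v.1 0 := h2
      linarith [v.2.1]
    · exact Set.disjoint_left.2 fun v h1 h2 => hd v 1 (-1) (by norm_num) (by norm_num) h1 h2
    · exact Set.disjoint_left.2 fun v h1 h2 => hd v (-1) 1 (by norm_num) (by norm_num) h2 h1
    · refine Set.disjoint_left.2 fun v h1 h2 => ?_
      have a1 : v.1 3 < 1 * v.1 1 := h1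
      have a2 : v.1 3 < -1 * v.1 1 := h2
      linarith [v.2.1]
  · intro i
    fin_cases i
    · rintro _ ⟨v, hv, rfl⟩
      have a1 : ¬ v.1 3 < -1 * v.1 0 := hv
      show ((dl 0 * dl 0) • v.1) 3 < 1 * ((dl 0 * dl 0) • v.1) 0
      simp only [h0_smul, cons_val_zero, cons_val]
      linarith [pp (v.1 0) (v.1 3) v.2.1 (by linarith)]
    · rintro _ ⟨v, hv, rfl⟩
      have a1 : ¬ v.1 3 < -1 * v.1 1 := hv
      show ((dl 1 * dl 1) • v.1) 3 < 1 * ((dl 1 * dl 1) • v.1) 1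
      simp only [h1_smul, cons_val_zero, cons_val_one, cons_val]
      linarith [pp (v.1 1) (v.1 3) v.2.1 (by linarith)]
  · intro i
    fin_cases i
    · rintro _ ⟨v, hv, rfl⟩
      have a1 : ¬ v.1 3 < 1 * v.1 0 := hv
      show ((dl 0 * dl 0)⁻¹ • v.1) 3 < -1 * ((dl 0 * dl 0)⁻¹ • v.1) 0
      simp only [h0_inv, cons_val_zero, cons_val]
      linarith [pp (-v.1 0) (v.1 3) v.2.1 (by linarith)]
    · rintro _ ⟨v, hv, rfl⟩
      have a1 : ¬ v.1 3 < 1 * v.1 1 := hv
      show ((dl 1 * dl 1)⁻¹ • v.1) 3 < -1 * ((dl 1 * dl 1)⁻¹ • v.1) 1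
      simp only [h1_inv, cons_val_zero, cons_val_one, cons_val]
      linarith [pp (-v.1 1) (v.1 3) v.2.1 (by linarith)]

instance : Infinite GG := by
  obtain ⟨f, hf⟩ := free_two
  exact Infinite.of_injective f hf

end Pool.Agent.P.MP_7d68c1_gt.Eight
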