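import Pool.Agent.P.MP_7d68c1_gt.TData

open scoped MatrixGroups Topology
open Matrix Filter Set

namespace Pool.Agent.P.MP_7d68c1_gt.Eight

abbrev V4 := Fin 4 → ℝ
abbrev M4 := MM ℝ

theorem ext4 {v w : V4} (h0 : v 0 = w 0) (h1 : v 1 = w 1) (h2 : v 2 = w 2) (h3 : v 3 = w 3) :
    v = w := by
  funext i
  fin_cases i
  exacts [h0, h1, h2, h3]

/-- the golden ratio as a real number -/
noncomputable def gr : ℝ := Real.goldenRatio

theorem gr_sq : gr * gr = gr + 1 := by rw [← sq]; exact Real.goldenRatio_sq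

theorem gr_pos : 0 < gr := Real.goldenRatio_pos

theorem gr_lo : 8 / 5 < gr := by nlinarith [gr_sq, gr_pos]

theorem gr_hi : gr < 13 / 8 := by nlinarith [gr_sq, gr_pos]

/-- the first real place -/
noncomputable def sg : RR →+* ℝ := (QuadraticAlgebra.lift ⟨gr, by simp [gr_sq, add_comm]⟩).toRingHom

/-- the second real place -/
noncomputable def sg' : RR →+* ℝ :=
  (QuadraticAlgebra.lift ⟨1 - gr, by simp; linear_combination gr_sq⟩).toRingHom

theorem sg_apply (z : RR) : sg z = z.re + z.im * gr := by simp [sg]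

theorem sg'_apply (z : RR) : sg' z = z.re + z.im * (1 - gr) := by simp [sg']

theorem gr_indep {a b : ℤ} (h : a + b * gr = 0) : a = 0 ∧ b = 0 := by
  have hb : b = 0 := by
    by_contra hb
    refine Real.goldenRatio_irrational.ne_rational (-a) b ?_
    have : (b : ℝ) ≠ 0 := by exact_mod_cast hb
    change gr = _
    push_cast
    field_simp
    linarith
  subst hb
  exact ⟨by simpa using h, rfl⟩

theorem sg_inj : Function.Injective sg := (injective_iff_map_eq_zero sg).2 fun z h => by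
  rw [sg_apply] at h
  exact QuadraticAlgebra.ext (gr_indep h).1 (gr_indep h).2

theorem sg'_inj : Function.Injective sg' := (injective_iff_map_eq_zero sg').2 fun z h => by
  rw [sg'_apply] at h
  have := gr_indep (a := z.re + z.im) (b := -z.im) (by push_cast; linarith)
  exact QuadraticAlgebra.ext (show z.re = 0 by omega) (show z.im = 0 by omega)

theorem sg_om : sg om = gr := by simp [sg_apply, om]

/-- the Lorentzian form -/
noncomputable def Bf (v w : V4) : ℝ := v 0 * w 0 + v 1 * w 1 + v 2 * w 2 - gr * (v 3 * w 3)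

/-- the future cone -/
def Cn : Set V4 := {v | 0 < v 3 ∧ Bf v v < 0}

theorem Bf_comm (v w : V4) : Bf v w = Bf w v := by simp only [Bf]; ring

theorem Bf_sm (t : ℝ) (v : V4) : Bf (t • v) (t • v) = t * t * Bf v v := by
  simp [Bf]; ring

theorem Bf_eq (v w : V4) : Bf v w = v ⬝ᵥ (JJ.map sg *ᵥ w) := by
  simp [Bf, JJ, dotProduct, mulVec, Fin.sum_univ_four,
    show sg ⟨0, -1⟩ = -gr by simp [sg_apply]]
  ring

theorem iso_of {A : MM RR} (h : Aᵀ * JJ * A = JJ) (v w : V4) :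
    Bf (A.map sg *ᵥ v) (A.map sg *ᵥ w) = Bf v w := by
  rw [Bf_eq, Bf_eq, ← vecMul_transpose, ← dotProduct_mulVec, mulVec_mulVec, mulVec_mulVec,
    ← transpose_map, ← Matrix.map_mul, ← Matrix.map_mul, h]

theorem continuous_Bf : Continuous fun v : V4 => Bf v v := by
  unfold Bf
  fun_prop

theorem isOpen_Cn : IsOpen Cn :=
  (isOpen_lt continuous_const (continuous_apply 3)).inter (isOpen_lt continuous_Bf continuous_const)

theorem Cn_abs {v : V4} (hv : v ∈ Cn) (i : Fin 4) : |v i| ≤ 2 * v 3 := by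
  obtain ⟨a, b⟩ := hv
  simp only [Bf] at b
  have h := mul_le_mul_of_nonneg_right gr_hi.le (mul_self_nonneg (v 3))
  have h0 := mul_self_nonneg (v 0)
  have h1 := mul_self_nonneg (v 1)
  have h2 := mul_self_nonneg (v 2)
  refine abs_le_of_sq_le_sq' ?_ (by linarith) |> abs_le.2
  fin_cases i
  · simp only [Fin.zero_eta]; nlinarith
  · simp only [Fin.mk_one]; nlinarith
  · simp only [Fin.reduceFinMk]; nlinarith
  · simp only [Fin.reduceFinMk]; nlinarith

theorem Cn_pos_smul {v : V4} (hv : v ∈ Cn) {t : ℝ} (ht : 0 < t) : t • v ∈ Cn := by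
  refine ⟨mul_pos ht hv.1, ?_⟩
  rw [Bf_sm]
  exact mul_neg_of_pos_of_neg (mul_pos ht ht) hv.2

theorem Bf_neg {v w : V4} (hv : v ∈ Cn) (hw : w ∈ Cn) : Bf v w < 0 := by
  obtain ⟨a, b⟩ := hv
  obtain ⟨c, d⟩ := hw
  simp only [Bf] at b d ⊢
  by_contra h
  push Not at h
  have k1 := mul_nonneg (mul_pos a c).le h
  have k2 := mul_pos (mul_pos c c) (neg_pos.2 b)
  have k3 := mul_pos (mul_pos a a) (neg_pos.2 d)
  nlinarith [mul_self_nonneg (w 3 * v 0 - v 3 * w 0), mul_self_nonneg (w 3 * v 1 - v 3 * w 1),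
    mul_self_nonneg (w 3 * v 2 - v 3 * w 2)]

theorem Cn_add {v w : V4} (hv : v ∈ Cn) (hw : w ∈ Cn) : v + w ∈ Cn := by
  refine ⟨add_pos hv.1 hw.1, ?_⟩
  have : Bf (v + w) (v + w) = Bf v v + 2 * Bf v w + Bf w w := by simp [Bf]; ring
  rw [this]
  linarith [hv.2, hw.2, Bf_neg hv hw]

theorem Cn_ne {v : V4} (hv : v ∈ Cn) : v ≠ 0 := by
  rintro rfl
  simpa using hv.1

/-- the base vector -/
def ee : V4 := ![0, 0, 0, 1]

theorem Bf_ee (v : V4) : Bf v ee = -(gr * v 3) := by simp [Bf, ee]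

theorem Bf_ee_ee : Bf ee ee = -gr := by simp [Bf, ee]

theorem ee_mem : ee ∈ Cn := ⟨by simp [ee], by rw [Bf_ee_ee]; linarith [gr_pos]⟩

theorem mulVec_ee (M : M4) (i : Fin 4) : (M *ᵥ ee) i = M i 3 := by
  simp [mulVec, dotProduct, Fin.sum_univ_four, ee]

theorem mem_of_neg {v : V4} (h : Bf v v < 0) (h' : Bf v ee < 0) : v ∈ Cn := by
  rw [Bf_ee] at h'
  exact ⟨(mul_pos_iff_of_pos_left gr_pos).1 (by linarith), h⟩

/-- the generators as real matrices -/
noncomputable def us (i : Fin 6) : GL (Fin 4) ℝ :=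
  ⟨(xs i).map sg, (xs (i + 3)).map sg, by rw [← Matrix.map_mul, (xs_inv i).1]; simp,
    by rw [← Matrix.map_mul, (xs_inv i).2]; simp⟩

/-- the group -/
noncomputable def GG : Subgroup (GL (Fin 4) ℝ) := Subgroup.closure (Set.range us)

noncomputable def gen (i : Fin 6) : GG := ⟨us i, Subgroup.subset_closure ⟨i, rfl⟩⟩

/-- the matrix of an element -/
def mt (g : GG) : M4 := (g.1 : M4)

theorem mt_mul (g h : GG) : mt (g * h) = mt g * mt h := rfl
theorem mt_one : mt 1 = 1 := rfl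
theorem mt_gen (i : Fin 6) : mt (gen i) = (xs i).map sg := rfl
theorem smul_eq (g : GG) (v : V4) : g • v = mt g *ᵥ v := rfl
theorem mt_inj {g h : GG} (e : mt g = mt h) : g = h := Subtype.ext (Units.ext e)

theorem g_smul (g : GG) (t : ℝ) (v : V4) : g • (t • v) = t • (g • v) := by
  rw [smul_eq, smul_eq, mulVec_smul]

theorem gen_inv (i : Fin 6) : (gen i)⁻¹ = gen (i + 3) := mt_inj rfl

theorem g_ext {g h : GG} (e : ∀ v : V4, g • v = h • v) : g = h := by
  apply mt_inj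
  ext i j
  simpa [smul_eq] using congrFun (e (Pi.single j 1)) i

theorem g_ind {p : GG → Prop} (h0 : p 1) (h1 : ∀ i g, p g → p (gen i * g)) (g : GG) : p g := by
  obtain ⟨g, hg⟩ := g
  induction hg using Subgroup.closure_induction_left with
  | one => exact h0
  | mul_left x hx y hy ih =>
    obtain ⟨i, rfl⟩ := hx
    exact h1 i _ ih
  | inv_mul_cancel x hx y hy ih =>
    obtain ⟨i, rfl⟩ := hx
    have := h1 (i + 3) _ ih
    rwa [← gen_inv] at this

/-- the element given by a word -/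
noncomputable def wG (l : List (Fin 6)) : GG := (l.map gen).prod

theorem mt_wG (l : List (Fin 6)) : mt (wG l) = (wd xs l).map sg := by
  induction l with
  | nil => simp [wG, wd_nil, mt_one]
  | cons i l ih => rw [wd_cons, Matrix.map_mul, ← ih, ← mt_gen, ← mt_mul]; simp [wG]

theorem Blk.mul {M N : MM (ZMod 11)} (h : Blk M) (k : Blk N) : Blk (M * N) := by
  obtain ⟨a1, a2, a3, a4, a5, a6, a7, a8, a9⟩ := h
  obtain ⟨b1, b2, b3, b4, b5, b6, b7, b8, b9⟩ := k
  simp only [Blk, mul_apply, Fin.sum_univ_four, a1, a2, a3, a4, a5, a6, a7, a8, b1, b2, b3, b4, b5,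
    b6, b7, b8, mul_zero, zero_mul, add_zero, zero_add, true_and]
  linear_combination (N 0 0 * N 1 1 - N 0 1 * N 1 0) * a9 + b9

theorem exists_lift (g : GG) : ∃ A : MM RR, mt g = A.map sg ∧ Aᵀ * JJ * A = JJ ∧ A.det = 1 ∧
    Blk (PI * A.map p11 * PM) := by
  induction g using g_ind with
  | h0 => exact ⟨1, by simp [mt_one], by simp, det_one, by unfold Blk; decide +kernel⟩
  | h1 i g ih =>
    obtain ⟨A, a1, a2, a3, a4⟩ := ih
    refine ⟨xs i * A, by rw [mt_mul, a1, mt_gen, Matrix.map_mul], ?_,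
      by rw [det_mul, a3, xs_det, mul_one], ?_⟩
    · rw [transpose_mul, mul_assoc, mul_assoc, ← mul_assoc JJ, ← mul_assoc (xs i)ᵀ,
        ← mul_assoc (xs i)ᵀ, xs_form, ← mul_assoc, a2]
    · have := (xs_blk i).mul a4
      rwa [mul_assoc, mul_assoc, ← mul_assoc PM, ← mul_assoc PM, PM_PI, one_mul,
        ← mul_assoc (Matrix.map _ _), ← Matrix.map_mul, ← mul_assoc] at this

theorem Bf_smul (g : GG) (v w : V4) : Bf (g • v) (g • w) = Bf v w := by
  obtain ⟨A, a1, a2, -⟩ := exists_lift g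
  rw [smul_eq, smul_eq, a1, iso_of a2]

theorem gen_ee (i : Fin 6) : gen i • ee ∈ Cn := by
  refine ⟨?_, by rw [Bf_smul]; exact ee_mem.2⟩
  rw [smul_eq, mulVec_ee, mt_gen, map_apply, sg_apply]
  have a : (0 : ℝ) ≤ (xs i 3 3).re := by exact_mod_cast (xs_pos i).1
  have b : (0 : ℝ) < (xs i 3 3).im := by exact_mod_cast (xs_pos i).2
  linarith [mul_pos b gr_pos]

theorem Cn_smul (g : GG) : ∀ v ∈ Cn, g • v ∈ Cn := by
  induction g using g_ind with
  | h0 => intro v hv; simpa using hv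
  | h1 i g ih =>
    intro v hv
    refine mem_of_neg (by rw [Bf_smul]; exact hv.2) ?_
    rw [← Bf_smul (gen i)⁻¹, mul_smul, inv_smul_smul, gen_inv]
    exact Bf_neg (ih v hv) (gen_ee _)

theorem conj_bound {A : MM RR} (h : Aᵀ * JJ * A = JJ) (i j : Fin 4) : |sg' (A i j)| ≤ 2 := by
  have h1 := congrArg sg' (congrFun (congrFun h j) j)
  have h2 : sg' (JJ j j) ≤ 1 := by
    fin_cases j <;> simp [JJ, show sg' ⟨0, -1⟩ = gr - 1 by simp [sg'_apply]]
    linarith [gr_hi]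
  rw [← h1] at h2
  simp [JJ, mul_apply, Fin.sum_univ_four] at h2
  rw [show sg' ⟨0, -1⟩ = gr - 1 by simp [sg'_apply]] at h2
  have h3 := mul_le_mul_of_nonneg_right gr_lo.le (mul_self_nonneg (sg' (A 3 j)))
  have k0 := mul_self_nonneg (sg' (A 0 j))
  have k1 := mul_self_nonneg (sg' (A 1 j))
  have k2 := mul_self_nonneg (sg' (A 2 j))
  have k3 := mul_self_nonneg (sg' (A 3 j))
  refine abs_le_of_sq_le_sq' ?_ (by norm_num) |> abs_le.2
  fin_cases i
  · simp only [Fin.zero_eta]; nlinarith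
  · simp only [Fin.mk_one]; nlinarith
  · simp only [Fin.reduceFinMk]; nlinarith
  · simp only [Fin.reduceFinMk]; nlinarith

theorem finite_RR (C : ℝ) : {z : RR | |sg z| ≤ C ∧ |sg' z| ≤ 2}.Finite := by
  obtain ⟨N, hN⟩ := exists_nat_ge (3 * C + 6)
  refine (((Set.finite_Icc (-(N : ℤ)) N).prod (Set.finite_Icc (-(N : ℤ)) N)).image
    fun p => (⟨p.1, p.2⟩ : RR)).subset ?_
  rintro z ⟨h1, h2⟩
  have hC := (abs_nonneg _).trans h1
  rw [sg_apply, abs_le] at h1
  rw [sg'_apply, abs_le] at h2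
  have lo := gr_lo
  have hi := gr_hi
  have b1 : (z.im : ℝ) ≤ C + 2 := by nlinarith
  have b2 : -(C + 2) ≤ (z.im : ℝ) := by nlinarith
  have c1 : (z.re : ℝ) ≤ N := by nlinarith
  have c2 : -(N : ℝ) ≤ z.re := by nlinarith
  have c3 : (z.im : ℝ) ≤ N := by linarith
  have c4 : -(N : ℝ) ≤ z.im := by linarith
  exact ⟨(z.re, z.im), ⟨⟨by exact_mod_cast c2, by exact_mod_cast c1⟩, by exact_mod_cast c4,
    by exact_mod_cast c3⟩, rfl⟩

theorem finite_le {v : V4} (hv : v ∈ Cn) (R : ℝ) : {g : GG | (g • v) 3 ≤ R}.Finite := by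
  obtain ⟨ε, hε, hb⟩ := Metric.isOpen_iff.1 isOpen_Cn v hv
  have hp : ∀ (j : Fin 4) (t : ℝ), |t| < ε → v + t • (Pi.single j 1 : V4) ∈ Cn := by
    intro j t ht
    apply hb
    rw [mem_ball_iff_norm, add_sub_cancel_left, norm_smul, Pi.norm_single, norm_one, mul_one]
    exact ht
  have hfin := (finite_RR (8 * R / ε)).image sg
  have h2 : {A : M4 | ∀ i j, A i j ∈ sg '' {z : RR | |sg z| ≤ 8 * R / ε ∧ |sg' z| ≤ 2}}.Finite :=
    Set.Finite.pi' (t := fun _ => {r : V4 | ∀ j, r j ∈ sg '' {z | |sg z| ≤ 8 * R / ε ∧ |sg' z| ≤ 2}})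
      fun _ => Set.Finite.pi' fun _ => hfin
  refine (h2.preimage (f := mt) fun g _ h _ e => mt_inj e).subset ?_
  intro g hg i j
  obtain ⟨A, a1, a2, -⟩ := exists_lift g
  have a3 : sg (A i j) = mt g i j := by rw [a1]; rfl
  refine ⟨A i j, ⟨?_, conj_bound a2 i j⟩, a3⟩
  have hg' : (g • v) 3 ≤ R := hg
  have e : ∀ (t : ℝ) (k : Fin 4), (g • (v + t • (Pi.single j 1 : V4))) k = (g • v) k + t * mt g k j := by
    intro t k
    simp [smul_eq, mulVec_smul]
  have a1 := Cn_smul g _ (hp j (ε / 2) (by rw [abs_of_pos] <;> linarith))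
  have a2 := Cn_smul g _ (hp j (-(ε / 2)) (by rw [abs_neg, abs_of_pos] <;> linarith))
  have b1 := abs_le.1 (Cn_abs a1 i)
  have b2 := abs_le.1 (Cn_abs a2 i)
  simp only [e] at b1 b2
  rw [a3, le_div_iff₀ hε, ← abs_of_pos hε, ← abs_mul, abs_le]
  have hR : 0 ≤ R := (Cn_smul g v hv).1.le.trans hg'
  constructor <;> nlinarith [b1.1, b1.2, b2.1, b2.2]

theorem finite_B {v w : V4} (hv : v ∈ Cn) (hw : w ∈ Cn) (R : ℝ) :
    {g : GG | -Bf (g • v) w ≤ R}.Finite := by
  have h1 : Continuous fun t : ℝ => w - t • ee := by fun_prop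
  obtain ⟨δ, hδ, h2⟩ := Metric.eventually_nhds_iff.1
    ((h1.tendsto' 0 w (by simp)).eventually (isOpen_Cn.mem_nhds hw))
  have h3 := h2 (y := δ / 2) (by rw [Real.dist_eq, sub_zero, abs_of_pos] <;> linarith)
  refine (finite_le hv (R / (δ / 2 * gr))).subset fun g hg => ?_
  have h4 := Bf_neg (Cn_smul g v hv) h3
  have h5 : Bf (g • v) (w - (δ / 2) • ee) = Bf (g • v) w + (g • v) 3 * (δ / 2 * gr) := by
    simp [Bf, ee]; ring
  have h6 : -Bf (g • v) w ≤ R := hg
  show (g • v) 3 ≤ _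
  rw [le_div_iff₀ (mul_pos (half_pos hδ) gr_pos)]
  linarith

theorem Ts_ee (i : Fin 5) : (Ts i).map sg *ᵥ ee ∈ Cn := by
  refine ⟨?_, by rw [iso_of (Ts_form i)]; exact ee_mem.2⟩
  rw [mulVec_ee, map_apply]
  refine lt_of_le_of_ne ?_ fun e => (Ts_pos i).2.2 (sg_inj (by rw [← e, map_zero]))
  have a : (0 : ℝ) ≤ (Ts i 3 3).re := by exact_mod_cast (Ts_pos i).1
  have b : (0 : ℝ) ≤ (Ts i 3 3).im := by exact_mod_cast (Ts_pos i).2.1
  rw [sg_apply]
  linarith [mul_nonneg b gr_pos.le]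

theorem descent : ∃ C : ℝ, 0 < C ∧ ∀ v ∈ Cn, ∃ g : GG, (g • v) 3 * (g • v) 3 ≤ C * -Bf v v := by
  let c : Fin 5 → V4 := fun i => (Ts i).map sg *ᵥ ee
  let D : ℝ := ∑ i, ∑ k, |sg (Ts i 3 k)|
  refine ⟨12 * (D * D) + 1, by nlinarith [mul_self_nonneg D], fun v hv => ?_⟩
  have hf : {p : GG × Fin 5 | -Bf (p.1 • v) (c p.2) ≤ -Bf v (c 0)}.Finite := by
    refine ((Set.finite_iUnion fun i => finite_B hv (Ts_ee i) (-Bf v (c 0))).prod
      Set.finite_univ).subset ?_
    exact fun p hp => ⟨mem_iUnion.2 ⟨p.2, hp⟩, trivial⟩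
  obtain ⟨⟨g, i⟩, hg, hmin⟩ := Set.exists_min_image _ (fun p : GG × Fin 5 => -Bf (p.1 • v) (c p.2)) hf
    ⟨(1, 0), by simp⟩
  have key : ∀ (h : GG) j, -Bf (g • v) (c i) ≤ -Bf (g • v) (h • c j) := by
    intro h j
    rw [← Bf_smul h⁻¹ _ (h • _), inv_smul_smul, ← mul_smul]
    by_contra h1
    push Not at h1
    exact absurd (hmin (h⁻¹ * g, j) (h1.le.trans hg)) (not_le.2 h1)
  refine ⟨g, ?_⟩
  rw [← Bf_smul g]
  have hx := Cn_smul g v hv
  generalize g • v = x at key hx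
  obtain ⟨y, rfl⟩ : ∃ y, x = (Ts i).map sg *ᵥ y := by
    refine ⟨(JI * (Ts i)ᵀ * JJ).map sg *ᵥ x, ?_⟩
    rw [mulVec_mulVec, ← Matrix.map_mul, mul_eq_one_comm.1 (by
      rw [mul_assoc, mul_assoc, ← mul_assoc (Ts i)ᵀ, Ts_form, JI_JJ])]
    simp
  have iso := iso_of (Ts_form i)
  have hy : y ∈ Cn := mem_of_neg (iso y y ▸ hx.2) (iso y ee ▸ Bf_neg hx (Ts_ee i))
  have k1 : ∀ (k : Fin 3) (s : Fin 2), (![1, -1] : Fin 2 → ℝ) s * y k.castSucc ≤ (gr - 1) * y 3 := by
    intro k s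
    have h1 := key (wG (nb i k s).2) (nb i k s).1
    have h2 : wG (nb i k s).2 • c (nb i k s).1 = (Ts i).map sg *ᵥ
        (gr • (ee + (![1, -1] : Fin 2 → ℝ) s • (Pi.single k.castSucc 1 : V4))) := by
      funext r
      rw [smul_eq, mt_wG, mulVec_mulVec, ← Matrix.map_mul, mulVec_ee, map_apply, nb_spec,
        mulVec_smul, mulVec_add, mulVec_smul]
      fin_cases s <;> simp [mulVec_ee, sg_om]
    rw [h2, iso, iso, Bf_ee] at h1
    have h3 : Bf y (gr • (ee + (![1, -1] : Fin 2 → ℝ) s • (Pi.single k.castSucc 1 : V4))) =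
        gr * (![1, -1] s * y k.castSucc - gr * y 3) := by
      generalize (![1, -1] : Fin 2 → ℝ) s = σ
      fin_cases k <;> simp [Bf, ee, Fin.castSucc, Fin.castAdd, Fin.castLE, vecHead, vecTail] <;> ring
    rw [h3] at h1
    refine le_of_mul_le_mul_left ?_ gr_pos
    linarith
  have k2 : ∀ k : Fin 3, y k.castSucc * y k.castSucc ≤ (2 - gr) * (y 3 * y 3) := by
    intro k
    have a := k1 k 0
    have b := k1 k 1
    simp only [cons_val_zero, cons_val_one, one_mul, neg_mul] at a b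
    have := mul_nonneg (sub_nonneg.2 a) (sub_nonneg.2 b)
    have e : (gr - 1) * y 3 * ((gr - 1) * y 3) = (2 - gr) * (y 3 * y 3) := by
      linear_combination (y 3 * y 3) * gr_sq
    nlinarith
  have k3 : y 3 * y 3 ≤ 3 * -Bf y y := by
    have a : y 0 * y 0 ≤ _ := k2 0
    have b : y 1 * y 1 ≤ _ := k2 1
    have c : y 2 * y 2 ≤ _ := k2 2
    have := mul_le_mul_of_nonneg_right gr_lo.le (mul_self_nonneg (y 3))
    simp only [Bf]
    nlinarith [mul_self_nonneg (y 3)]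
  have k4 : ((Ts i).map sg *ᵥ y) 3 ≤ D * (2 * y 3) := by
    calc _ = ∑ k, sg (Ts i 3 k) * y k := rfl
      _ ≤ ∑ k, |sg (Ts i 3 k)| * (2 * y 3) := Finset.sum_le_sum fun k _ =>
          (le_abs_self _).trans (by rw [abs_mul]; gcongr; exact Cn_abs hy k)
      _ ≤ _ := by
          rw [← Finset.sum_mul]
          refine mul_le_mul_of_nonneg_right ?_ (by linarith [hy.1])
          exact Finset.single_le_sum (f := fun i => ∑ k, |sg (Ts i 3 k)|)
            (fun _ _ => Finset.sum_nonneg fun _ _ => abs_nonneg _) (Finset.mem_univ i)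
  rw [iso]
  have k5 := mul_self_le_mul_self hx.1.le k4
  have k6 := mul_le_mul_of_nonneg_left k3 (mul_self_nonneg D)
  nlinarith [hy.2]

end Pool.Agent.P.MP_7d68c1_gt.Eight
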