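import Pool.Agent.P.MP_7d68c1_gt.TModel

open scoped LinearAlgebra.Projectivization MatrixGroups Topology
open Matrix Filter Set

namespace Pool.Agent.P.MP_7d68c1_gt.Eight

theorem nested {Γ : Subgroup PGL(8, ℝ)} {C : Set P8} (h : CompactQuotient Γ C) (D : ℕ → Set P8)
    (hcl : ∀ n, IsClosed (D n)) (hdec : ∀ n, D (n + 1) ⊆ D n)
    (hinv : ∀ n, ∀ g ∈ Γ, ∀ x ∈ D n, g • x ∈ D n) (hne : ∀ n, (C ∩ D n).Nonempty) :
    ∃ x ∈ C, ∀ n, x ∈ D n := by
  unfold CompactQuotient at h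
  let S := (MulAction.orbitRel Γ P8).comap (Subtype.val : C → _)
  let E : ℕ → Set (Quotient S) := fun n => Quotient.mk S '' (Subtype.val ⁻¹' D n)
  have hpre : ∀ n, Quotient.mk S ⁻¹' E n = Subtype.val ⁻¹' D n := by
    intro n
    ext x
    constructor
    · rintro ⟨z, hz, e⟩
      obtain ⟨⟨g, hg⟩, e'⟩ := Quotient.exact e.symm
      have e2 : g • z.1 = x.1 := e'
      rw [mem_preimage, ← e2]
      exact hinv n g hg _ hz
    · intro hx
      exact ⟨x, hx, rfl⟩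
  have hE : ∀ n, IsClosed (E n) := fun n => by
    have := (hcl n).preimage (continuous_subtype_val (p := fun x => x ∈ C))
    rw [← hpre n] at this
    exact (isQuotientMap_quotient_mk' (s := S)).isClosed_preimage.1 this
  obtain ⟨q, hq⟩ := IsCompact.nonempty_iInter_of_sequence_nonempty_isCompact_isClosed E
    (fun n => image_mono (preimage_mono (hdec n)))
    (fun n => by
      obtain ⟨x, a, b⟩ := hne n
      exact ⟨_, ⟨x, a⟩, b, rfl⟩) (hE 0).isCompact hE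
  induction q using Quotient.ind with
  | _ x =>
    refine ⟨x.1, x.2, fun n => ?_⟩
    have : x ∈ Quotient.mk S ⁻¹' E n := mem_iInter.1 hq n
    rwa [hpre] at this

/-- the positive cone over Ω, in coordinates -/
def cone (L : W ≃ₗ[ℝ] V8) (φ : V8 →ₗ[ℝ] ℝ) (Ω : Set P8) : Set W :=
  {y | 0 < φ (L y) ∧ pr (L y) ∈ Ω}

variable {L : W ≃ₗ[ℝ] V8} {ψ : GG →* PGL(8, ℝ)} {φ : V8 →ₗ[ℝ] ℝ} {Ω : Set P8}
  {Γ : Subgroup PGL(8, ℝ)}

theorem cone_ne {y : W} (hy : y ∈ cone L φ Ω) : y ≠ 0 := by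
  rintro rfl
  simpa using hy.1

theorem cont_phi : Continuous fun y : W => φ (L y) :=
  φ.continuous_of_finiteDimensional.comp (cont_L L)

theorem cone_open (hΩ : IsOpen Ω) : IsOpen (cone L φ Ω) := by
  have h1 : IsOpen {y : W | 0 < φ (L y)} := isOpen_lt continuous_const cont_phi
  have h2 : ContinuousOn (fun y => pr (L y)) {y : W | 0 < φ (L y)} :=
    continuousOn_pr.comp (cont_L L).continuousOn (fun y hy h => by
      have : 0 < φ (L y) := hy
      rw [h] at this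
      simp at this)
  exact h2.isOpen_inter_preimage h1 hΩ

theorem phi_ne (hD : InvariantDomain Γ φ Ω) {v : V8} (hv : v ≠ 0) (h : pr v ∈ closure Ω) :
    φ v ≠ 0 := by
  have h1 := hD.2.2.1 _ h
  obtain ⟨t, -, ht⟩ := exists_rep_pr hv
  rw [ht, map_smul] at h1
  intro h2
  rw [h2, smul_zero] at h1
  exact h1 rfl

theorem cone_or (hD : InvariantDomain Γ φ Ω) {y : W} (hy : y ≠ 0) (h : pr (L y) ∈ Ω) :
    y ∈ cone L φ Ω ∨ (-1 : ℝ) • y ∈ cone L φ Ω := by
  rcases (phi_ne hD (L_ne L hy) (subset_closure h)).lt_or_gt with h1 | h1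
  · refine Or.inr ⟨by simpa using h1, ?_⟩
    rwa [pr_L_smul L hy (by norm_num)]
  · exact Or.inl ⟨h1, h⟩

theorem cone_smul {y : W} (hy : y ∈ cone L φ Ω) {t : ℝ} (ht : 0 < t) : t • y ∈ cone L φ Ω :=
  ⟨by rw [map_smul, map_smul]; exact mul_pos ht hy.1,
    by rw [pr_L_smul L (cone_ne hy) ht.ne']; exact hy.2⟩

theorem chart_of {S : Set P8} {v : V8} (h1 : 0 < φ v) (h2 : pr v ∈ S) : (φ v)⁻¹ • v ∈ chart φ S := by
  have hv : v ≠ 0 := by
    rintro rfl
    simp at h1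
  rw [mem_chart, pr_smul hv (inv_ne_zero h1.ne'), map_smul, smul_eq_mul, inv_mul_cancel₀ h1.ne']
  exact ⟨rfl, h2⟩

theorem comb_eq {v w : V8} (h1 : 0 < φ v) (h2 : 0 < φ w) :
    (φ v / (φ v + φ w)) • ((φ v)⁻¹ • v) + (φ w / (φ v + φ w)) • ((φ w)⁻¹ • w) =
      (φ v + φ w)⁻¹ • (v + w) := by
  rw [smul_smul, smul_smul, smul_add]
  congr 2 <;> field_simp

theorem cone_add (hD : InvariantDomain Γ φ Ω) {y z : W} (hy : y ∈ cone L φ Ω)
    (hz : z ∈ cone L φ Ω) : y + z ∈ cone L φ Ω := by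
  have hp := add_pos hy.1 hz.1
  have h1 := hD.2.2.2.1 (chart_of hy.1 hy.2) (chart_of hz.1 hz.2)
    (div_pos hy.1 hp).le (div_pos hz.1 hp).le (by field_simp)
  rw [comb_eq hy.1 hz.1, mem_chart] at h1
  have h2 : 0 < φ (L (y + z)) := by rwa [map_add, map_add]
  refine ⟨h2, ?_⟩
  have h3 : L y + L z ≠ 0 := by
    intro h
    rw [map_add, h] at h2
    simp at h2
  rw [map_add, ← pr_smul h3 (inv_ne_zero hp.ne')]
  exact h1.2

theorem cone_add_cl (hD : InvariantDomain Γ φ Ω) {y z : W} (hy : y ∈ cone L φ Ω)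
    (hz : z ∈ closure (cone L φ Ω)) : y + z ∈ cone L φ Ω := by
  have h1 : IsOpen ((fun w => y + z - w) ⁻¹' cone L φ Ω) := (cone_open hD.2.1).preimage (by fun_prop)
  obtain ⟨w, hw, hw'⟩ := mem_closure_iff.1 hz _ h1 (by simpa using hy)
  simpa using cone_add hD hw hw'

theorem cl_pos (hD : InvariantDomain Γ φ Ω) {p : W} (hp : p ≠ 0) (h : p ∈ closure (cone L φ Ω)) :
    0 < φ (L p) := by
  have h1 : 0 ≤ φ (L p) :=
    closure_minimal (t := {y : W | 0 ≤ φ (L y)}) (fun y hy => hy.1.le)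
      (isClosed_le continuous_const cont_phi) h
  refine lt_of_le_of_ne h1 (phi_ne hD (L_ne L hp) ?_).symm
  have hc : ContinuousAt (fun y : W => pr (L y)) p :=
    (continuousAt_pr (L_ne L hp)).comp (f := fun y : W => L y) (cont_L L).continuousAt
  exact hc.continuousWithinAt.mem_closure h fun y hy => hy.2

theorem gW_smul (g : GG) (t : ℝ) (y : W) : g • t • y = t • g • y :=
  Prod.ext (g_smul g t y.1) (g_smul g t y.2)

theorem cont_g (g : GG) : Continuous fun y : W => g • y := by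
  have : Continuous fun v : V4 => g • v := Continuous.matrix_mulVec continuous_const continuous_id
  exact (this.comp continuous_fst).prodMk (this.comp continuous_snd)

theorem gW_ne (g : GG) {y : W} (hy : y ≠ 0) : g • y ≠ 0 := (smul_ne_zero_iff_ne g).2 hy

theorem Act.diag (h : Act L ψ fun g v => g • v) (g : GG) {y : W} (hy : y ≠ 0) :
    ψ g • pr (L y) = pr (L (g • y)) := h g y hy

theorem Act.pres_or (h : Act L ψ fun g v => g • v) (hD : InvariantDomain ψ.range φ Ω) (g : GG) :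
    (∀ y ∈ cone L φ Ω, g • y ∈ cone L φ Ω) ∨ ∀ y ∈ cone L φ Ω, (-1 : ℝ) • g • y ∈ cone L φ Ω := by
  have hin : ∀ y ∈ cone L φ Ω, pr (L (g • y)) ∈ Ω := fun y hy => by
    rw [← h.diag g (cone_ne hy)]
    exact hD.2.2.2.2 _ ⟨g, rfl⟩ _ hy.2
  have hor := fun y (hy : y ∈ cone L φ Ω) => cone_or hD (gW_ne g (cone_ne hy)) (hin y hy)
  by_contra hc
  push Not at hc
  obtain ⟨⟨y, hy, hy'⟩, z, hz, hz'⟩ := hc
  have a := ((hor y hy).resolve_left hy').1
  have b := ((hor z hz).resolve_right hz').1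
  have c := cone_add hD (cone_smul hy b) (cone_smul hz a)
  apply phi_ne hD (L_ne L (gW_ne g (cone_ne c))) (subset_closure (hin _ c))
  simp only [smul_add, gW_smul, map_add, map_smul, smul_eq_mul]
  ring

theorem Act.pres_sq (h : Act L ψ fun g v => g • v) (hD : InvariantDomain ψ.range φ Ω) (g : GG) :
    ∀ y ∈ cone L φ Ω, (g * g) • y ∈ cone L φ Ω := by
  intro y hy
  rcases h.pres_or hD g with k | k
  · rw [mul_smul]
    exact k _ (k y hy)
  · have := k _ (k y hy)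
    rw [gW_smul, smul_smul] at this
    simpa [mul_smul] using this

noncomputable def rr : ℝ := √gr

theorem rr_sq : rr * rr = gr := Real.mul_self_sqrt gr_pos.le

theorem rr_pos : 0 < rr := Real.sqrt_pos.2 gr_pos

theorem rr_inv : rr * rr⁻¹ = 1 := mul_inv_cancel₀ rr_pos.ne'

noncomputable def lp (s : ℝ) : V4 := ![s * rr, 0, 0, 1]
def mid (v : V4) : V4 := ![0, v 1, v 2, 0]

/-- pure tensors -/
def tn (v : V4) (u : ℝ × ℝ) : W := (u.1 • v, u.2 • v)

noncomputable def al (s : ℝ) (v : V4) : ℝ := (v 3 + s * rr⁻¹ * v 0) / 2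
noncomputable def AA (s : ℝ) (y : W) : ℝ × ℝ := (al s y.1, al s y.2)
def BB (y : W) : W := (mid y.1, mid y.2)

theorem dec4 {s : ℝ} (hs : s * s = 1) (v : V4) : v = al s v • lp s + mid v + al (-s) v • lp (-s) := by
  apply ext4 <;> simp [al, lp, mid]
  · linear_combination (-v 0 * (s * s)) * rr_inv - v 0 * hs
  · ring

theorem decW {s : ℝ} (hs : s * s = 1) (y : W) :
    y = tn (lp s) (AA s y) + BB y + tn (lp (-s)) (AA (-s) y) :=
  Prod.ext (dec4 hs y.1) (dec4 hs y.2)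

theorem g_tn (g : GG) (v : V4) (u : ℝ × ℝ) : g • tn v u = tn (g • v) u :=
  Prod.ext (g_smul g _ _) (g_smul g _ _)

theorem tn_smul (v : V4) (t : ℝ) (u : ℝ × ℝ) : tn v (t • u) = t • tn v u := by
  simp [tn, mul_smul]

theorem tn_smul' (v : V4) (t : ℝ) (u : ℝ × ℝ) : tn (t • v) u = t • tn v u := by
  simp [tn, smul_comm t]

theorem tn_add (v : V4) (u u' : ℝ × ℝ) : tn v (u + u') = tn v u + tn v u' := by
  simp [tn, add_smul]

theorem tn_ne {v : V4} (hv : v ≠ 0) {u : ℝ × ℝ} (hu : u ≠ 0) : tn v u ≠ 0 := by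
  intro h
  apply hu
  exact Prod.ext ((smul_eq_zero.1 (congrArg Prod.fst h)).resolve_right hv)
    ((smul_eq_zero.1 (congrArg Prod.snd h)).resolve_right hv)

theorem lp_ne (s : ℝ) : lp s ≠ 0 := fun h => by simpa [lp] using congrFun h 3

noncomputable def mu : ℝ := aa - bb * rr

theorem mu_mul : mu * (aa + bb * rr) = 1 := by
  unfold mu
  linear_combination aa_sq - (bb * bb) * rr_sq

theorem nu_gt : 1 < aa + bb * rr := by
  have := mul_pos (lt_of_lt_of_le (by norm_num) bb_ge) rr_pos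
  linarith [bb_ge, bb_le]

theorem mu_pos : 0 < mu := by
  by_contra h
  nlinarith [mu_mul, nu_gt]

theorem mu_lt : mu < 1 := by
  nlinarith [mu_mul, nu_gt, mu_pos]

/-- g is a translation along the first axis, towards the end s -/
def Hy (g : GG) (s : ℝ) : Prop := s * s = 1 ∧
  ∀ v : V4, g • v = ![aa * v 0 + s * (bb * gr) * v 3, v 1, v 2, s * bb * v 0 + aa * v 3]

theorem hy_pos : Hy (dl 0 * dl 0) 1 := ⟨one_mul 1, fun v => by rw [h0_smul]; simp⟩

theorem hy_neg : Hy ((dl 0)⁻¹ * (dl 0)⁻¹) (-1) := ⟨by norm_num, fun v => by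
  rw [← _root_.mul_inv_rev, h0_inv]
  simp [sub_eq_add_neg]⟩

variable {g : GG} {s : ℝ}

theorem Hy.gam_lp (h : Hy g s) : mu • g • lp s = lp s := by
  rw [h.2]
  apply ext4 <;> simp [lp]
  · linear_combination (s * rr) * mu_mul - (mu * s * bb) * rr_sq
  · linear_combination mu_mul + (mu * bb * rr) * h.1

theorem Hy.gam_mid (h : Hy g s) (y : W) : g • BB y = BB y := by
  have k : ∀ v, g • mid v = mid v := fun v => by
    rw [h.2]
    apply ext4 <;> simp [mid]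
  exact Prod.ext (k _) (k _)

theorem Hy.gam_lm (h : Hy g s) : g • lp (-s) = mu • lp (-s) := by
  rw [h.2]
  apply ext4 <;> simp [lp, mu]
  · linear_combination (-s * bb) * rr_sq
  · linear_combination (-bb * rr) * h.1

theorem Hy.gam_pow (h : Hy g s) (y : W) (n : ℕ) : mu ^ n • g ^ n • y =
    tn (lp s) (AA s y) + mu ^ n • BB y + (mu ^ n * mu ^ n) • tn (lp (-s)) (AA (-s) y) := by
  induction n with
  | zero => simpa using decW h.1 y
  | succ n ih =>
    rw [pow_succ' g, pow_succ' mu, mul_smul, mul_smul, ← gW_smul g (mu ^ n), ih,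
      smul_add g, smul_add g, gW_smul, gW_smul, g_tn, g_tn, h.gam_mid, h.gam_lm,
      smul_add, smul_add, ← tn_smul', h.gam_lp, tn_smul']
    module

theorem Hy.gam_lim (h : Hy g s) (y : W) : Tendsto (fun n : ℕ => mu ^ n • g ^ n • y) atTop
    (𝓝 (tn (lp s) (AA s y))) := by
  simp only [h.gam_pow]
  have := tendsto_pow_atTop_nhds_zero_of_lt_one mu_pos.le mu_lt
  simpa using (tendsto_const_nhds.add (this.smul_const (BB y))).add
    ((this.mul this).smul_const (tn (lp (-s)) (AA (-s) y)))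

theorem AA_smul (s t : ℝ) (y : W) : AA s (t • y) = t • AA s y := by
  simp only [AA, al, Prod.smul_fst, Prod.smul_snd, Pi.smul_apply, smul_eq_mul, Prod.smul_mk]
  congr 1 <;> ring

theorem AA_add (s : ℝ) (y z : W) : AA s (y + z) = AA s y + AA s z := by
  simp only [AA, al, Prod.fst_add, Prod.snd_add, Pi.add_apply, Prod.mk_add_mk]
  congr 1 <;> ring

theorem AA_tn (hs : s * s = 1) (u : ℝ × ℝ) : AA s (tn (lp s) u) = u := by
  refine Prod.ext ?_ ?_ <;> simp only [AA, al, tn, lp, Pi.smul_apply, smul_eq_mul, cons_val_zero,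
    cons_val]
  · linear_combination (u.1 * (s * s) / 2) * rr_inv + (u.1 / 2) * hs
  · linear_combination (u.2 * (s * s) / 2) * rr_inv + (u.2 / 2) * hs

theorem AA_tn' (hs : s * s = 1) (u : ℝ × ℝ) : AA (-s) (tn (lp s) u) = 0 := by
  refine Prod.ext ?_ ?_ <;> simp only [AA, al, tn, lp, Pi.smul_apply, smul_eq_mul, cons_val_zero,
    cons_val, Prod.fst_zero, Prod.snd_zero]
  · linear_combination (-u.1 * (s * s) / 2) * rr_inv - (u.1 / 2) * hs
  · linear_combination (-u.2 * (s * s) / 2) * rr_inv - (u.2 / 2) * hs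

theorem AA_BB (s : ℝ) (y : W) : AA s (BB y) = 0 := by
  simp [AA, al, BB, mid]

theorem Hy.AA_gam (h : Hy g s) (y : W) (n : ℕ) :
    AA (-s) (mu ^ n • g ^ n • y) = (mu ^ n * mu ^ n) • AA (-s) y := by
  rw [h.gam_pow, AA_add, AA_add, AA_smul, AA_smul, AA_tn' h.1, AA_BB,
    AA_tn (by rw [neg_mul_neg, h.1]), smul_zero, add_zero, zero_add]

theorem Hy.pow_mem (hp : ∀ y ∈ cone L φ Ω, g • y ∈ cone L φ Ω) (n : ℕ) :
    ∀ y ∈ cone L φ Ω, mu ^ n • g ^ n • y ∈ cone L φ Ω := by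
  intro y hy
  refine cone_smul ?_ (pow_pos mu_pos n)
  induction n with
  | zero => simpa using hy
  | succ n ih =>
    rw [pow_succ', mul_smul]
    exact hp _ ih

theorem Hy.J1 (h : Hy g s) (hp : ∀ y ∈ cone L φ Ω, g • y ∈ cone L φ Ω) :
    ∀ u ∈ AA s '' cone L φ Ω, tn (lp s) u ∈ closure (cone L φ Ω) := by
  rintro _ ⟨y, hy, rfl⟩
  exact mem_closure_of_tendsto (h.gam_lim y) (Eventually.of_forall fun n => Hy.pow_mem hp n y hy)

theorem J3' (hs : s * s = 1) (hD : InvariantDomain Γ φ Ω) : ∀ u ∈ AA s '' cone L φ Ω,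
    ∀ d : ℝ × ℝ, ∀ᶠ t : ℝ in 𝓝 0, u + t • d ∈ AA s '' cone L φ Ω := by
  rintro _ ⟨y, hy, rfl⟩ d
  have h1 : Continuous fun t : ℝ => y + t • tn (lp s) d := by fun_prop
  have h2 := (h1.tendsto' 0 y (by simp)).eventually ((cone_open hD.2.1).mem_nhds hy)
  filter_upwards [h2] with t ht
  exact ⟨_, ht, by rw [← tn_smul, AA_add, AA_tn hs]⟩

theorem Hy.J5 (h : Hy g s) (hD : InvariantDomain Γ φ Ω)
    (hp : ∀ y ∈ cone L φ Ω, g • y ∈ cone L φ Ω) : ∀ u ∈ AA s '' cone L φ Ω, u ≠ 0 := by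
  rintro u hu rfl
  obtain ⟨δ, hδ, h3⟩ := Metric.eventually_nhds_iff.1 (J3' h.1 hD 0 hu (1, 0))
  have e : ((1, 0) : ℝ × ℝ) ≠ 0 := by simp
  have a := h3 (y := δ / 2) (by rw [Real.dist_eq, sub_zero, abs_of_pos] <;> linarith)
  have b := h3 (y := -(δ / 2)) (by rw [Real.dist_eq, sub_zero, abs_neg, abs_of_pos] <;> linarith)
  rw [zero_add] at a b
  have a' := cl_pos hD (tn_ne (lp_ne s) (smul_ne_zero (by linarith) e)) (h.J1 hp _ a)
  have b' := cl_pos hD (tn_ne (lp_ne s) (smul_ne_zero (by linarith) e)) (h.J1 hp _ b)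
  simp only [tn_smul, map_smul, smul_eq_mul] at a' b'
  linarith

/-- four group elements that move the attracting end to a basis -/
noncomputable def q1 : GG := dl 1 * dl 1
noncomputable def q2 : GG := (dl 1)⁻¹ * (dl 1)⁻¹
noncomputable def q3 : GG := dl 2 * dl 2

theorem span4 (v : V4) : ∃ c0 c1 c2 c3 : ℝ,
    v = c0 • lp 1 + c1 • q1 • lp 1 + c2 • q2 • lp 1 + c3 • q3 • lp 1 := by
  have a1 : aa - 1 ≠ 0 := by linarith [bb_ge, bb_le]
  have a2 : bb ≠ 0 := by linarith [bb_ge]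
  have a3 := gr_pos.ne'
  have a4 := rr_pos.ne'
  refine ⟨v 0 / rr - (v 3 - v 0 / rr) / (aa - 1),
    ((v 3 - v 0 / rr) / (aa - 1) - v 2 / (bb * gr) + v 1 / (bb * gr)) / 2,
    ((v 3 - v 0 / rr) / (aa - 1) - v 2 / (bb * gr) - v 1 / (bb * gr)) / 2, v 2 / (bb * gr), ?_⟩
  rw [q1, q2, q3, ← _root_.mul_inv_rev, h1_smul, h1_inv, h2_smul]
  apply ext4 <;> simp [lp] <;> field_simp <;> ring

theorem spanW (y : W) : ∃ c0 c1 c2 c3 : ℝ × ℝ,
    y = tn (lp 1) c0 + q1 • tn (lp 1) c1 + q2 • tn (lp 1) c2 + q3 • tn (lp 1) c3 := by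
  obtain ⟨a0, a1, a2, a3, ha⟩ := span4 y.1
  obtain ⟨b0, b1, b2, b3, hb⟩ := span4 y.2
  refine ⟨(a0, b0), (a1, b1), (a2, b2), (a3, b3), ?_⟩
  rw [g_tn, g_tn, g_tn]
  exact Prod.ext ha hb

theorem hull_add {S : Set P8} {v w : V8} (hv : 0 < φ v ∧ (φ v)⁻¹ • v ∈ convexHull ℝ (chart φ S))
    (hw : 0 < φ w ∧ (φ w)⁻¹ • w ∈ convexHull ℝ (chart φ S)) :
    0 < φ (v + w) ∧ (φ (v + w))⁻¹ • (v + w) ∈ convexHull ℝ (chart φ S) := by
  have hp := add_pos hv.1 hw.1
  have hm := (convex_convexHull ℝ (chart φ S)) hv.2 hw.2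
    (div_pos hv.1 hp).le (div_pos hw.1 hp).le (by field_simp)
  rw [comb_eq hv.1 hw.1] at hm
  rw [map_add]
  exact ⟨hp, hm⟩

theorem Act.not_cc (h : Act L ψ fun g v => g • v) : ¬ CC ψ.range := by
  rintro ⟨-, -, φ, Ω, hD, -, hcq⟩
  have hγ := h.pres_sq hD (dl 0)
  have hκ := h.pres_sq hD (dl 0)⁻¹
  have k1 : ∀ y ∈ cone L φ Ω, q1 • y ∈ cone L φ Ω := h.pres_sq hD (dl 1)
  have k2 : ∀ y ∈ cone L φ Ω, q2 • y ∈ cone L φ Ω := h.pres_sq hD (dl 1)⁻¹
  have k3 : ∀ y ∈ cone L φ Ω, q3 • y ∈ cone L φ Ω := h.pres_sq hD (dl 2)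
  let J : Set (ℝ × ℝ) := AA 1 '' cone L φ Ω
  have J1 : ∀ u ∈ J, tn (lp 1) u ∈ closure (cone L φ Ω) := hy_pos.J1 hγ
  have J2 : ∀ g : GG, (∀ y ∈ cone L φ Ω, g • y ∈ cone L φ Ω) →
      ∀ u ∈ J, g • tn (lp 1) u ∈ closure (cone L φ Ω) := fun g hg u hu =>
    map_mem_closure (cont_g g) (J1 u hu) hg
  have J3 : ∀ u ∈ J, ∀ d : ℝ × ℝ, ∀ᶠ t : ℝ in 𝓝 0, u + t • d ∈ J := J3' (one_mul 1) hD
  have J4 : ∀ u ∈ J, ∀ t : ℝ, 0 < t → t • u ∈ J := by
    rintro _ ⟨y, hy, rfl⟩ t ht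
    exact ⟨_, cone_smul hy ht, AA_smul 1 t y⟩
  have J5 : ∀ u ∈ J, u ≠ 0 := hy_pos.J5 hD hγ
  have J6 : ∀ u ∈ J, 0 < φ (L (tn (lp 1) u)) := fun u hu =>
    cl_pos hD (tn_ne (lp_ne 1) (J5 u hu)) (J1 u hu)
  have J7 : ∀ y ∈ cone L φ Ω, AA (-1) y ≠ 0 := fun y hy => hy_neg.J5 hD hκ _ ⟨y, hy, rfl⟩
  have J8 : ∀ u ∈ J, ∀ g : GG, pr (L (g • tn (lp 1) u)) ∈ orbitalLimitSet ψ.range Ω := by
    rintro _ ⟨y, hy, rfl⟩ g
    have p0 := tn_ne (lp_ne 1) (J5 _ ⟨y, hy, rfl⟩)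
    have t1 := (continuousAt_pr (L_ne L (gW_ne g p0))).tendsto.comp
      (((cont_L L).tendsto _).comp (((cont_g g).tendsto _).comp (hy_pos.gam_lim y)))
    refine ⟨_, hy.2, accPt_of_seq (fun n => ?_) (fun n e => ?_) t1⟩
    · refine mem_orbit_range.2 ⟨g * (dl 0 * dl 0) ^ n, ?_⟩
      simp only [Function.comp_apply]
      rw [h.diag _ (cone_ne hy), gW_smul, mul_smul,
        pr_L_smul L (gW_ne _ (gW_ne _ (cone_ne hy))) (pow_pos mu_pos n).ne']
    · obtain ⟨t, ht⟩ := pr_L_eq (gW_ne g (cone_ne (Hy.pow_mem hγ n y hy))) (gW_ne g p0) e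
      rw [← gW_smul] at ht
      have h1 := congrArg (AA (-1)) (MulAction.injective g ht)
      rw [AA_smul, AA_tn' (one_mul 1), hy_pos.AA_gam, smul_zero] at h1
      have := pow_pos mu_pos n
      exact smul_ne_zero (mul_pos this this).ne' (J7 y hy) h1.symm
  obtain ⟨x0, hx0⟩ := hD.1
  obtain ⟨y0, hy0⟩ : (cone L φ Ω).Nonempty := by
    obtain ⟨y, hy, rfl⟩ := exists_pr_L L x0
    rcases cone_or hD hy hx0 with k | k
    exacts [⟨_, k⟩, ⟨_, k⟩]
  have ha0 : AA 1 y0 ∈ J := ⟨y0, hy0, rfl⟩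
  have J9 : ∀ u ∈ J,
      tn (lp 1) u + q1 • tn (lp 1) u + q2 • tn (lp 1) u + q3 • tn (lp 1) u ∈ cone L φ Ω := by
    intro u hu
    obtain ⟨c0, c1, c2, c3, hc⟩ := spanW y0
    obtain ⟨ε, ⟨a0, a1, a2, a3⟩, e0⟩ := (((((J3 u hu (-c0)).and ((J3 u hu (-c1)).and
      ((J3 u hu (-c2)).and (J3 u hu (-c3))))).filter_mono
        (nhdsWithin_le_nhds (s := Ioi 0))).and self_mem_nhdsWithin).exists)
    have c := cone_add_cl hD (cone_add_cl hD (cone_add_cl hD (cone_add_cl hD (cone_smul hy0 e0)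
      (J1 _ a0)) (J2 _ k1 _ a1)) (J2 _ k2 _ a2)) (J2 _ k3 _ a3)
    refine (congrArg (· ∈ cone L φ Ω) ?_).mpr c
    rw [hc]
    simp only [g_tn]
    simp only [smul_neg, ← neg_smul, tn_add, tn_smul]
    module
  have J10 : ∀ u ∈ J, pr (L (tn (lp 1) u + q1 • tn (lp 1) u + q2 • tn (lp 1) u +
      q3 • tn (lp 1) u)) ∈ convexCore ψ.range φ Ω := by
    intro u hu
    have l : ∀ g : GG, (∀ y ∈ cone L φ Ω, g • y ∈ cone L φ Ω) → 0 < φ (L (g • tn (lp 1) u)) ∧
        (φ (L (g • tn (lp 1) u)))⁻¹ • L (g • tn (lp 1) u) ∈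
          convexHull ℝ (chart φ (orbitalLimitSet ψ.range Ω)) := fun g hg => by
      have q := cl_pos hD (gW_ne g (tn_ne (lp_ne 1) (J5 u hu))) (J2 g hg u hu)
      exact ⟨q, subset_convexHull _ _ (chart_of q (J8 u hu g))⟩
    have l0 := l 1 (by simp)
    rw [one_smul] at l0
    obtain ⟨hp, hm⟩ := hull_add (hull_add (hull_add l0 (l q1 k1)) (l q2 k2)) (l q3 k3)
    rw [← map_add L, ← map_add L, ← map_add L] at hp hm
    have hy0 := cone_ne (J9 u hu)
    refine ⟨(J9 u hu).2, _, hm, smul_ne_zero (inv_ne_zero hp.ne') (L_ne L hy0), ?_⟩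
    rw [← pr_eq, pr_smul (L_ne L hy0) (inv_ne_zero hp.ne')]
  generalize AA 1 y0 = a at ha0
  have f0 := J6 a ha0
  obtain ⟨d, hd1, hd2⟩ : ∃ d : ℝ × ℝ, φ (L (tn (lp 1) d)) < 0 ∧ ∀ t : ℝ, a + t • d ≠ 0 := by
    refine ⟨(-a.2, a.1) + (-((|φ (L (tn (lp 1) (-a.2, a.1)))| + 1) / φ (L (tn (lp 1) a)))) • a, ?_, ?_⟩
    · rw [tn_add, tn_smul, map_add, map_add, map_smul, map_smul, smul_eq_mul, neg_mul,
        div_mul_cancel₀ _ f0.ne']
      linarith [le_abs_self (φ (L (tn (lp 1) (-a.2, a.1))))]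
    · intro t e
      generalize -((|φ (L (tn (lp 1) (-a.2, a.1)))| + 1) / φ (L (tn (lp 1) a))) = s at e
      have e1 : a.1 + t * (-a.2 + s * a.1) = 0 := congrArg Prod.fst e
      have e2 : a.2 + t * (a.1 + s * a.2) = 0 := congrArg Prod.snd e
      have e3 : t * (a.1 * a.1 + a.2 * a.2) = 0 := by linear_combination a.1 * e2 - a.2 * e1
      apply J5 a ha0
      rcases mul_eq_zero.1 e3 with k | k
      · rw [k] at e1 e2
        exact Prod.ext (by simpa using e1) (by simpa using e2)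
      · have := mul_self_nonneg a.1
        have := mul_self_nonneg a.2
        exact Prod.ext (mul_self_eq_zero.1 (by linarith)) (mul_self_eq_zero.1 (by linarith))
  let S : Set ℝ := {t | a + t • d ∈ J}
  have fS : ∀ t : ℝ, φ (L (tn (lp 1) (a + t • d))) = φ (L (tn (lp 1) a)) + t * φ (L (tn (lp 1) d)) := by
    intro t
    rw [tn_add, tn_smul, map_add, map_add, map_smul, map_smul, smul_eq_mul]
  have S0 : S.Nonempty := ⟨0, by simpa [S] using ha0⟩
  have S1 : BddAbove S := ⟨φ (L (tn (lp 1) a)) / -φ (L (tn (lp 1) d)), fun t ht => by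
    have := J6 _ ht
    rw [fS] at this
    rw [le_div_iff₀ (by linarith)]
    linarith⟩
  set T := sSup S with hT
  have hTS : T ∉ S := by
    intro k
    obtain ⟨δ, hδ, h3⟩ := Metric.eventually_nhds_iff.1 (J3 _ k d)
    have b := h3 (y := δ / 2) (by rw [Real.dist_eq, sub_zero, abs_of_pos] <;> linarith)
    rw [add_assoc, ← add_smul] at b
    have := le_csSup S1 (show T + δ / 2 ∈ S from b)
    linarith
  have hT0 : 0 ≤ φ (L (tn (lp 1) (a + T • d))) := by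
    have : T ≤ φ (L (tn (lp 1) a)) / -φ (L (tn (lp 1) d)) := csSup_le S0 fun t ht => by
      have := J6 _ ht
      rw [fS] at this
      rw [le_div_iff₀ (by linarith)]
      linarith
    rw [le_div_iff₀ (by linarith)] at this
    rw [fS]
    linarith
  let D : ℕ → Set W := fun n => {y | ∃ t ∈ Icc (T - 1 / ((n : ℝ) + 1)) T,
    (a + t • d).2 • y.1 = (a + t • d).1 • y.2}
  have Ds : ∀ n, Sc (D n) := by
    rintro n y ⟨t, ht, e⟩ c -
    exact ⟨t, ht, by rw [Prod.smul_fst, Prod.smul_snd, smul_comm, e, smul_comm]⟩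
  have Dc : ∀ n, IsClosed (D n) := by
    intro n
    have := isClosedMap_snd_of_compactSpace (X := Icc (T - 1 / ((n : ℝ) + 1)) T) (Y := W)
      {p | (a + p.1.1 • d).2 • p.2.1 = (a + p.1.1 • d).1 • p.2.2}
      (isClosed_eq (by fun_prop) (by fun_prop))
    refine (congrArg IsClosed ?_).mpr this
    ext y
    constructor
    · rintro ⟨t, ht, e⟩
      exact ⟨(⟨t, ht⟩, y), e, rfl⟩
    · rintro ⟨⟨⟨t, ht⟩, _⟩, e, rfl⟩
      exact ⟨t, ht, e⟩
  obtain ⟨x, hx, hxD⟩ := nested hcq (fun n => PP L (D n)) (fun n => (Ds n).isClosed L (Dc n))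
    (by
      rintro n x ⟨t, ht, e⟩
      refine ⟨t, ⟨le_trans ?_ ht.1, ht.2⟩, e⟩
      have : 1 / (((n + 1 : ℕ) : ℝ) + 1) ≤ 1 / ((n : ℝ) + 1) := by
        push_cast
        gcongr
        linarith
      linarith)
    (by
      rintro n _ ⟨g, rfl⟩ x hx
      obtain ⟨y, hy, rfl⟩ := exists_pr_L L x
      rw [h.diag g hy, (Ds n).mem L (gW_ne g hy)]
      obtain ⟨t, ht, e⟩ := ((Ds n).mem L hy).1 hx
      exact ⟨t, ht, by rw [Prod.smul_fst, Prod.smul_snd, ← g_smul, ← g_smul, e]⟩)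
    (by
      intro n
      have : 0 < 1 / ((n : ℝ) + 1) := by positivity
      obtain ⟨t, ht, ht'⟩ := exists_lt_of_lt_csSup S0 (show T - 1 / ((n : ℝ) + 1) < sSup S by linarith)
      refine ⟨_, J10 _ ht, ?_⟩
      rw [(Ds n).mem L (cone_ne (J9 _ ht))]
      refine ⟨t, ⟨ht'.le, le_csSup S1 ht⟩, ?_⟩
      simp only [g_tn]
      simp only [tn, Prod.fst_add, Prod.snd_add]
      generalize q1 • lp 1 = w1, q2 • lp 1 = w2, q3 • lp 1 = w3
      module)
  obtain ⟨y, hy, rfl⟩ : ∃ y ∈ cone L φ Ω, pr (L y) = x := by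
    obtain ⟨y, hy, rfl⟩ := exists_pr_L L x
    rcases cone_or hD hy hx.1 with k | k
    · exact ⟨_, k, rfl⟩
    · exact ⟨_, k, pr_L_smul L hy (by norm_num)⟩
  choose t ht e using fun n => ((Ds n).mem L (cone_ne hy)).1 (hxD n)
  have tl : Tendsto t atTop (𝓝 T) := by
    refine tendsto_of_tendsto_of_tendsto_of_le_of_le ?_ tendsto_const_nhds (fun n => (ht n).1)
      (fun n => (ht n).2)
    simpa using (tendsto_const_nhds (x := T)).sub (tendsto_one_div_add_atTop_nhds_zero_nat (𝕜 := ℝ))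
  have eT : (a + T • d).2 • y.1 = (a + T • d).1 • y.2 :=
    (isClosed_eq (f := fun t : ℝ => (a + t • d).2 • y.1) (g := fun t : ℝ => (a + t • d).1 • y.2)
      (by fun_prop) (by fun_prop)).mem_of_tendsto tl (Eventually.of_forall e)
  have hb : AA 1 y ∈ J := ⟨y, hy, rfl⟩
  have hu := hd2 T
  have hTS' : a + T • d ∉ J := hTS
  generalize a + T • d = u at eT hu hTS' hT0
  have e1 : u.2 * (AA 1 y).1 = u.1 * (AA 1 y).2 := by
    have k0 : u.2 * y.1 0 = u.1 * y.2 0 := congrFun eT 0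
    have k2 : u.2 * y.1 3 = u.1 * y.2 3 := congrFun eT 3
    simp only [AA, al]
    linear_combination (1 / 2) * k2 + (rr⁻¹ / 2) * k0
  generalize AA 1 y = b at hb e1
  have n0 : 0 < u.1 * u.1 + u.2 * u.2 := by
    by_contra k
    have := mul_self_nonneg u.1
    have := mul_self_nonneg u.2
    exact hu (Prod.ext (mul_self_eq_zero.1 (by linarith)) (mul_self_eq_zero.1 (by linarith)))
  obtain ⟨r, rfl⟩ : ∃ r : ℝ, b = r • u := by
    refine ⟨(b.1 * u.1 + b.2 * u.2) / (u.1 * u.1 + u.2 * u.2), Prod.ext ?_ ?_⟩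
    · simp only [Prod.smul_fst, smul_eq_mul]
      rw [div_mul_eq_mul_div, eq_div_iff n0.ne']
      linear_combination u.2 * e1
    · simp only [Prod.smul_snd, smul_eq_mul]
      rw [div_mul_eq_mul_div, eq_div_iff n0.ne']
      linear_combination (-u.1) * e1
  have k := J6 _ hb
  rw [tn_smul, map_smul, map_smul, smul_eq_mul] at k
  have r0 : 0 < r := by
    by_contra k'
    push Not at k'
    nlinarith
  have := J4 _ hb r⁻¹ (inv_pos.2 r0)
  rw [smul_smul, inv_mul_cancel₀ r0.ne', one_smul] at this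
  exact hTS' this

end Pool.Agent.P.MP_7d68c1_gt.Eight
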