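import Pool.Agent.P.MP_7d68c1_gt.TGroup

open scoped MatrixGroups Topology
open Matrix Filter Set

namespace Pool.Agent.P.MP_7d68c1_gt.Eight

section ch

variable {S : Type} [CommRing S]

/-- a principal minor of size two -/
def m2 (A : MM S) (i j : Fin 4) : S := A i i * A j j - A i j * A j i

/-- a principal minor of size three -/
def m3 (A : MM S) (i j k : Fin 4) : S := A i i * A j j * A k k - A i i * A j k * A k j -
  A i j * A j i * A k k + A i j * A j k * A k i + A i k * A j i * A k j - A i k * A j j * A k i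

def e2 (A : MM S) : S := m2 A 0 1 + m2 A 0 2 + m2 A 0 3 + m2 A 1 2 + m2 A 1 3 + m2 A 2 3

def e3 (A : MM S) : S := m3 A 0 1 2 + m3 A 0 1 3 + m3 A 0 2 3 + m3 A 1 2 3

theorem tr4 (A : MM S) : A.trace = A 0 0 + A 1 1 + A 2 2 + A 3 3 := by
  simp [trace, Fin.sum_univ_four]

theorem e2_eq (A : MM S) : 2 * e2 A = A.trace * A.trace - (A * A).trace := by
  simp only [tr4, e2, m2, mul_apply, Fin.sum_univ_four]
  ring

theorem e3_eq (A : MM S) :
    (A * (A * A)).trace - A.trace * (A * A).trace + e2 A * A.trace = 3 * e3 A := by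
  simp only [tr4, e2, e3, m2, m3, mul_apply, Fin.sum_univ_four]
  ring

theorem ch4 (A : MM S) : A * (A * (A * A)) - A.trace • (A * (A * A)) + e2 A • (A * A) - e3 A • A +
    A.det • (1 : MM S) = 0 := by
  have hd : A.det = A 0 0 * m3 A 1 2 3 - A 0 1 * (A.submatrix ![1, 2, 3] ![0, 2, 3]).det +
      A 0 2 * (A.submatrix ![1, 2, 3] ![0, 1, 3]).det -
      A 0 3 * (A.submatrix ![1, 2, 3] ![0, 1, 2]).det := by
    simp only [det_fin_three, submatrix_apply, cons_val_zero, cons_val_one, cons_val]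
    simp [det_succ_row_zero (n := 3), Fin.sum_univ_four, det_fin_three, m3, Fin.succAbove]
    ring
  rw [hd]
  simp only [det_fin_three, submatrix_apply, cons_val_zero, cons_val_one, cons_val]
  ext i j
  fin_cases i <;> fin_cases j <;>
    simp [tr4, e2, e3, m2, m3, mul_apply, Fin.sum_univ_four] <;> ring

end ch

theorem eig_le {M M' : M4} {n : ℕ} (hn : 0 < n) (h1 : M ^ n = 1) (h2 : M * M' = 1) {w : V4}
    (hw : w ≠ 0) {t : ℝ} (ht : M *ᵥ w + M' *ᵥ w = t • w) : |t| ≤ 2 := by
  let N : V4 → ℝ := fun u => ∑ i ∈ Finset.range n, ‖(M ^ i) *ᵥ u‖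
  have a1 : ∀ u, N (M *ᵥ u) = N u := fun u => by
    have b1 := Finset.sum_range_succ (fun i => ‖(M ^ i) *ᵥ u‖) n
    have b2 := Finset.sum_range_succ' (fun i => ‖(M ^ i) *ᵥ u‖) n
    simp only [h1, pow_zero] at b1 b2
    simp only [N, mulVec_mulVec, ← pow_succ]
    linarith
  have a2 : N (M' *ᵥ w) = N w := by rw [← a1, mulVec_mulVec, h2, one_mulVec]
  have a3 : N (t • w) = |t| * N w := by
    simp only [N, mulVec_smul, norm_smul, Finset.mul_sum, Real.norm_eq_abs]
  have a4 : N (M *ᵥ w + M' *ᵥ w) ≤ N (M *ᵥ w) + N (M' *ᵥ w) := by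
    simp only [N, mulVec_add, ← Finset.sum_add_distrib]
    exact Finset.sum_le_sum fun i _ => norm_add_le _ _
  have a5 : 0 < N w := Finset.sum_pos' (fun _ _ => norm_nonneg _)
    ⟨0, Finset.mem_range.2 hn, by simpa using hw⟩
  rw [ht, a3, a1, a2] at a4
  exact le_of_mul_le_mul_right (by linarith) a5

theorem unip {M : M4} {n : ℕ} (hn : 0 < n) (h1 : M ^ n = 1) (h2 : IsNilpotent (M - 1)) : M = 1 := by
  have c : ∀ i, Commute (M - 1) (M ^ i) := fun i =>
    ((Commute.refl M).pow_right i).sub_left (Commute.one_left _)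
  have a1 : ∀ i : ℕ, IsNilpotent (M ^ i - 1) := fun i => by
    rw [← mul_geom_sum]
    exact (Commute.sum_right _ _ _ fun j _ => c j).isNilpotent_mul_right h2
  have a2 : IsNilpotent (∑ i ∈ Finset.range n, (M ^ i - 1)) :=
    Commute.isNilpotent_sum (fun i _ => a1 i) fun i j _ _ =>
      (((Commute.refl M).pow_pow i j).sub_left (Commute.one_left _)).sub_right (Commute.one_right _)
  have a3 : IsUnit (n : M4) := by
    rw [← map_natCast (algebraMap ℝ M4)]
    exact (Ne.isUnit (Nat.cast_ne_zero.2 hn.ne')).map _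
  have a4 := a2.isUnit_add_right_of_commute a3 (Nat.cast_commute _ _).symm
  rw [Finset.sum_sub_distrib] at a4
  simp only [Finset.sum_const, Finset.card_range, nsmul_eq_mul, mul_one, sub_add_cancel] at a4
  have a5 := mul_geom_sum M n
  rw [h1, sub_self] at a5
  exact sub_eq_zero.1 (a4.mul_left_eq_zero.1 a5)

theorem Blk.trace {N : MM (ZMod 11)} (h : Blk N) : N.trace * N.trace - 2 * (N * N).trace = 8 := by
  obtain ⟨a1, a2, a3, a4, a5, a6, a7, a8, a9⟩ := h
  simp only [tr4, mul_apply, Fin.sum_univ_four, a1, a2, a3, a4, a5, a6, a7, a8]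
  linear_combination 8 * a9

theorem small_zero {z : RR} (h1 : |sg (2 - z)| ≤ 2) (h2 : |sg' (2 - z)| ≤ 2) (h3 : p11 z = 0) :
    z = 0 := by
  obtain ⟨x, y⟩ := z
  rw [map_sub, map_ofNat, abs_le] at h1 h2
  rw [sg_apply] at h1
  rw [sg'_apply] at h2
  have h4 : ((x + 8 * y : ℤ) : ZMod 11) = 0 := by
    rw [← h3]
    simp [p11, mul_comm]
  rw [ZMod.intCast_zmod_eq_zero_iff_dvd] at h4
  simp only at h1 h2
  have lo := gr_lo
  have hi := gr_hi
  have b1 : y < 2 := by
    have : (y : ℝ) < 2 := by nlinarith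
    exact_mod_cast this
  have b2 : -2 < y := by
    have : (-2 : ℝ) < y := by nlinarith
    exact_mod_cast this
  have b3 : -3 < x ∧ x < 8 ∧ (y = 1 → x < 3) := by
    refine ⟨?_, ?_, ?_⟩
    · have : (-3 : ℝ) < x := by interval_cases y <;> push_cast at h1 h2 <;> linarith
      exact_mod_cast this
    · have : (x : ℝ) < 8 := by interval_cases y <;> push_cast at h1 h2 <;> linarith
      exact_mod_cast this
    · rintro rfl
      have : (x : ℝ) < 3 := by push_cast at h1; linarith
      exact_mod_cast this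
  have b4 : x = 0 ∧ y = 0 := by interval_cases y <;> omega
  exact QuadraticAlgebra.ext b4.1 b4.2

theorem torsion_free (g : GG) (hg : IsOfFinOrder g) : g = 1 := by
  have : IsDomain RR := sg_inj.isDomain sg
  obtain ⟨n, hn, h1⟩ := isOfFinOrder_iff_pow_eq_one.1 hg
  obtain ⟨A, a1, a2, a3, a4⟩ := exists_lift g
  have mp : ∀ i : ℕ, mt (g ^ i) = (A ^ i).map sg := fun i => by
    induction i with
    | zero => simp [mt_one]
    | succ i ih => rw [pow_succ, pow_succ, mt_mul, ih, a1, Matrix.map_mul]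
  have h2 : A ^ n = 1 := Matrix.map_injective sg_inj (by
    simp only
    rw [← mp, h1, mt_one]
    simp)
  obtain ⟨A', b1, b2⟩ : ∃ A' : MM RR, A' * A = 1 ∧ A'.trace = A.trace :=
    ⟨JI * Aᵀ * JJ, by rw [mul_assoc, mul_assoc, ← mul_assoc Aᵀ, a2, JI_JJ], by
      rw [trace_mul_cycle, mul_eq_one_comm.1 JI_JJ, one_mul, trace_transpose]⟩
  have b3 := mul_eq_one_comm.1 b1
  have ch := ch4 A
  rw [a3, one_smul] at ch
  have c1 : e3 A = A.trace := by
    have := congrArg (fun X => (A' * X).trace) ch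
    simp only [mul_add, mul_sub, mul_smul_comm, ← mul_assoc A' A, b1, one_mul, mul_one, mul_zero,
      trace_add, trace_sub, trace_smul, trace_zero, trace_one, b2, smul_eq_mul, Fintype.card_fin,
      Nat.cast_ofNat] at this
    linear_combination e3_eq A - this
  have c2 : e2 A = 2 * A.trace - 2 := by
    let v : Fin 4 → RR := ∑ i ∈ Finset.range n, fun r => (A ^ i) r 3
    have v1 : A *ᵥ v = v := by
      have d1 := Finset.sum_range_succ (fun i r => (A ^ i) r 3) n
      have d2 := Finset.sum_range_succ' (fun i r => (A ^ i) r 3) n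
      rw [d1, h2, pow_zero, add_left_inj] at d2
      rw [mulVec_sum]
      refine Eq.trans (Finset.sum_congr rfl fun i _ => ?_) d2.symm
      rw [pow_succ']
      rfl
    have v2 : v 3 ≠ 0 := fun e => by
      have := congrArg sg e
      simp only [v, Finset.sum_apply, map_sum, map_zero] at this
      refine (Finset.sum_pos (fun i _ => ?_) ⟨0, Finset.mem_range.2 hn⟩).ne' this
      have := (Cn_smul (g ^ i) _ ee_mem).1
      rwa [smul_eq, mulVec_ee, mp] at this
    have := congrFun (congrArg (· *ᵥ v) ch) 3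
    simp only [add_mulVec, sub_mulVec, smul_mulVec, ← mulVec_mulVec, v1, one_mulVec, zero_mulVec,
      Pi.add_apply, Pi.sub_apply, Pi.smul_apply, smul_eq_mul, Pi.zero_apply, c1] at this
    exact mul_right_cancel₀ v2 (by linear_combination this)
  have c3 : p11 (4 - A.trace) = 0 := by
    have d1 := a4.trace
    rw [trace_mul_cycle, PM_PI, one_mul, mul_assoc, mul_assoc, ← mul_assoc PM, ← mul_assoc PM, PM_PI,
      one_mul, ← mul_assoc, ← mul_assoc, trace_mul_cycle, ← mul_assoc, PM_PI, one_mul,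
      ← Matrix.map_mul, ← AddMonoidHom.map_trace, ← AddMonoidHom.map_trace] at d1
    have d2 := congrArg p11 (e2_eq A)
    rw [c2] at d2
    simp only [map_mul, map_sub, map_ofNat] at d2 ⊢
    have : Fact (Nat.Prime 11) := ⟨by norm_num⟩
    exact mul_self_eq_zero.1 (by linear_combination -d1 - 2 * d2)
  have c4 : (A + A' - (A.trace - 2) • 1) * (A + A' - 2) = 0 := by
    have := congrArg (fun X => A' * (A' * X)) ch
    simp only [mul_add, mul_sub, mul_smul_comm, ← mul_assoc A' A, b1, one_mul, mul_one, mul_zero,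
      c1, c2] at this
    rw [← this, show (2 : MM RR) = (2 : RR) • 1 by rw [two_smul]; norm_num]
    simp only [mul_add, mul_sub, add_mul, sub_mul, b1, b3, mul_smul_comm, smul_mul_assoc, one_mul,
      mul_one]
    module
  have c5 : (A + A' - 2) * (A + A' - 2) = 0 := by
    by_cases h : A + A' - 2 = 0
    · rw [h, mul_zero]
    obtain ⟨i, j, hij⟩ : ∃ i j, (A + A' - 2) i j ≠ 0 := by
      by_contra k
      push Not at k
      exact h (Matrix.ext k)
    have d : ∀ τ : RR →+* ℝ, Function.Injective τ → |τ (2 - (4 - A.trace))| ≤ 2 := fun τ hτ => by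
      refine eig_le (M := τ.mapMatrix A) (M' := τ.mapMatrix A') hn (by rw [← map_pow, h2, map_one])
        (by rw [← map_mul, b3, map_one]) (w := fun r => τ ((A + A' - 2) r j))
        (fun e => hij (hτ ((congrFun e i).trans (map_zero τ).symm))) (funext fun r => ?_)
      have := congrArg τ (congrFun (congrFun c4 r) j)
      rw [sub_mul, add_mul, smul_mul_assoc, one_mul] at this
      simp only [Matrix.sub_apply _ (_ • _), Matrix.add_apply (A * _), mul_apply, Matrix.smul_apply,
        smul_eq_mul, map_sub τ _ (_ * _), map_add, map_sum, map_mul, Matrix.zero_apply,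
        map_zero] at this
      rw [show 2 - (4 - A.trace) = A.trace - 2 by ring]
      exact sub_eq_zero.1 this
    have := small_zero (d _ sg_inj) (d _ sg'_inj) c3
    rwa [← sub_eq_zero.1 this, show ((4 : RR) - 2) • (1 : MM RR) = 2 by
      rw [show (4 : RR) - 2 = 2 by norm_num, two_smul]; norm_num] at c4
  have c6 : (A - 1) ^ 2 = A * (A + A' - 2) := by
    rw [mul_sub, mul_add, b3]
    noncomm_ring
  have c7 : (A - 1) ^ (2 * 2) = 0 := by
    have : (A + A' - 2) * A = A * (A + A' - 2) := by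
      rw [mul_sub, mul_add, sub_mul, add_mul, b1, b3, mul_two, two_mul]
    rw [pow_mul, c6, sq, mul_assoc, ← mul_assoc _ A, this, mul_assoc, c5, mul_zero, mul_zero]
  refine mt_inj (unip hn (by rw [a1, ← RingHom.mapMatrix_apply, ← map_pow, h2, map_one]) ⟨2 * 2, ?_⟩)
  rw [a1, ← RingHom.mapMatrix_apply, ← map_one sg.mapMatrix, ← map_sub, ← map_pow, c7, map_zero]

end Pool.Agent.P.MP_7d68c1_gt.Eight
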