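import Pool.Agent.P.MP_7d68c1_gt.TCC
import Pool.Agent.P.MP_7d68c1_gt.TNot
import Pool.Agent.P.MP_7d68c1_gt.TCert
import Pool.Agent.P.MP_7d68c1_gt.TTors

open scoped LinearAlgebra.Projectivization MatrixGroups Topology
open Matrix Filter Set

namespace Pool.Agent.P.MP_7d68c1_gt.Eight

/-- a fixed identification -/
noncomputable def L0 : W ≃ₗ[ℝ] V8 := LinearEquiv.ofFinrankEq _ _ (by simp)

/-- block diagonal matrices -/
noncomputable def blk (A B : M4) : M8 :=
  LinearMap.toMatrix' (L0.toLinearMap ∘ₗ (Matrix.toLin' A).prodMap (Matrix.toLin' B) ∘ₗ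
    L0.symm.toLinearMap)

theorem blk_mulVec (A B : M4) (y : W) : blk A B *ᵥ L0 y = L0 (A *ᵥ y.1, B *ᵥ y.2) := by
  simp [blk, LinearMap.toMatrix'_mulVec]

theorem m_ext {A B : M8} (h : ∀ y, A *ᵥ L0 y = B *ᵥ L0 y) : A = B := by
  ext i j
  have := congrFun (h (L0.symm (Pi.single j 1))) i
  simpa using this

theorem blk_mul (A B C D : M4) : blk (A * C) (B * D) = blk A B * blk C D :=
  m_ext fun y => by rw [← mulVec_mulVec, blk_mulVec, blk_mulVec, blk_mulVec, mulVec_mulVec, mulVec_mulVec]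

theorem blk_one : blk 1 1 = 1 :=
  m_ext fun y => by rw [blk_mulVec, one_mulVec, one_mulVec, one_mulVec]

/-- the diagonal embedding -/
noncomputable def dgm : M4 →* M8 where
  toFun A := blk A A
  map_one' := blk_one
  map_mul' A B := blk_mul A A B B

/-- the upper left embedding -/
noncomputable def hlf : M4 →* M8 where
  toFun A := blk A 1
  map_one' := blk_one
  map_mul' A B := by rw [← blk_mul, mul_one]

noncomputable def lift8 (f : M4 →* M8) : GG →* GL (Fin 8) ℝ := (Units.map f).comp GG.subtype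

noncomputable def iota1 : GG →* PGL(8, ℝ) := ProjGenLinGroup.mk.comp (lift8 hlf)
noncomputable def iota2 : GG →* PGL(8, ℝ) := ProjGenLinGroup.mk.comp (lift8 dgm)

theorem act1 : Act L0 iota1 fun _ v => v := by
  intro g y hy
  show ProjGenLinGroup.mk (lift8 hlf g) • _ = _
  rw [mk_smul_pr _ (L_ne L0 hy)]
  show pr (blk (mt g) 1 *ᵥ L0 y) = _
  rw [blk_mulVec, one_mulVec, smul_eq]

theorem act2 : Act L0 iota2 fun g v => g • v := by
  intro g y hy
  show ProjGenLinGroup.mk (lift8 dgm g) • _ = _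
  rw [mk_smul_pr _ (L_ne L0 hy)]
  show pr (blk (mt g) (mt g) *ᵥ L0 y) = _
  rw [blk_mulVec]
  rfl

/-- the inclusions of the two blocks -/
noncomputable def Em : Fin 2 → Matrix (Fin 8) (Fin 4) ℝ :=
  ![LinearMap.toMatrix' (L0.toLinearMap ∘ₗ LinearMap.inl ℝ V4 V4),
    LinearMap.toMatrix' (L0.toLinearMap ∘ₗ LinearMap.inr ℝ V4 V4)]

/-- the projections onto the two blocks -/
noncomputable def Fm : Fin 2 → Matrix (Fin 4) (Fin 8) ℝ :=
  ![LinearMap.toMatrix' (LinearMap.fst ℝ V4 V4 ∘ₗ L0.symm.toLinearMap),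
    LinearMap.toMatrix' (LinearMap.snd ℝ V4 V4 ∘ₗ L0.symm.toLinearMap)]

theorem Em0 (v : V4) : Em 0 *ᵥ v = L0 (v, 0) := by simp [Em, LinearMap.toMatrix'_mulVec]
theorem Em1 (v : V4) : Em 1 *ᵥ v = L0 (0, v) := by simp [Em, LinearMap.toMatrix'_mulVec]
theorem Fm0 (y : W) : Fm 0 *ᵥ L0 y = y.1 := by simp [Fm, LinearMap.toMatrix'_mulVec]
theorem Fm1 (y : W) : Fm 1 *ᵥ L0 y = y.2 := by simp [Fm, LinearMap.toMatrix'_mulVec]

theorem dgm_mulVec (A : M4) (y : W) : dgm A *ᵥ L0 y = L0 (A *ᵥ y.1, A *ᵥ y.2) := blk_mulVec A A y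

theorem dgm_Em (A : M4) (p : Fin 2) : dgm A * Em p = Em p * A := by
  refine Matrix.toLin'.injective (LinearMap.ext fun v => ?_)
  rw [toLin'_apply, toLin'_apply, ← mulVec_mulVec, ← mulVec_mulVec]
  fin_cases p
  · simp only [Fin.zero_eta, Em0, dgm_mulVec, mulVec_zero]
  · simp only [Fin.mk_one, Em1, dgm_mulVec, mulVec_zero]

theorem Fm_dgm (A : M4) (p : Fin 2) : Fm p * dgm A = A * Fm p := by
  refine Matrix.toLin'.injective (LinearMap.ext fun v => ?_)
  obtain ⟨y, rfl⟩ := L0.surjective v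
  rw [toLin'_apply, toLin'_apply, ← mulVec_mulVec, ← mulVec_mulVec]
  fin_cases p
  · simp only [Fin.zero_eta, Fm0, dgm_mulVec]
  · simp only [Fin.mk_one, Fm1, dgm_mulVec]

theorem Em_Fm : ∑ p, Em p * Fm p = 1 := m_ext fun y => by
  rw [Fin.sum_univ_two, add_mulVec, ← mulVec_mulVec, ← mulVec_mulVec, Fm0, Fm1, Em0, Em1, ← map_add,
    one_mulVec]
  simp

theorem der_blk (a : Fin 3 → M4) (U : Fin 3 → M8) (p q : Fin 2) (l : List (Fin 3)) :
    Fm p * der (fun i => dgm (a i)) U l * Em q = der a (fun i => Fm p * U i * Em q) l := by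
  induction l with
  | nil => simp [der_nil]
  | cons i l ih =>
    rw [der_cons, der_cons, ← ih, ← map_wd, Matrix.mul_add, Matrix.add_mul, ← Matrix.mul_assoc,
      Matrix.mul_assoc _ (dgm _), dgm_Em, ← Matrix.mul_assoc, ← Matrix.mul_assoc, Fm_dgm,
      Matrix.mul_assoc (a i), Matrix.mul_assoc (a i)]

theorem sum_blk (U : M8) : U = ∑ p, ∑ q, Em p * (Fm p * U * Em q) * Fm q := by
  have : U = (∑ p, Em p * Fm p) * U * ∑ q, Em q * Fm q := by rw [Em_Fm, one_mul, mul_one]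
  refine this.trans ?_
  rw [Finset.sum_mul, Finset.sum_mul]
  refine Finset.sum_congr rfl fun p _ => ?_
  rw [Finset.mul_sum]
  exact Finset.sum_congr rfl fun q _ => by simp only [Matrix.mul_assoc]

/-- the generators as real matrices -/
noncomputable def a4 (i : Fin 3) : M4 := (x3 i).map sg

theorem a4_rel (j : Fin 3) : wd a4 (ru j) = wd a4 (rv j) := by
  have := congrArg sg.mapMatrix (x3_rel j)
  rwa [map_wd, map_wd] at this

theorem a4_det : (Nm ru rv cM cN a4).det ≠ 0 := fun h => by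
  have := sg.map_det (Nm ru rv cM cN x3)
  rw [map_Nm] at this
  exact cert_det (sg_inj (by rw [map_zero]; exact this.trans h))

/-- the generators in the diagonal representation -/
noncomputable def a8 (i : Fin 3) : M8 := dgm (a4 i)

theorem a8_rel (j : Fin 3) : wd a8 (ru j) = wd a8 (rv j) := by
  have := congrArg dgm (a4_rel j)
  rwa [map_wd, map_wd] at this

theorem a8_h1 (U : Fin 3 → M8) (h : ∀ j, der a8 U (ru j) = der a8 U (rv j)) :
    ∃ X, ∀ i, U i = X * a8 i - a8 i * X := by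
  choose X hX using fun p q => h1_zero a4_rel a4_det (fun i => Fm p * U i * Em q) fun j => by
    rw [← der_blk, ← der_blk]
    exact congrArg (fun Z => Fm p * Z * Em q) (h j)
  refine ⟨∑ p, ∑ q, Em p * X p q * Fm q, fun i => ?_⟩
  rw [sum_blk (U i), Finset.sum_mul, Finset.mul_sum, ← Finset.sum_sub_distrib]
  refine Finset.sum_congr rfl fun p _ => ?_
  rw [Finset.sum_mul, Finset.mul_sum, ← Finset.sum_sub_distrib]
  refine Finset.sum_congr rfl fun q _ => ?_
  rw [hX, a8, Matrix.mul_assoc _ (Fm q), Fm_dgm, ← Matrix.mul_assoc (dgm _), ← Matrix.mul_assoc (dgm _),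
    dgm_Em, Matrix.mul_sub, Matrix.sub_mul]
  simp only [Matrix.mul_assoc]

theorem a8_weil : ∀ᶠ b in 𝓝 a8, (∀ j, wd b (ru j) = wd b (rv j)) →
    ∃ g : M8, IsUnit g ∧ ∀ i, b i * g = g * a8 i := by
  let _ : NormedRing M8 := Matrix.linftyOpNormedRing
  let _ : NormedAlgebra ℝ M8 := Matrix.linftyOpNormedAlgebra
  exact weil a8 ru rv a8_rel a8_h1

/-- the generators in the group -/
noncomputable def g3 (i : Fin 3) : GG := gen (i.castAdd 3)

/-- the base point -/
noncomputable def A8 (i : Fin 3) : GL (Fin 8) ℝ := lift8 dgm (g3 i)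

theorem A8_val (i : Fin 3) : (A8 i : M8) = a8 i := rfl

theorem a8_det (i : Fin 3) : (a8 i).det ≠ 0 := (A8 i).det_ne_zero

theorem scalar_of {S : GL (Fin 8) ℝ} (h : (ProjGenLinGroup.mk S : PGL(8, ℝ)) = 1) :
    ∃ μ : ℝ, (S : M8) = μ • (1 : M8) := by
  rw [ProjGenLinGroup.mk_eq_one, GeneralLinearGroup.center_eq_range_scalar] at h
  obtain ⟨u, hu⟩ := h
  exact ⟨u, by rw [← hu]; simp [GeneralLinearGroup.coe_scalar, smul_one_eq_diagonal]⟩

/-- the normalising scalar -/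
noncomputable def cf (i : Fin 3) (S : M8) : ℝ := (√√√(S.det / (a8 i).det))⁻¹

/-- normalisation of the lifts -/
noncomputable def nm (S : Fin 3 → M8) (i : Fin 3) : M8 := cf i (S i) • S i

theorem cf_pos {i : Fin 3} {S : M8} (h : 0 < S.det / (a8 i).det) : 0 < cf i S := by
  unfold cf
  positivity

theorem nm_det {S : Fin 3 → M8} {i : Fin 3} (h : 0 < (S i).det / (a8 i).det) :
    (nm S i).det = (a8 i).det := by
  have h1 : (√√√((S i).det / (a8 i).det)) ^ 8 = (S i).det / (a8 i).det := by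
    generalize (S i).det / (a8 i).det = x at h
    rw [show 8 = 2 * (2 * 2) from rfl, pow_mul, Real.sq_sqrt (Real.sqrt_nonneg _), pow_mul,
      Real.sq_sqrt (Real.sqrt_nonneg _), Real.sq_sqrt h.le]
  have h2 : (S i).det ≠ 0 := fun e => by simp [e] at h
  rw [nm, det_smul, Fintype.card_fin, cf, inv_pow, h1, inv_div, div_mul_cancel₀ _ h2]

theorem nm_base : nm a8 = a8 := funext fun i => by simp [nm, cf, div_self (a8_det i)]

theorem nm_cont : Tendsto nm (𝓝 a8) (𝓝 a8) := by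
  have : ContinuousAt nm a8 := continuousAt_pi.2 fun i => by
    refine ContinuousAt.smul (f := fun S : Fin 3 → M8 => cf i (S i)) ?_ (continuousAt_apply i a8)
    refine ContinuousAt.inv₀ (Continuous.continuousAt ?_) (by simp [div_self (a8_det i)])
    exact (((continuous_apply i).matrix_det).div_const _).sqrt.sqrt.sqrt
  simpa only [ContinuousAt, nm_base] using this

theorem cont_wd (l : List (Fin 3)) : Continuous fun b : Fin 3 → M8 => wd b l := by
  induction l with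
  | nil => exact continuous_const
  | cons i l ih =>
    simp only [wd_cons]
    exact (continuous_apply i).mul ih

theorem wd_det (b : Fin 3 → M8) (h : ∀ i, (b i).det = (a8 i).det) (l : List (Fin 3)) :
    (wd b l).det = (wd a8 l).det ∧ (wd a8 l).det ≠ 0 := by
  induction l with
  | nil => simp [wd_nil]
  | cons i l ih =>
    rw [wd_cons, wd_cons, det_mul, det_mul, h, ih.1]
    exact ⟨rfl, mul_ne_zero (a8_det i) ih.2⟩

theorem wd_nm (S : Fin 3 → M8) (h : ∀ i, 0 < (S i).det / (a8 i).det) (l : List (Fin 3)) :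
    ∃ c : ℝ, c ≠ 0 ∧ wd (nm S) l = c • wd S l := by
  induction l with
  | nil => exact ⟨1, one_ne_zero, by simp [wd_nil]⟩
  | cons i l ih =>
    obtain ⟨c, hc, e⟩ := ih
    exact ⟨cf i (S i) * c, mul_ne_zero (cf_pos (h i)).ne' hc, by
      rw [wd_cons, wd_cons, e, nm, smul_mul_smul_comm]⟩

theorem wd_mk {ψ : GG →* PGL(8, ℝ)} {S : Fin 3 → GL (Fin 8) ℝ}
    (h : ∀ i, ψ (g3 i) = ProjGenLinGroup.mk (S i)) (l : List (Fin 3)) :
    ψ (l.map g3).prod = ProjGenLinGroup.mk (l.map S).prod ∧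
      ((l.map S).prod : GL (Fin 8) ℝ) = wd (fun i => (S i : M8)) l ∧ mt (l.map g3).prod = wd a4 l := by
  induction l with
  | nil => simp [wd_nil, mt_one]
  | cons i l ih =>
    simp only [List.map_cons, List.prod_cons, map_mul, wd_cons, Units.val_mul, mt_mul, ih.1, ih.2.1,
      ih.2.2, h, true_and]
    rfl

theorem near_rel : ∀ᶠ b in 𝓝 a8, (∀ i, (b i).det = (a8 i).det) →
    ∀ j, (∃ μ : ℝ, wd b (ru j) = μ • wd b (rv j)) → wd b (ru j) = wd b (rv j) := by
  have k : ∀ l : List (Fin 3), ∀ Z : M8, wd a8 l = Z → ∀ᶠ b in 𝓝 a8, 0 < (wd b l * Z⁻¹).trace := by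
    rintro l _ rfl
    refine (((cont_wd l).mul continuous_const).matrix_trace.tendsto a8).eventually (lt_mem_nhds ?_)
    show 0 < (wd a8 l * (wd a8 l)⁻¹).trace
    rw [mul_nonsing_inv _ (Ne.isUnit (wd_det a8 (fun _ => rfl) l).2)]
    simp
  filter_upwards [eventually_all.2 fun j => (k (ru j) _ rfl).and (k (rv j) _ (a8_rel j).symm)] with
    b hb hd j ⟨μ, hμ⟩
  obtain ⟨k1, k2⟩ := hb j
  have h1 := congrArg det hμ
  rw [det_smul, (wd_det b hd _).1, (wd_det b hd _).1, a8_rel j, Fintype.card_fin] at h1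
  have h2 : μ ^ 8 = 1 := (mul_left_eq_self₀.1 h1.symm).resolve_right (wd_det b hd _).2
  rw [hμ, smul_mul_assoc, trace_smul, smul_eq_mul] at k1
  have h3 : 0 < μ := (mul_pos_iff_of_pos_right k2).1 k1
  rw [hμ, (pow_eq_one_iff_of_nonneg h3.le (by norm_num)).1 h2, one_smul]

theorem rigid : ∀ᶠ S in 𝓝 A8, ∀ ψ : GG →* PGL(8, ℝ), (∀ i, ψ (g3 i) = ProjGenLinGroup.mk (S i)) →
    ∃ L, Act L ψ fun g v => g • v := by
  have t1 : Tendsto (fun (S : Fin 3 → GL (Fin 8) ℝ) i => (S i : M8)) (𝓝 A8) (𝓝 a8) :=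
    (continuous_pi fun i => Units.continuous_val.comp (continuous_apply i)).tendsto A8
  have t2 : ∀ᶠ S in 𝓝 a8, ∀ i, 0 < (S i).det / (a8 i).det := eventually_all.2 fun i =>
    ((((continuous_apply i).matrix_det).div_const _).tendsto a8).eventually
      (lt_mem_nhds (by simp [div_self (a8_det i)]))
  filter_upwards [t1.eventually t2, (nm_cont.comp t1).eventually near_rel,
    (nm_cont.comp t1).eventually a8_weil] with S h1 h2 h3 ψ hψ
  obtain ⟨M, hM, hj⟩ := h3 fun j => h2 (fun i => nm_det (h1 i)) j (by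
    obtain ⟨u1, u2, u3⟩ := wd_mk hψ (ru j)
    obtain ⟨v1, v2, v3⟩ := wd_mk hψ (rv j)
    have e : ((ru j).map g3).prod = ((rv j).map g3).prod := mt_inj (by rw [u3, v3, a4_rel])
    obtain ⟨μ, hμ⟩ := scalar_of (S := ((ru j).map S).prod * (((rv j).map S).prod)⁻¹)
      (by rw [map_mul, map_inv, ← u1, ← v1, e, mul_inv_cancel])
    rw [Units.val_mul, Units.mul_inv_eq_iff_eq_mul, u2, v2, smul_mul_assoc, one_mul] at hμ
    obtain ⟨c, -, hc⟩ := wd_nm _ h1 (ru j)
    obtain ⟨d, hd0, hd⟩ := wd_nm _ h1 (rv j)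
    refine ⟨c * μ * d⁻¹, ?_⟩
    simp only [Function.comp_apply]
    rw [hc, hd, hμ, smul_smul, smul_smul, inv_mul_cancel_right₀ hd0])
  let L : W ≃ₗ[ℝ] V8 := L0.trans (Matrix.toLinearEquiv' M hM.invertible)
  have hL : ∀ y, L y = M *ᵥ L0 y := fun y => rfl
  have step : ∀ i, ∀ y : W, y ≠ 0 → ψ (g3 i) • pr (L y) = pr (L (g3 i • y)) := by
    intro i y hy
    rw [hψ, mk_smul_pr _ (L_ne L hy), ← pr_smul (mulVec_ne_zero (S i) (L_ne L hy)) (cf_pos (h1 i)).ne',
      ← smul_mulVec, hL, hL, mulVec_mulVec]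
    show pr ((nm (fun i => (S i : M8)) i * M) *ᵥ L0 y) = _
    rw [show nm (fun i => (S i : M8)) i * M = M * a8 i from hj i, ← mulVec_mulVec, a8, dgm_mulVec]
    rfl
  have step' : ∀ i : Fin 6, ∀ y : W, y ≠ 0 → ψ (gen i) • pr (L y) = pr (L (gen i • y)) := by
    have inv : ∀ i, ∀ y : W, y ≠ 0 → ψ (g3 i)⁻¹ • pr (L y) = pr (L ((g3 i)⁻¹ • y)) := by
      intro i y hy
      rw [map_inv, inv_smul_eq_iff, step i _ (gW_ne _ hy), smul_inv_smul]
    intro i
    fin_cases i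
    exacts [step 0, step 1, step 2, inv 0, inv 1, inv 2]
  refine ⟨L, fun g => ?_⟩
  show ∀ y : W, y ≠ 0 → ψ g • pr (L y) = pr (L (g • y))
  induction g using g_ind with
  | h0 => intro y _; simp
  | h1 i g ih => intro y hy; rw [map_mul, mul_smul, ih y hy, step' i _ (gW_ne g hy), mul_smul]

theorem main : ∃ Γ : Subgroup PGL(8, ℝ), CC Γ ∧ (∀ g : Γ, IsOfFinOrder g → g = 1) ∧
    (∃ f : FreeGroup (Fin 2) →* Γ, Function.Injective f) ∧
    ∃ (ρ : Γ →* PGL(8, ℝ)) (U : Set (Γ → PGL(8, ℝ))), IsOpen U ∧ ⇑ρ ∈ U ∧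
      (∀ ρ' : Γ →* PGL(8, ℝ), ⇑ρ' ∈ U → Function.Injective ρ' ∧ NaiveCC ρ'.range) ∧
      ¬ CC ρ.range := by
  let e := MonoidHom.ofInjective act1.injective
  have hrange : ∀ ρ' : iota1.range →* PGL(8, ℝ), (ρ'.comp e.toMonoidHom).range = ρ'.range := by
    intro ρ'
    ext x
    constructor
    · rintro ⟨d, rfl⟩
      exact ⟨e d, rfl⟩
    · rintro ⟨d, rfl⟩
      exact ⟨e.symm d, by simp⟩
  obtain ⟨f, hf⟩ := free_two
  obtain ⟨V, hV, hVo, hVA⟩ := eventually_nhds_iff.1 rigid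
  refine ⟨_, act1.cc, fun g hg => ?_, ⟨e.toMonoidHom.comp f, e.injective.comp hf⟩,
    iota2.comp e.symm.toMonoidHom,
    (fun f i => f (e (g3 i))) ⁻¹' (Pi.map (fun _ => ProjGenLinGroup.mk) '' V), ?_, ?_, ?_, ?_⟩
  · exact e.symm.map_eq_one_iff.1 (torsion_free _ (e.symm.toMonoidHom.isOfFinOrder hg))
  · exact (IsOpenMap.piMap (fun _ => isOpenMap_mk) (by simp) _ hVo).preimage
      (continuous_pi fun _ => continuous_apply _)
  · exact ⟨A8, hVA, funext fun i => by simp [iota2, A8]⟩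
  · rintro ρ' ⟨S, hS, h⟩
    obtain ⟨L, hstd⟩ := hV S hS (ρ'.comp e.toMonoidHom) fun i => (congrFun h i).symm
    refine ⟨?_, hrange ρ' ▸ hstd.naive⟩
    exact Function.Injective.of_comp_right (g := e) hstd.injective e.surjective
  · rw [← hrange]
    have : (iota2.comp e.symm.toMonoidHom).comp e.toMonoidHom = iota2 := by
      ext d
      simp
    rw [this]
    exact act2.not_cc

end Pool.Agent.P.MP_7d68c1_gt.Eight
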