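import Pool.Agent.P.MP_7d68c1_gt.TBasic
import Pool.Agent.P.MP_7d68c1_gt.TFree

open scoped LinearAlgebra.Projectivization MatrixGroups Topology
open Matrix Filter Set

namespace Pool.Agent.P.MP_7d68c1_gt.Eight

abbrev W := V4 × V4
abbrev M8 := Matrix (Fin 8) (Fin 8) ℝ

theorem accPt_of_seq {X : Type} [TopologicalSpace X] {S : Set X} {y : X} {u : ℕ → X}
    (h1 : ∀ n, u n ∈ S) (h2 : ∀ n, u n ≠ y) (h3 : Tendsto u atTop (𝓝 y)) : AccPt y (𝓟 S) := by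
  rw [accPt_iff_frequently]
  exact h3.frequently (Frequently.of_forall fun n => ⟨h2 n, h1 n⟩)

instance : T1Space PGL(8, ℝ) := by
  have : IsClosed (Subgroup.center (GL (Fin 8) ℝ) : Set (GL (Fin 8) ℝ)) := by
    rw [Subgroup.coe_center, ← Set.centralizer_univ]
    exact Set.isClosed_centralizer _
  exact QuotientGroup.instT1Space (N := Subgroup.center (GL (Fin 8) ℝ))

theorem L_ne (L : W ≃ₗ[ℝ] V8) {y : W} (hy : y ≠ 0) : L y ≠ 0 := L.map_ne_zero_iff.2 hy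

theorem cont_L (L : W ≃ₗ[ℝ] V8) : Continuous L := L.toLinearMap.continuous_of_finiteDimensional

theorem cont_Ls (L : W ≃ₗ[ℝ] V8) : Continuous L.symm :=
  L.symm.toLinearMap.continuous_of_finiteDimensional

theorem ne_of_fst {y : W} (h : y.1 ≠ 0) : y ≠ 0 := fun e => h (by rw [e]; rfl)

theorem pr_L_eq {L : W ≃ₗ[ℝ] V8} {y z : W} (hy : y ≠ 0) (hz : z ≠ 0) (h : pr (L y) = pr (L z)) :
    ∃ t : ℝ, t • z = y := by
  obtain ⟨t, ht⟩ := (pr_eq_iff (L_ne L hy) (L_ne L hz)).1 h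
  exact ⟨t, L.injective (by rw [map_smul, ht])⟩

theorem pr_L_smul (L : W ≃ₗ[ℝ] V8) {y : W} (hy : y ≠ 0) {t : ℝ} (ht : t ≠ 0) :
    pr (L (t • y)) = pr (L y) := by
  rw [map_smul, pr_smul (L_ne L hy) ht]

theorem exists_pr_L (L : W ≃ₗ[ℝ] V8) (x : P8) : ∃ y : W, y ≠ 0 ∧ pr (L y) = x :=
  ⟨L.symm x.rep, L.symm.map_ne_zero_iff.2 x.rep_nonzero, by rw [L.apply_symm_apply, pr_rep]⟩

/-- the projectivisation of a scale invariant set given in coordinates -/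
def PP (L : W ≃ₗ[ℝ] V8) (A : Set W) : Set P8 := {x | x.rep ∈ L.symm ⁻¹' A}

def Sc (A : Set W) : Prop := ∀ y ∈ A, ∀ t : ℝ, t ≠ 0 → t • y ∈ A

theorem Sc.pre {A : Set W} (h : Sc A) (L : W ≃ₗ[ℝ] V8) :
    ∀ v ∈ L.symm ⁻¹' A, ∀ t : ℝ, t ≠ 0 → t • v ∈ L.symm ⁻¹' A := by
  intro v hv t ht
  rw [mem_preimage, map_smul]
  exact h _ hv t ht

theorem Sc.mem {A : Set W} (h : Sc A) (L : W ≃ₗ[ℝ] V8) {y : W} (hy : y ≠ 0) :
    pr (L y) ∈ PP L A ↔ y ∈ A := by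
  show (pr (L y)).rep ∈ L.symm ⁻¹' A ↔ _
  rw [rep_pr_mem (h.pre L) (L_ne L hy), mem_preimage, L.symm_apply_apply]

theorem Sc.isOpen {A : Set W} (h : Sc A) (L : W ≃ₗ[ℝ] V8) (hA : IsOpen A) : IsOpen (PP L A) :=
  isOpen_rep (hA.preimage (cont_Ls L)) (h.pre L)

theorem Sc.isClosed {A : Set W} (h : Sc A) (L : W ≃ₗ[ℝ] V8) (hA : IsClosed A) : IsClosed (PP L A) :=
  isClosed_rep (hA.preimage (cont_Ls L)) (h.pre L)

/-- ψ acts in block form in the coordinates L -/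
def Act (L : W ≃ₗ[ℝ] V8) (ψ : GG →* PGL(8, ℝ)) (β : GG → V4 → V4) : Prop :=
  ∀ (g : GG) (y : W), y ≠ 0 → ψ g • pr (L y) = pr (L (g • y.1, β g y.2))

variable {L : W ≃ₗ[ℝ] V8} {ψ : GG →* PGL(8, ℝ)} {β : GG → V4 → V4}

theorem Act.injective (h : Act L ψ β) : Function.Injective ψ := by
  rw [injective_iff_map_eq_one]
  intro g hg
  have key : ∀ v ∈ Cn, g • v = v := by
    intro v hv
    have h0 : ((v, 0) : W) ≠ 0 := ne_of_fst (Cn_ne hv)
    have h1 := h g (v, 0) h0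
    rw [hg, one_smul] at h1
    obtain ⟨t, ht⟩ := pr_L_eq (ne_of_fst (Cn_ne (Cn_smul g v hv))) h0 h1.symm
    have h2 : t • v = g • v := congrArg Prod.fst ht
    have h3 := Bf_smul g v v
    have h4 := (Cn_smul g v hv).1
    rw [← h2] at h3 h4 ⊢
    have h5 : Bf (t • v) (t • v) = t * t * Bf v v := by simp [Bf]; ring
    have h6 : 0 < t * v 3 := h4
    have h7 : 0 < t := (mul_pos_iff_of_pos_right hv.1).1 h6
    have h8 : t * t = 1 := by
      rw [h5] at h3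
      exact mul_right_cancel₀ hv.2.ne (by rw [h3, one_mul])
    have : t = 1 := by nlinarith
    rw [this, one_smul]
  apply g_ext
  intro v
  have k0 := key _ ee_mem
  have k1 := key ![1, 0, 0, 1] ⟨by simp, by simp [Bf]; linarith [gr_lo]⟩
  have k2 := key ![0, 1, 0, 1] ⟨by simp, by simp [Bf]; linarith [gr_lo]⟩
  have k3 := key ![0, 0, 1, 1] ⟨by simp, by simp [Bf]; linarith [gr_lo]⟩
  have e : v = v 0 • ![1, 0, 0, 1] + v 1 • ![0, 1, 0, 1] + v 2 • ![0, 0, 1, 1] +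
      (v 3 - v 0 - v 1 - v 2) • ee := by
    apply ext4 <;> simp [ee]
  rw [one_smul, e, smul_add, smul_add, smul_add, g_smul, g_smul, g_smul, g_smul, k0, k1, k2, k3]

theorem Act.infinite (h : Act L ψ β) : Infinite ψ.range :=
  Infinite.of_injective _ (MonoidHom.ofInjective h.injective).injective

theorem Act.discrete (h : Act L ψ β) : DiscreteTopology ψ.range := by
  let A : Set W := {y | y.1 3 * y.1 3 < -Bf y.1 y.1}
  have hA : IsOpen A := isOpen_lt (by fun_prop) (continuous_Bf.comp continuous_fst).neg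
  have hs : Sc A := by
    intro y hy t ht
    have h1 : y.1 3 * y.1 3 < -Bf y.1 y.1 := hy
    have h2 : 0 < t * t := mul_self_pos.2 ht
    show (t • y).1 3 * (t • y).1 3 < -Bf (t • y).1 (t • y).1
    rw [Prod.smul_fst, Bf_sm, Pi.smul_apply, smul_eq_mul]
    nlinarith
  have h0 : ((ee, 0) : W) ≠ 0 := ne_of_fst (Cn_ne ee_mem)
  let O : Set ψ.range := {k | k.1 • pr (L (ee, 0)) ∈ PP L A}
  have hO : IsOpen O :=
    (hs.isOpen L hA).preimage ((continuous_orbit (L_ne L h0)).comp continuous_subtype_val)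
  have h1 : (1 : ψ.range) ∈ O := by
    show (1 : PGL(8, ℝ)) • pr (L (ee, 0)) ∈ PP L A
    rw [one_smul, hs.mem L h0]
    simp [A, ee, Bf]
    linarith [gr_lo]
  have hf : O.Finite := by
    refine ((finite_le ee_mem 2).image ψ.rangeRestrict).subset ?_
    rintro ⟨_, g, rfl⟩ hk
    refine ⟨g, ?_, rfl⟩
    have h2 : ψ g • pr (L (ee, 0)) ∈ PP L A := hk
    rw [h g _ h0, hs.mem L (ne_of_fst (Cn_ne (Cn_smul g _ ee_mem)))] at h2
    have h3 : (g • ee) 3 * (g • ee) 3 < -Bf (g • ee) (g • ee) := h2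
    rw [Bf_smul, Bf_ee_ee] at h3
    show (g • ee) 3 ≤ 2
    nlinarith [gr_hi]
  apply discreteTopology_of_isOpen_singleton_one
  have : ({1} : Set ψ.range) = O \ (O \ {1}) := by
    rw [Set.sdiff_sdiff_cancel_left (singleton_subset_iff.2 h1)]
  rw [this]
  exact hO.sdiff (hf.subset Set.sdiff_subset).isClosed

theorem mem_orbit_range {x y : P8} : y ∈ MulAction.orbit ψ.range x ↔ ∃ d, ψ d • x = y := by
  constructor
  · rintro ⟨⟨_, d, rfl⟩, h⟩
    exact ⟨d, h⟩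
  · rintro ⟨d, h⟩
    exact ⟨⟨_, d, rfl⟩, h⟩

/-- the compact fundamental piece -/
def KK (C : ℝ) : Set V4 := {v | v 3 = 1 ∧ 1 ≤ C * -Bf v v}

theorem KK_sub {C : ℝ} (hC : 0 < C) {v : V4} (hv : v ∈ KK C) : v ∈ Cn :=
  ⟨by rw [hv.1]; exact one_pos,
    neg_pos.1 ((mul_pos_iff_of_pos_left hC).1 (one_pos.trans_le hv.2))⟩

theorem isCompact_KK {C : ℝ} (hC : 0 < C) : IsCompact (KK C) := by
  refine (isCompact_closedBall (0 : V4) 2).of_isClosed_subset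
    ((isClosed_eq (continuous_apply 3) continuous_const).inter
      (isClosed_le continuous_const (continuous_const.mul continuous_Bf.neg))) fun v hv => ?_
  rw [mem_closedBall_zero_iff, pi_norm_le_iff_of_nonneg zero_le_two]
  intro i
  simpa [hv.1] using Cn_abs (KK_sub hC hv) i

theorem descent' : ∃ C : ℝ, 0 < C ∧ ∀ v ∈ Cn, ∃ (g : GG) (t : ℝ), 0 < t ∧ t • g • v ∈ KK C := by
  obtain ⟨C, hC, h⟩ := descent
  refine ⟨C, hC, fun v hv => ?_⟩
  obtain ⟨g, h0⟩ := h v hv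
  have h2 := (Cn_smul g v hv).1
  refine ⟨g, ((g • v) 3)⁻¹, inv_pos.2 h2, inv_mul_cancel₀ h2.ne', ?_⟩
  rw [Bf_sm, Bf_smul, ← mul_neg, mul_left_comm, ← mul_inv, le_inv_mul_iff₀ (mul_pos h2 h2), mul_one]
  exact h0

/-- the graph of a linear map over the cone has compact quotient -/
theorem Act.graph_compact (h : Act L ψ β) (c : ℝ) (hβ : ∀ g v, β g (c • v) = c • g • v) :
    CompactQuotient ψ.range ((fun v : V4 => pr (L (v, c • v))) '' Cn) := by
  obtain ⟨C, hC, hd⟩ := descent'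
  refine compactQuotient_of (K := (fun v : V4 => pr (L (v, c • v))) '' KK C) ?_
    (image_mono fun v hv => KK_sub hC hv) ?_
  · refine (isCompact_KK hC).image_of_continuousOn ?_
    refine continuousOn_pr.comp ((cont_L L).comp (by fun_prop)).continuousOn ?_
    intro v hv
    exact L_ne L (ne_of_fst (Cn_ne (KK_sub hC hv)))
  · rintro _ ⟨v, hv, rfl⟩
    obtain ⟨g, t, ht, hk⟩ := hd v hv
    refine ⟨ψ g, ⟨g, rfl⟩, _, hk, ?_⟩
    have e : ((t • g • v, c • t • g • v) : W) = t • (g • v, c • g • v) := by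
      rw [Prod.smul_mk, smul_comm c t]
    simp only
    rw [h g _ (ne_of_fst (Cn_ne hv)), hβ, e, pr_L_smul L (ne_of_fst (Cn_ne (Cn_smul g v hv))) ht.ne']

theorem convex_of_cone {A : Set W} (h1 : ∀ y ∈ A, ∀ t : ℝ, 0 < t → t • y ∈ A)
    (h2 : ∀ y ∈ A, ∀ z ∈ A, y + z ∈ A) : Convex ℝ A := by
  rw [convex_iff_forall_pos]
  intro y hy z hz a b ha hb _
  exact h2 _ (h1 y hy a ha) _ (h1 z hz b hb)

theorem convex_chart_L {φ : V8 →ₗ[ℝ] ℝ} {A : Set W} (h0 : ∀ y ∈ A, 0 < φ (L y))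
    (h1 : ∀ y ∈ A, ∀ t : ℝ, 0 < t → t • y ∈ A) (h2 : ∀ y ∈ A, ∀ z ∈ A, y + z ∈ A) :
    Convex ℝ (chart φ ((fun y => pr (L y)) '' A)) := by
  have e : (fun y => pr (L y)) '' A = pr '' (L '' A) := by rw [image_image]
  rw [e]
  refine convex_chart_image ?_ ?_ ((convex_of_cone h1 h2).linear_image L.toLinearMap)
  · rintro _ ⟨y, hy, rfl⟩
    exact h0 y hy
  · rintro _ ⟨y, hy, rfl⟩ t ht
    exact ⟨t • y, h1 y hy t ht, map_smul _ _ _⟩

theorem isOpen_image_L {A : Set W} (hA : IsOpen A) (h0 : ∀ y ∈ A, y ≠ 0) :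
    IsOpen ((fun y => pr (L y)) '' A) := by
  have e : (fun y => pr (L y)) '' A = pr '' (L.symm ⁻¹' A) := by
    rw [← image_image, ← L.image_eq_preimage_symm]
  rw [e]
  refine isOpen_image_pr (hA.preimage (cont_Ls L)) fun v hv e => h0 _ hv ?_
  rw [e, map_zero]

/-- closure in an affine chart, from a closed scale invariant superset -/
theorem closure_chart {φ : V8 →ₗ[ℝ] ℝ} {A B : Set W} (h0 : ∀ y ∈ A, y ≠ 0) (hAB : A ⊆ B) (hs : Sc B)
    (hB : IsClosed B) (h : ∀ y ∈ B, φ (L y) = 0 → y = 0) :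
    ∀ x ∈ closure ((fun y => pr (L y)) '' A), φ x.rep ≠ 0 := by
  intro x hx
  have h1 : x ∈ PP L B := by
    refine closure_minimal ?_ (hs.isClosed L hB) hx
    rintro _ ⟨y, hy, rfl⟩
    exact (hs.mem L (h0 y hy)).2 (hAB hy)
  intro e
  have h2 := h _ h1 (by rwa [L.apply_symm_apply])
  exact x.rep_nonzero (L.symm.map_eq_zero_iff.1 h2)

/-- the linear form a z1 + b z2 -/
noncomputable def ph (L : W ≃ₗ[ℝ] V8) (b : ℝ) : V8 →ₗ[ℝ] ℝ :=
  ((LinearMap.proj 3 : V4 →ₗ[ℝ] ℝ) ∘ₗ LinearMap.fst ℝ V4 V4 +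
    b • ((LinearMap.proj 3 : V4 →ₗ[ℝ] ℝ) ∘ₗ LinearMap.snd ℝ V4 V4)) ∘ₗ L.symm.toLinearMap

theorem ph_L (b : ℝ) (y : W) : ph L b (L y) = y.1 3 + b * y.2 3 := by
  simp [ph]

theorem eq_zero_of_Bf {v : V4} (h : Bf v v ≤ 0) (h2 : v 3 = 0) : v = 0 := by
  simp only [Bf, h2] at h
  have a := mul_self_nonneg (v 0)
  have b := mul_self_nonneg (v 1)
  have c := mul_self_nonneg (v 2)
  exact ext4 (mul_self_eq_zero.1 (by linarith)) (mul_self_eq_zero.1 (by linarith))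
    (mul_self_eq_zero.1 (by linarith)) h2

theorem Act.naive (h : Act L ψ fun g v => g • v) : NaiveCC ψ.range := by
  have h0 : ∀ y ∈ Cn ×ˢ Cn, y ≠ 0 := fun y hy => ne_of_fst (Cn_ne hy.1)
  refine ⟨h.infinite, h.discrete, ph L 1, (fun y => pr (L y)) '' (Cn ×ˢ Cn),
    (fun v : V4 => pr (L (v, (1 : ℝ) • v))) '' Cn, ⟨⟨_, (ee, ee), ⟨ee_mem, ee_mem⟩, rfl⟩,
      isOpen_image_L (isOpen_Cn.prod isOpen_Cn) h0, ?_, ?_, ?_⟩, ⟨_, ee, ee_mem, rfl⟩, ?_, ?_, ?_, ?_,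
      h.graph_compact 1 (fun g v => g_smul g 1 v)⟩
  · refine closure_chart (B := {y | Bf y.1 y.1 ≤ 0 ∧ Bf y.2 y.2 ≤ 0 ∧ 0 ≤ y.1 3 * y.2 3}) h0 ?_ ?_ ?_ ?_
    · rintro y ⟨a, b⟩
      exact ⟨a.2.le, b.2.le, (mul_pos a.1 b.1).le⟩
    · rintro y ⟨a, b, c⟩ t -
      have := mul_self_nonneg t
      refine ⟨?_, ?_, ?_⟩
      · rw [Prod.smul_fst, Bf_sm]
        exact mul_nonpos_of_nonneg_of_nonpos this a
      · rw [Prod.smul_snd, Bf_sm]
        exact mul_nonpos_of_nonneg_of_nonpos this b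
      · simp only [Prod.smul_fst, Prod.smul_snd, Pi.smul_apply, smul_eq_mul]
        nlinarith [mul_nonneg this c]
    · exact (isClosed_le (continuous_Bf.comp continuous_fst) continuous_const).inter
        ((isClosed_le (continuous_Bf.comp continuous_snd) continuous_const).inter
          (isClosed_le continuous_const (show Continuous fun y : W => y.1 3 * y.2 3 by fun_prop)))
    · rintro y ⟨a, b, c⟩ e
      rw [ph_L] at e
      have e0 : y.2 3 = -y.1 3 := by linarith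
      rw [e0] at c
      have e1 : y.1 3 = 0 := mul_self_eq_zero.1 (by nlinarith [mul_self_nonneg (y.1 3)])
      have e2 : y.2 3 = 0 := by linarith
      exact Prod.ext (eq_zero_of_Bf a e1) (eq_zero_of_Bf b e2)
  · refine convex_chart_L ?_ ?_ ?_
    · rintro y ⟨a, b⟩
      rw [ph_L]
      linarith [a.1, b.1]
    · rintro y ⟨a, b⟩ t ht
      exact ⟨Cn_pos_smul a ht, Cn_pos_smul b ht⟩
    · rintro y ⟨a, b⟩ z ⟨c, d⟩
      exact ⟨Cn_add a c, Cn_add b d⟩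
  · rintro _ ⟨g, rfl⟩ _ ⟨y, hy, rfl⟩
    exact ⟨(g • y.1, g • y.2), ⟨Cn_smul g _ hy.1, Cn_smul g _ hy.2⟩, (h g y (h0 y hy)).symm⟩
  · rintro _ ⟨v, hv, rfl⟩
    exact ⟨_, ⟨hv, by rwa [one_smul]⟩, rfl⟩
  · have hs : Sc {y : W | y.1 = y.2} := fun y hy t _ => congrArg (t • ·) hy
    have hcl : IsClosed {y : W | y.1 = y.2} := isClosed_eq continuous_fst continuous_snd
    refine (congrArg IsClosed ?_).mpr ((hs.isClosed L hcl).preimage continuous_subtype_val)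
    ext ⟨_, y, hy, rfl⟩
    simp only [mem_preimage]
    rw [hs.mem L (h0 y hy)]
    constructor
    · rintro ⟨v, hv, e⟩
      obtain ⟨t, ht⟩ := pr_L_eq (h0 y hy) (ne_of_fst (Cn_ne hv)) e.symm
      rw [← ht]
      simp
    · intro e
      refine ⟨y.1, hy.1, ?_⟩
      have e' : y.1 = y.2 := e
      simp only
      rw [one_smul]
      congr 2
      exact Prod.ext rfl e'
  · have e : (fun v : V4 => pr (L (v, (1 : ℝ) • v))) '' Cn =
        (fun y => pr (L y)) '' {y : W | y.1 ∈ Cn ∧ y.2 = y.1} := by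
      ext x
      constructor
      · rintro ⟨v, hv, rfl⟩
        exact ⟨_, ⟨hv, one_smul _ _⟩, rfl⟩
      · rintro ⟨⟨v, w⟩, ⟨hv, e⟩, rfl⟩
        obtain rfl : w = v := e
        exact ⟨w, hv, by simp⟩
    rw [e]
    refine convex_chart_L ?_ ?_ ?_
    · rintro y ⟨a, b⟩
      rw [ph_L, b]
      linarith [a.1]
    · rintro y ⟨a, b⟩ t ht
      exact ⟨Cn_pos_smul a ht, congrArg (t • ·) b⟩
    · rintro y ⟨a, b⟩ z ⟨c, d⟩
      exact ⟨Cn_add a c, by rw [Prod.snd_add, Prod.fst_add, b, d]⟩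
  · rintro _ ⟨g, rfl⟩ _ ⟨v, hv, rfl⟩
    refine ⟨g • v, Cn_smul g v hv, ?_⟩
    simp only
    rw [h g _ (ne_of_fst (Cn_ne hv))]
    simp only [one_smul]

end Pool.Agent.P.MP_7d68c1_gt.Eight
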