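import Mathlib

/-! Local rigidity from the vanishing of the first cohomology, for relations between positive words. -/

open Matrix Filter Set
open scoped Topology

namespace Pool.Agent.P.MP_7d68c1_gt.Eight

section ring

variable {A ι : Type} [Ring A]

/-- the value of a word -/
def wd (a : ι → A) (l : List ι) : A := (l.map a).prod

/-- the derivative of a word -/
def der (a U : ι → A) (l : List ι) : A :=
  l.rec 0 fun i l r => U i * wd a l + a i * r

theorem wd_nil (a : ι → A) : wd a [] = 1 := rfl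

theorem wd_cons (a : ι → A) (i : ι) (l : List ι) : wd a (i :: l) = a i * wd a l := by
  simp [wd]

theorem der_nil (a U : ι → A) : der a U [] = 0 := rfl

theorem der_cons (a U : ι → A) (i : ι) (l : List ι) :
    der a U (i :: l) = U i * wd a l + a i * der a U l := rfl

theorem der_cob (a : ι → A) (X : A) (l : List ι) :
    der a (fun i => X * a i - a i * X) l = X * wd a l - wd a l * X := by
  induction l with
  | nil => simp [der_nil, wd_nil]
  | cons i l ih =>
    rw [der_cons, ih, wd_cons]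
    noncomm_ring

theorem wd_conj {a b : ι → A} {g : A} (h : ∀ i, b i * g = g * a i) (l : List ι) :
    wd b l * g = g * wd a l := by
  induction l with
  | nil => simp [wd_nil]
  | cons i l ih => rw [wd_cons, wd_cons, mul_assoc, ih, ← mul_assoc, h, mul_assoc]

theorem map_wd {B F : Type} [Ring B] [FunLike F A B] [MonoidHomClass F A B] (f : F) (a : ι → A)
    (l : List ι) : f (wd a l) = wd (fun i => f (a i)) l := by
  induction l with
  | nil => simp [wd_nil]
  | cons i l ih => rw [wd_cons, wd_cons, map_mul, ih]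

end ring

section weil

variable {A ι κ : Type} [NormedRing A] [NormedAlgebra ℝ A] [FiniteDimensional ℝ A] [Fintype ι]
  [Fintype κ]

omit [FiniteDimensional ℝ A] in
theorem strict_wd (a : ι → A) (l : List ι) : ∃ D : (ι → A) →L[ℝ] A, (∀ U, D U = der a U l) ∧
    HasStrictFDerivAt (fun b => wd b l) D a := by
  induction l with
  | nil => exact ⟨0, fun _ => rfl, hasStrictFDerivAt_const (1 : A) a⟩
  | cons i l ih =>
    obtain ⟨D, h1, h2⟩ := ih
    refine ⟨_, fun U => ?_, by
      simpa only [wd_cons] using (hasStrictFDerivAt_apply (𝕜 := ℝ) i a).fun_mul' h2⟩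
    simp [der_cons, h1, add_comm]

theorem weil (a : ι → A) (u v : κ → List ι) (h0 : ∀ j, wd a (u j) = wd a (v j))
    (h : ∀ U : ι → A, (∀ j, der a U (u j) = der a U (v j)) → ∃ X, ∀ i, U i = X * a i - a i * X) :
    ∀ᶠ b in 𝓝 a, (∀ j, wd b (u j) = wd b (v j)) → ∃ g : A, IsUnit g ∧ ∀ i, b i * g = g * a i := by
  have : CompleteSpace A := FiniteDimensional.complete ℝ A
  choose D d1 d2 using strict_wd a
  let T : A →ₗ[ℝ] ι → A := LinearMap.pi fun i => LinearMap.mulRight ℝ (a i) - LinearMap.mulLeft ℝ (a i)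
  obtain ⟨W, hW⟩ := (LinearMap.range T).exists_isCompl
  let DD : (ι → A) →L[ℝ] κ → A := ContinuousLinearMap.pi fun j => D (u j) - D (v j)
  have hD : HasStrictFDerivAt (fun b j => wd b (u j) - wd b (v j)) DD a :=
    hasStrictFDerivAt_pi.2 fun j => (d2 (u j)).fun_sub (d2 (v j))
  obtain ⟨K, hK, hA⟩ := (DD.toLinearMap.comp W.subtype).exists_antilipschitzWith (by
    rw [LinearMap.ker_eq_bot']
    intro w hw
    obtain ⟨X, hX⟩ := h w fun j => by
      have := congrFun hw j
      rw [← d1, ← d1, ← sub_eq_zero]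
      exact this
    exact Subtype.ext (Submodule.disjoint_def.1 hW.disjoint _ ⟨X, funext fun i => (hX i).symm⟩ w.2))
  have hw0 : ∀ᶠ w : W in 𝓝 0, (∀ j, wd (a + w.1) (u j) = wd (a + w.1) (v j)) → w = 0 := by
    have h1 : Tendsto (fun w : W => a + w.1) (𝓝 0) (𝓝 a) :=
      Continuous.tendsto' (by fun_prop) 0 a (by simp)
    have hK' : (0 : ℝ) < K := hK
    filter_upwards [h1.eventually (hD.hasFDerivAt.isLittleO.def (c := 1 / (2 * K)) (by positivity))]
      with w hw hr
    have h2 : (fun j => wd (a + w.1) (u j) - wd (a + w.1) (v j)) = 0 := funext fun j => sub_eq_zero.2 (hr j)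
    have h3 : (fun j => wd a (u j) - wd a (v j)) = 0 := funext fun j => sub_eq_zero.2 (h0 j)
    rw [h2, h3, sub_zero, zero_sub, norm_neg, add_sub_cancel_left] at hw
    have h4 : ‖w‖ ≤ K * ‖DD w‖ := by simpa using hA.le_mul_dist w 0
    have h5 : K * (1 / (2 * K) * ‖(w : ι → A)‖) = ‖w‖ / 2 := by
      rw [Submodule.coe_norm]
      field_simp
    have h6 := mul_le_mul_of_nonneg_left hw hK'.le
    exact norm_le_zero_iff.1 (by linarith)
  have g1 : HasStrictFDerivAt (fun p : A × W => 1 + p.1) (ContinuousLinearMap.fst ℝ A W) 0 :=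
    hasStrictFDerivAt_fst.const_add 1
  have g2 : HasStrictFDerivAt (fun p : A × W => Ring.inverse (1 + p.1))
      (-ContinuousLinearMap.fst ℝ A W) 0 := by
    have := (hasStrictFDerivAt_ringInverse (𝕜 := ℝ) (1 : Aˣ))
    rw [show ((1 : Aˣ) : A) = 1 + (0 : A × W).1 by simp] at this
    refine (HasStrictFDerivAt.comp (f := fun p : A × W => 1 + p.1) 0 this g1).congr_fderiv ?_
    ext <;> simp
  have g3 : ∀ i, HasStrictFDerivAt (fun p : A × W => (a + p.2.1) i)
      ((ContinuousLinearMap.proj i).comp (W.subtypeL.comp (ContinuousLinearMap.snd ℝ A W))) 0 :=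
    fun i => ((ContinuousLinearMap.proj i).comp
      (W.subtypeL.comp (ContinuousLinearMap.snd ℝ A W))).hasStrictFDerivAt.const_add (a i)
  have g4 := hasStrictFDerivAt_pi.2 fun i => (g1.fun_mul' (g3 i)).fun_mul' g2
  have g5 := g4.map_nhds_eq_of_surj (by
    rw [eq_top_iff, ← hW.sup_eq_top]
    intro U hU
    obtain ⟨_, ⟨X, rfl⟩, w, hw, rfl⟩ := Submodule.mem_sup.1 hU
    refine ⟨(X, ⟨w, hw⟩), funext fun i => ?_⟩
    simp [T]
    abel)
  have g6 : (fun i => (1 + (0 : A × W).1) * (a + (0 : A × W).2.1) i * Ring.inverse (1 + (0 : A × W).1))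
      = a := by
    funext i
    simp
  rw [g6] at g5
  rw [← g5, eventually_map]
  have e1 : ∀ᶠ p : A × W in 𝓝 0, IsUnit (1 + p.1) :=
    g1.continuousAt.eventually (Units.isOpen.mem_nhds (by simp))
  filter_upwards [e1, (continuous_snd.tendsto' (0 : A × W) 0 rfl).eventually hw0] with p hp hw hr
  have e2 : ∀ i, (1 + p.1) * (a + p.2.1) i * Ring.inverse (1 + p.1) * (1 + p.1) =
      (1 + p.1) * (a + p.2.1) i := fun i => by
    rw [mul_assoc, Ring.inverse_mul_cancel _ hp, mul_one]
  refine ⟨1 + p.1, hp, fun i => ?_⟩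
  rw [e2, hw fun j => hp.mul_left_cancel ?_]
  · simp
  · rw [← wd_conj e2, ← wd_conj e2, hr j]

end weil

section table

variable {S : Type} [CommRing S]

abbrev II := Fin 3 × Fin 4 × Fin 4
abbrev MM (S : Type) := Matrix (Fin 4) (Fin 4) S

/-- one entry of the matrix of the derivative -/
def dent (a : Fin 3 → MM S) (y : II) (r s : Fin 4) (l : List (Fin 3)) : MM S → S :=
  l.rec (fun _ => 0) fun k l f P => (if k = y.1 then P r y.2.1 * wd a l y.2.2 s else 0) + f (P * a k)

theorem dent_cons (a : Fin 3 → MM S) (y : II) (r s : Fin 4) (k : Fin 3) (l : List (Fin 3))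
    (P : MM S) : dent a y r s (k :: l) P =
      (if k = y.1 then P r y.2.1 * wd a l y.2.2 s else 0) + dent a y r s l (P * a k) := rfl

theorem sum_dent (a U : Fin 3 → MM S) (r s : Fin 4) (l : List (Fin 3)) (P : MM S) :
    ∑ y : II, dent a y r s l P * U y.1 y.2.1 y.2.2 = (P * der a U l) r s := by
  induction l generalizing P with
  | nil => simp [dent, der_nil]
  | cons k l ih =>
    simp only [dent_cons, add_mul, Finset.sum_add_distrib, ih]
    rw [der_cons, mul_add, ← mul_assoc P (a k), Matrix.add_apply]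
    congr 1
    simp only [Fintype.sum_prod_type, ite_mul, zero_mul, Finset.sum_ite_irrel, Finset.sum_const_zero,
      Finset.sum_ite_eq, Finset.mem_univ, if_true, mul_apply, Finset.mul_sum]
    exact Finset.sum_congr rfl fun p _ => Finset.sum_congr rfl fun q _ => by ring

theorem map_dent {S' : Type} [CommRing S'] (f : S →+* S') (a : Fin 3 → MM S) (y : II) (r s : Fin 4)
    (l : List (Fin 3)) (P : MM S) :
    f (dent a y r s l P) = dent (fun i => (a i).map f) y r s l (P.map f) := by
  induction l generalizing P with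
  | nil => simp [dent]
  | cons k l ih =>
    rw [dent_cons, dent_cons, map_add, ih, Matrix.map_mul]
    congr 1
    split_ifs
    · rw [map_mul]
      exact congrArg _ (congrFun (congrFun (map_wd f.mapMatrix a l) _) _)
    · exact map_zero f

/-- the matrix of the linearised relations -/
def Dm (u v : Fin 3 → List (Fin 3)) (a : Fin 3 → MM S) : Matrix II II S :=
  of fun z y => dent a y z.2.1 z.2.2 (u z.1) 1 - dent a y z.2.1 z.2.2 (v z.1) 1

/-- the matrix of the coboundary -/
def Tm (a : Fin 3 → MM S) : Matrix II (Fin 4 × Fin 4) S :=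
  of fun x p => (if x.2.1 = p.1 then a x.1 p.2 x.2.2 else 0) - if x.2.2 = p.2 then a x.1 x.2.1 p.1 else 0

theorem Dm_mulVec (u v : Fin 3 → List (Fin 3)) (a U : Fin 3 → MM S) (z : II) :
    (Dm u v a *ᵥ fun y => U y.1 y.2.1 y.2.2) z = (der a U (u z.1) - der a U (v z.1)) z.2.1 z.2.2 := by
  simp only [mulVec, dotProduct, Dm, of_apply, sub_mul, Finset.sum_sub_distrib, sum_dent, one_mul,
    Matrix.sub_apply]

theorem Tm_mulVec (a : Fin 3 → MM S) (X : Fin 4 × Fin 4 → S) (x : II) :
    (Tm a *ᵥ X) x = (of (fun p q => X (p, q)) * a x.1 - a x.1 * of fun p q => X (p, q)) x.2.1 x.2.2 := by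
  simp only [mulVec, dotProduct, Tm, of_apply, sub_mul, Finset.sum_sub_distrib, Matrix.sub_apply,
    Fintype.sum_prod_type, ite_mul, zero_mul, Finset.sum_ite_irrel, Finset.sum_const_zero,
    Finset.sum_ite_eq, Finset.mem_univ, if_true, mul_apply, mul_comm (X _)]

/-- a table of small numbers -/
def tab {m : Type} (N : ℕ) (ix : m → ℕ) (S : Type) [CommRing S] : Matrix m II S :=
  of fun x y => ((N >>> (5 * (48 * ix x + (16 * y.1 + 4 * y.2.1 + y.2.2)))) % 32 : ℕ)

/-- the matrix that a certificate shows to be invertible -/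
def Nm (u v : Fin 3 → List (Fin 3)) (M N : ℕ) (a : Fin 3 → MM S) : Matrix II II S :=
  tab M (fun x : II => 16 * x.1 + 4 * x.2.1 + x.2.2) S * Dm u v a +
    Tm a * tab N (fun p : Fin 4 × Fin 4 => 4 * p.1 + p.2) S

theorem map_Nm {S' : Type} [CommRing S'] (f : S →+* S') (u v : Fin 3 → List (Fin 3)) (M N : ℕ)
    (a : Fin 3 → MM S) : f.mapMatrix (Nm u v M N a) = Nm u v M N fun i => (a i).map f := by
  ext x y
  simp [Nm, mul_apply, tab, Dm, Tm, map_dent, apply_ite f]

theorem h1_zero {u v : Fin 3 → List (Fin 3)} {M N : ℕ} {a : Fin 3 → MM ℝ}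
    (h0 : ∀ j, wd a (u j) = wd a (v j)) (hN : (Nm u v M N a).det ≠ 0) (U : Fin 3 → MM ℝ)
    (h : ∀ j, der a U (u j) = der a U (v j)) : ∃ X, ∀ i, U i = X * a i - a i * X := by
  have h1 : ∀ X, Dm u v a *ᵥ (Tm a *ᵥ X) = 0 := fun X => by
    funext z
    have := Dm_mulVec u v a (fun i => of (fun p q => X (p, q)) * a i - a i * of fun p q => X (p, q)) z
    rw [der_cob, der_cob, h0, sub_self] at this
    rw [funext (Tm_mulVec a X)]
    exact this
  have h2 : ∀ x ∈ LinearMap.range (Tm a).mulVecLin,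
      (Nm u v M N a).mulVecLin x ∈ LinearMap.range (Tm a).mulVecLin := by
    rintro _ ⟨X, rfl⟩
    refine ⟨tab N (fun p : Fin 4 × Fin 4 => 4 * p.1 + p.2) ℝ *ᵥ (Tm a *ᵥ X), ?_⟩
    simp only [mulVecLin_apply, Nm, add_mulVec, ← mulVec_mulVec, h1, mulVec_zero, zero_add]
  have h3 : Function.Injective (Nm u v M N a).mulVec :=
    mulVec_injective_iff_isUnit.2 ((isUnit_iff_isUnit_det _).2 (Ne.isUnit hN))
  have h4 := (LinearMap.injective_iff_surjective (f := (Nm u v M N a).mulVecLin.restrict h2)).1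
    fun x y e => Subtype.ext (h3 (congrArg Subtype.val e))
  obtain ⟨⟨_, X, rfl⟩, hX⟩ := h4 ⟨_, tab N (fun p : Fin 4 × Fin 4 => 4 * p.1 + p.2) ℝ *ᵥ
    fun y => U y.1 y.2.1 y.2.2, rfl⟩
  have h5 : Dm u v a *ᵥ (fun y => U y.1 y.2.1 y.2.2) = 0 := funext fun z => by
    rw [Dm_mulVec, h, sub_self]
    rfl
  have h6 : Tm a *ᵥ X = fun y => U y.1 y.2.1 y.2.2 := h3 (by
    refine (congrArg Subtype.val hX).trans ?_
    simp only [mulVecLin_apply, Nm, add_mulVec, ← mulVec_mulVec, h5, mulVec_zero, zero_add])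
  refine ⟨of fun p q => X (p, q), fun i => ?_⟩
  ext r s
  exact ((congrFun h6 (i, r, s)).symm).trans (Tm_mulVec a X _)

end table

end Pool.Agent.P.MP_7d68c1_gt.Eight
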